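import Mathlib
import Pool.Agent.H510R2.Div

/-!
# Pairs of squarefree integers with a given product up to squares (helper93)
-/

set_option autoImplicit false

namespace Pool.Agent.H93GC

open Finset

/-- product of the primes in the symmetric difference -/
def sk (n m : ℕ) : ℕ := ∏ p ∈ symmDiff n.primeFactors m.primeFactors, p

lemma mul_eq {n m : ℕ} (hn : Squarefree n) (hm : Squarefree m) :
    n * m = Nat.gcd n m ^ 2 * sk n m := by
  have h1 : ∏ p ∈ n.primeFactors, p = n := Nat.prod_primeFactors_of_squarefree hn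
  have h2 : ∏ p ∈ m.primeFactors, p = m := Nat.prod_primeFactors_of_squarefree hm
  have h3 : ∏ p ∈ (Nat.gcd n m).primeFactors, p = Nat.gcd n m :=
    Nat.prod_primeFactors_of_squarefree (hn.squarefree_of_dvd (Nat.gcd_dvd_left n m))
  rw [Nat.primeFactors_gcd hn.ne_zero hm.ne_zero] at h3
  have h4 := Finset.prod_union_inter (s₁ := n.primeFactors) (s₂ := m.primeFactors)
    (f := fun p : ℕ => p)
  rw [h1, h2, h3] at h4
  have h5 : n.primeFactors ∪ m.primeFactors =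
      symmDiff n.primeFactors m.primeFactors ∪ (n.primeFactors ∩ m.primeFactors) :=
    (symmDiff_sup_inf n.primeFactors m.primeFactors).symm
  rw [h5, Finset.prod_union (disjoint_symmDiff_inf _ _), h3] at h4
  unfold sk
  rw [← h4]
  ring

lemma sk_pos (n m : ℕ) : 0 < sk n m := by
  unfold sk
  apply Finset.prod_pos
  intro p hp
  rw [Finset.mem_symmDiff] at hp
  rcases hp with h | h
  · exact (Nat.prime_of_mem_primeFactors h.1).pos
  · exact (Nat.prime_of_mem_primeFactors h.1).pos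

/-- the pairs -/
def PP (N₀ N₁ D : ℕ) : Finset (ℕ × ℕ) :=
  (Icc N₀ N₁ ×ˢ Icc N₀ N₁).filter fun z =>
    z.1 ≠ z.2 ∧ Squarefree z.1 ∧ Squarefree z.2 ∧ z.1 ≤ z.2 + D ∧ z.2 ≤ z.1 + D

lemma mem_PP {N₀ N₁ D : ℕ} {z : ℕ × ℕ} : z ∈ PP N₀ N₁ D ↔
    ((N₀ ≤ z.1 ∧ z.1 ≤ N₁) ∧ N₀ ≤ z.2 ∧ z.2 ≤ N₁) ∧
    z.1 ≠ z.2 ∧ Squarefree z.1 ∧ Squarefree z.2 ∧ z.1 ≤ z.2 + D ∧ z.2 ≤ z.1 + D := by
  unfold PP
  rw [mem_filter, mem_product, mem_Icc, mem_Icc]

/-- pairs with the same `sk` as a given pair -/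
lemma card_same {N₀ N₁ D ρ : ℕ} (h0 : 1 ≤ N₀) (hρ : N₁ ≤ ρ * N₀) (z : ℕ × ℕ) (hz : z ∈ PP N₀ N₁ D) :
    ((PP N₀ N₁ D).filter fun y => sk y.1 y.2 = sk z.1 z.2).card ≤
      (sk z.1 z.2).divisors.card * (ρ * Nat.gcd z.1 z.2) := by
  classical
  rw [mem_PP] at hz
  obtain ⟨⟨⟨a1, a2⟩, a3, a4⟩, a5, a6, a7, -, -⟩ := hz
  have hmul := mul_eq a6 a7
  have hg0 : 0 < Nat.gcd z.1 z.2 := Nat.gcd_pos_of_pos_left _ (by omega)
  have hs0 := sk_pos z.1 z.2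
  have hcard : (sk z.1 z.2).divisors.card * (ρ * Nat.gcd z.1 z.2) =
      ((sk z.1 z.2).divisors ×ˢ Icc 1 (ρ * Nat.gcd z.1 z.2)).card := by
    rw [card_product, Nat.card_Icc]
    simp
  rw [hcard]
  refine card_le_card_of_injOn (fun y => (y.1 / Nat.gcd y.1 y.2, Nat.gcd y.1 y.2)) ?_ ?_
  · intro y hy
    rw [mem_coe, mem_filter, mem_PP] at hy
    obtain ⟨⟨⟨⟨b1, b2⟩, b3, b4⟩, b5, b6, b7, -, -⟩, b8⟩ := hy
    have hmy := mul_eq b6 b7
    rw [b8] at hmy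
    have hgy0 : 0 < Nat.gcd y.1 y.2 := Nat.gcd_pos_of_pos_left _ (by omega)
    rw [mem_coe, mem_product, Nat.mem_divisors, mem_Icc]
    obtain ⟨u, hu⟩ := Nat.gcd_dvd_left y.1 y.2
    obtain ⟨v, hv⟩ := Nat.gcd_dvd_right y.1 y.2
    obtain ⟨g, hg⟩ : ∃ g, g = Nat.gcd y.1 y.2 := ⟨_, rfl⟩
    rw [← hg] at hu hv hmy hgy0
    have huv : u * v = sk z.1 z.2 := by
      have : g ^ 2 * (u * v) = g ^ 2 * sk z.1 z.2 := by
        rw [← hmy, hu, hv]
        ring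
      exact Nat.eq_of_mul_eq_mul_left (by positivity) this
    refine ⟨⟨?_, hs0.ne'⟩, ?_, ?_⟩
    · simp only
      rw [← hg, hu, Nat.mul_div_cancel_left _ hgy0, ← huv]
      exact dvd_mul_right _ _
    · simp only
      rw [← hg]
      exact hgy0
    · simp only
      rw [← hg]
      -- `g ^ 2 * s * N₀ ^ 2 ≤ N₁ ^ 2 * (G ^ 2 * s)`
      obtain ⟨G, hG⟩ : ∃ G, G = Nat.gcd z.1 z.2 := ⟨_, rfl⟩
      rw [← hG] at hmul hg0 ⊢
      obtain ⟨s, hs⟩ : ∃ s, s = sk z.1 z.2 := ⟨_, rfl⟩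
      rw [← hs] at hmul hmy hs0
      have h1 : g ^ 2 * s ≤ N₁ * N₁ := by
        rw [← hmy]
        exact Nat.mul_le_mul b2 b4
      have h2 : N₀ * N₀ ≤ G ^ 2 * s := by
        rw [← hmul]
        exact Nat.mul_le_mul a1 a3
      have h3 : (g * N₀) ^ 2 * s ≤ (ρ * G * N₀) ^ 2 * s := by
        calc (g * N₀) ^ 2 * s = (g ^ 2 * s) * (N₀ * N₀) := by ring
          _ ≤ (N₁ * N₁) * (G ^ 2 * s) := Nat.mul_le_mul h1 h2
          _ ≤ ((ρ * N₀) * (ρ * N₀)) * (G ^ 2 * s) :=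
              Nat.mul_le_mul_right _ (Nat.mul_le_mul hρ hρ)
          _ = (ρ * G * N₀) ^ 2 * s := by ring
      have h4 : (g * N₀) ^ 2 ≤ (ρ * G * N₀) ^ 2 := Nat.le_of_mul_le_mul_right h3 hs0
      have h5 : g * N₀ ≤ ρ * G * N₀ := (Nat.pow_le_pow_iff_left two_ne_zero).1 h4
      exact Nat.le_of_mul_le_mul_right h5 (by omega)
  · intro y hy y' hy' heq
    rw [mem_coe, mem_filter, mem_PP] at hy hy'
    obtain ⟨⟨⟨⟨b1, b2⟩, b3, b4⟩, b5, b6, b7, -, -⟩, b8⟩ := hy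
    obtain ⟨⟨⟨⟨c1, c2⟩, c3, c4⟩, c5, c6, c7, -, -⟩, c8⟩ := hy'
    have hmy := mul_eq b6 b7
    have hmy' := mul_eq c6 c7
    rw [b8] at hmy
    rw [c8] at hmy'
    simp only [Prod.mk.injEq] at heq
    obtain ⟨e1, e2⟩ := heq
    have e3 : y.1 = y'.1 := by
      have h1 := Nat.div_mul_cancel (Nat.gcd_dvd_left y.1 y.2)
      have h2 := Nat.div_mul_cancel (Nat.gcd_dvd_left y'.1 y'.2)
      rw [← h1, ← h2, e1, e2]
    have e4 : y.2 = y'.2 := by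
      have h1 : y.1 * y.2 = y.1 * y'.2 := by
        calc y.1 * y.2 = Nat.gcd y.1 y.2 ^ 2 * sk z.1 z.2 := hmy
          _ = Nat.gcd y'.1 y'.2 ^ 2 * sk z.1 z.2 := by rw [e2]
          _ = y'.1 * y'.2 := hmy'.symm
          _ = y.1 * y'.2 := by rw [e3]
      exact Nat.eq_of_mul_eq_mul_left (by omega) h1
    exact Prod.ext e3 e4

lemma gcd_le_sum (n d : ℕ) (hd : 0 < d) :
    Nat.gcd n d ≤ ∑ g ∈ d.divisors, if g ∣ n then g else 0 := by
  have h : Nat.gcd n d ∈ d.divisors := Nat.mem_divisors.2 ⟨Nat.gcd_dvd_right _ _, hd.ne'⟩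
  calc Nat.gcd n d = if Nat.gcd n d ∣ n then Nat.gcd n d else 0 := by
        rw [if_pos (Nat.gcd_dvd_left _ _)]
    _ ≤ _ := single_le_sum (f := fun g => if g ∣ n then g else 0) (fun g _ => Nat.zero_le _) h

lemma sum_gcd (N d : ℕ) (hd : 0 < d) : ∑ n ∈ Icc 1 N, Nat.gcd n d ≤ d.divisors.card * N := by
  calc ∑ n ∈ Icc 1 N, Nat.gcd n d ≤ ∑ n ∈ Icc 1 N, ∑ g ∈ d.divisors, (if g ∣ n then g else 0) :=
        sum_le_sum fun n _ => gcd_le_sum n d hd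
    _ = ∑ g ∈ d.divisors, ∑ n ∈ Icc 1 N, (if g ∣ n then g else 0) := sum_comm
    _ ≤ ∑ g ∈ d.divisors, N := by
        apply sum_le_sum
        intro g hg
        rw [← sum_filter, sum_const, smul_eq_mul]
        have hg0 : 0 < g := Nat.pos_of_mem_divisors hg
        have h1 : ((Icc 1 N).filter fun n => g ∣ n).card ≤ N / g := by
          have h2 : ((Icc 1 N).filter fun n => g ∣ n) ⊆ (Icc 1 (N / g)).image (fun i => g * i) := by
            intro n hn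
            rw [mem_filter, mem_Icc] at hn
            obtain ⟨⟨h3, h4⟩, i, rfl⟩ := hn
            rw [mem_image]
            refine ⟨i, mem_Icc.2 ⟨?_, ?_⟩, rfl⟩
            · rcases Nat.eq_zero_or_pos i with h | h
              · subst h; simp at h3
              · exact h
            · rw [Nat.le_div_iff_mul_le hg0, mul_comm]
              exact h4
          calc _ ≤ ((Icc 1 (N / g)).image (fun i => g * i)).card := card_le_card h2
            _ ≤ (Icc 1 (N / g)).card := card_image_le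
            _ = N / g := by rw [Nat.card_Icc, Nat.add_sub_cancel]
        calc _ ≤ N / g * g := Nat.mul_le_mul_right _ h1
          _ ≤ N := Nat.div_mul_le_self _ _
    _ = d.divisors.card * N := by rw [sum_const, smul_eq_mul]

/-- the sum of the gcds over the pairs -/
lemma sum_gcd_PP {N₀ N₁ D : ℕ} (h0 : 1 ≤ N₀) :
    ∑ z ∈ PP N₀ N₁ D, Nat.gcd z.1 z.2 ≤ 2 * ∑ d ∈ Icc 1 D, d.divisors.card * N₁ := by
  classical
  -- pairs `(n, n + d)` and `(n + d, n)`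
  have h1 : PP N₀ N₁ D ⊆ ((Icc 1 N₁ ×ˢ Icc 1 D).image fun w => (w.1, w.1 + w.2)) ∪
      ((Icc 1 N₁ ×ˢ Icc 1 D).image fun w => (w.1 + w.2, w.1)) := by
    intro z hz
    rw [mem_PP] at hz
    obtain ⟨⟨⟨a1, a2⟩, a3, a4⟩, a5, -, -, a8, a9⟩ := hz
    rw [mem_union, mem_image, mem_image]
    rcases lt_or_gt_of_ne a5 with h | h
    · left
      refine ⟨(z.1, z.2 - z.1), ?_, ?_⟩
      · rw [mem_product, mem_Icc, mem_Icc]
        simp only
        omega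
      · ext
        · rfl
        · simp only
          omega
    · right
      refine ⟨(z.2, z.1 - z.2), ?_, ?_⟩
      · rw [mem_product, mem_Icc, mem_Icc]
        simp only
        omega
      · ext
        · simp only
          omega
        · rfl
  have h2 : ∑ w ∈ Icc 1 N₁ ×ˢ Icc 1 D, Nat.gcd w.1 (w.1 + w.2) ≤
      ∑ d ∈ Icc 1 D, d.divisors.card * N₁ := by
    rw [sum_product_right]
    apply sum_le_sum
    intro d hd
    rw [mem_Icc] at hd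
    refine le_trans (le_of_eq (sum_congr rfl fun n _ => ?_)) (sum_gcd N₁ d (by omega))
    simp
  have h3 : ∑ w ∈ Icc 1 N₁ ×ˢ Icc 1 D, Nat.gcd (w.1 + w.2) w.1 ≤
      ∑ d ∈ Icc 1 D, d.divisors.card * N₁ := by
    refine le_trans (le_of_eq (sum_congr rfl fun w _ => ?_)) h2
    exact Nat.gcd_comm _ _
  calc ∑ z ∈ PP N₀ N₁ D, Nat.gcd z.1 z.2 ≤ ∑ z ∈ ((Icc 1 N₁ ×ˢ Icc 1 D).image fun w => (w.1, w.1 + w.2)) ∪
      ((Icc 1 N₁ ×ˢ Icc 1 D).image fun w => (w.1 + w.2, w.1)), Nat.gcd z.1 z.2 :=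
        sum_le_sum_of_subset h1
    _ ≤ ∑ z ∈ ((Icc 1 N₁ ×ˢ Icc 1 D).image fun w => (w.1, w.1 + w.2)), Nat.gcd z.1 z.2 +
        ∑ z ∈ ((Icc 1 N₁ ×ˢ Icc 1 D).image fun w => (w.1 + w.2, w.1)), Nat.gcd z.1 z.2 := by
        rw [← sum_union_inter]
        exact Nat.le_add_right _ _
    _ = ∑ w ∈ Icc 1 N₁ ×ˢ Icc 1 D, Nat.gcd w.1 (w.1 + w.2) +
        ∑ w ∈ Icc 1 N₁ ×ˢ Icc 1 D, Nat.gcd (w.1 + w.2) w.1 := by
        rw [sum_image, sum_image]
        · intro w _ w' _ h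
          simp only [Prod.mk.injEq] at h
          exact Prod.ext h.2 (by omega)
        · intro w _ w' _ h
          simp only [Prod.mk.injEq] at h
          exact Prod.ext h.1 (by omega)
    _ ≤ _ := by omega

/-- **The number of the quadruples.** -/
theorem card_quad (ρ : ℕ) (ε : ℝ) (hε : 0 < ε) : ∃ C : ℝ, 0 < C ∧ ∀ N₀ N₁ D : ℕ, 1 ≤ N₀ →
    N₁ ≤ ρ * N₀ → D ≤ N₁ →
    (((PP N₀ N₁ D ×ˢ PP N₀ N₁ D).filter fun w =>
      sk w.1.1 w.1.2 = sk w.2.1 w.2.2).card : ℝ) ≤ C * (N₁ : ℝ) ^ (1 + ε) * D := by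
  classical
  obtain ⟨C, hC, hd⟩ := Pool.Agent.H510R2.divisor_bound (ε / 3) (by positivity)
  refine ⟨2 * C * C * ρ + 1, by positivity, fun N₀ N₁ D h0 hρ hD => ?_⟩
  have h1 : (((PP N₀ N₁ D ×ˢ PP N₀ N₁ D).filter fun w =>
      sk w.1.1 w.1.2 = sk w.2.1 w.2.2).card : ℝ) ≤
      ∑ z ∈ PP N₀ N₁ D, C * ((N₁ : ℝ) * N₁) ^ (ε / 3) * (ρ * (Nat.gcd z.1 z.2 : ℝ)) := by
    have e1 : ((PP N₀ N₁ D ×ˢ PP N₀ N₁ D).filter fun w => sk w.1.1 w.1.2 = sk w.2.1 w.2.2).card =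
        ∑ z ∈ PP N₀ N₁ D, ((PP N₀ N₁ D).filter fun y => sk y.1 y.2 = sk z.1 z.2).card := by
      rw [card_filter, sum_product]
      apply sum_congr rfl
      intro z _
      rw [card_filter]
      apply sum_congr rfl
      intro y _
      simp only [eq_comm]
    rw [e1, Nat.cast_sum]
    apply sum_le_sum
    intro z hz
    have h2 := card_same h0 hρ z hz
    have h3 : ((((PP N₀ N₁ D).filter fun y => sk y.1 y.2 = sk z.1 z.2).card : ℕ) : ℝ) ≤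
        ((sk z.1 z.2).divisors.card : ℝ) * (ρ * (Nat.gcd z.1 z.2 : ℝ)) := by exact_mod_cast h2
    refine h3.trans (mul_le_mul_of_nonneg_right ?_ (by positivity))
    refine (hd _ (sk_pos _ _)).trans (mul_le_mul_of_nonneg_left ?_ hC.le)
    apply Real.rpow_le_rpow (by positivity) _ (by positivity)
    rw [mem_PP] at hz
    obtain ⟨⟨⟨a1, a2⟩, a3, a4⟩, a5, a6, a7, -, -⟩ := hz
    have hmul := mul_eq a6 a7
    have hg0 : 0 < Nat.gcd z.1 z.2 := Nat.gcd_pos_of_pos_left _ (by omega)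
    have h5 : sk z.1 z.2 ≤ N₁ * N₁ := by
      calc sk z.1 z.2 ≤ Nat.gcd z.1 z.2 ^ 2 * sk z.1 z.2 := Nat.le_mul_of_pos_left _ (by positivity)
        _ = z.1 * z.2 := hmul.symm
        _ ≤ N₁ * N₁ := Nat.mul_le_mul a2 a4
    exact_mod_cast h5
  refine h1.trans ?_
  rcases Nat.eq_zero_or_pos N₁ with hN | hN
  · have : PP N₀ N₁ D = ∅ := by
      rw [eq_empty_iff_forall_notMem]
      intro z hz
      rw [mem_PP] at hz
      omega
    rw [this, sum_empty]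
    positivity
  have hN1 : (1 : ℝ) ≤ N₁ := by exact_mod_cast hN
  have h2 : ∑ z ∈ PP N₀ N₁ D, (Nat.gcd z.1 z.2 : ℝ) ≤ 2 * ((D : ℝ) * (C * (N₁ : ℝ) ^ (ε / 3) * N₁)) := by
    have h3 : ((∑ z ∈ PP N₀ N₁ D, Nat.gcd z.1 z.2 : ℕ) : ℝ) ≤
        ((2 * ∑ d ∈ Icc 1 D, d.divisors.card * N₁ : ℕ) : ℝ) := by
      exact_mod_cast sum_gcd_PP (N₁ := N₁) (D := D) h0
    push_cast at h3
    refine h3.trans (mul_le_mul_of_nonneg_left ?_ (by norm_num))
    calc ∑ d ∈ Icc 1 D, ((d.divisors.card : ℝ) * N₁) ≤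
        ∑ d ∈ Icc 1 D, (C * (N₁ : ℝ) ^ (ε / 3) * N₁) := by
          apply sum_le_sum
          intro d hdd
          rw [mem_Icc] at hdd
          apply mul_le_mul_of_nonneg_right _ (by positivity)
          refine (hd d (by omega)).trans (mul_le_mul_of_nonneg_left ?_ hC.le)
          apply Real.rpow_le_rpow (by positivity) _ (by positivity)
          exact_mod_cast hdd.2.trans hD
      _ = (D : ℝ) * (C * (N₁ : ℝ) ^ (ε / 3) * N₁) := by
          rw [sum_const, Nat.card_Icc, nsmul_eq_mul]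
          simp
  rw [← mul_sum, ← mul_sum]
  have h4 : ((N₁ : ℝ) * N₁) ^ (ε / 3) * ((N₁ : ℝ) ^ (ε / 3) * N₁) = (N₁ : ℝ) ^ (1 + ε) := by
    rw [Real.mul_rpow (by positivity) (by positivity)]
    have : (N₁ : ℝ) ^ (1 + ε) = (N₁ : ℝ) ^ (ε / 3) * (N₁ : ℝ) ^ (ε / 3) * ((N₁ : ℝ) ^ (ε / 3) * (N₁ : ℝ) ^ (1 : ℝ)) := by
      rw [← Real.rpow_add (by positivity), ← Real.rpow_add (by positivity), ← Real.rpow_add (by positivity)]
      congr 1
      ring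
    rw [this, Real.rpow_one]
  have hX : (0 : ℝ) ≤ (N₁ : ℝ) ^ (1 + ε) * D := by positivity
  calc C * ((N₁ : ℝ) * N₁) ^ (ε / 3) * (ρ * ∑ z ∈ PP N₀ N₁ D, (Nat.gcd z.1 z.2 : ℝ)) ≤
      C * ((N₁ : ℝ) * N₁) ^ (ε / 3) * (ρ * (2 * ((D : ℝ) * (C * (N₁ : ℝ) ^ (ε / 3) * N₁)))) := by
        apply mul_le_mul_of_nonneg_left _ (by positivity)
        exact mul_le_mul_of_nonneg_left h2 (by positivity)
    _ = 2 * C * C * ρ * ((((N₁ : ℝ) * N₁) ^ (ε / 3) * ((N₁ : ℝ) ^ (ε / 3) * N₁)) * D) := by ring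
    _ = 2 * C * C * ρ * ((N₁ : ℝ) ^ (1 + ε) * D) := by rw [h4]
    _ ≤ (2 * C * C * ρ + 1) * ((N₁ : ℝ) ^ (1 + ε) * D) := by
        apply mul_le_mul_of_nonneg_right _ hX
        linarith
    _ = (2 * C * C * ρ + 1) * (N₁ : ℝ) ^ (1 + ε) * D := by ring

end Pool.Agent.H93GC
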