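import Mathlib
import Pool.Agent.Y293.SF.SQF

/-!
# The number of the squarefree integers, with an error term (helper93)
-/

set_option autoImplicit false

namespace Pool.Agent.H93GC

open Finset Pool.Agent.Y293.SF

open Classical in
/-- the indicator function of the squarefree integers -/
noncomputable def sq (n : ℕ) : ℝ := if Squarefree n then 1 else 0

lemma sq_nonneg (n : ℕ) : 0 ≤ sq n := by unfold sq; split_ifs <;> norm_num

lemma sq_le (n : ℕ) : sq n ≤ 1 := by unfold sq; split_ifs <;> norm_num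

theorem sqf_nat (n : ℕ) : |∑ m ∈ Icc 1 n, sq m - n * (6 / Real.pi ^ 2)| ≤ 3 * √n := by
  classical
  have h0 : ∑ m ∈ Icc 1 n, sq m = ∑' d : ℕ, mu d * ((n / d ^ 2 : ℕ) : ℝ) := by
    rw [← count_eq n, card_filter, Nat.cast_sum]
    apply sum_congr rfl
    intro m _
    unfold sq
    split_ifs <;> simp
  have hs2 : Summable fun d : ℕ => mu d * (1 / (d : ℝ) ^ 2) := moebius_hasSum.summable
  have h1 : (n : ℝ) * (6 / Real.pi ^ 2) = ∑' d : ℕ, mu d * (1 / (d : ℝ) ^ 2) * n := by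
    rw [tsum_mul_right, moebius_hasSum.tsum_eq]
    ring
  obtain ⟨D, hD⟩ : ∃ D, D = Nat.sqrt n := ⟨_, rfl⟩
  have hle : ∀ d : ℕ, ((n / d ^ 2 : ℕ) : ℝ) ≤ (n : ℝ) / (d : ℝ) ^ 2 := by
    intro d
    have h2 : ((n / d ^ 2 : ℕ) : ℝ) ≤ (n : ℝ) / ((d ^ 2 : ℕ) : ℝ) := Nat.cast_div_le
    push_cast at h2
    exact h2
  have hs1 : Summable fun d : ℕ => mu d * ((n / d ^ 2 : ℕ) : ℝ) := by
    apply summable_of_ne_finset_zero (s := range (n + 1))
    intro d hd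
    rw [mem_range, not_lt] at hd
    have h2 : n / d ^ 2 = 0 := Nat.div_eq_of_lt (by nlinarith)
    rw [h2]
    simp
  rw [h0, h1, ← hs1.tsum_sub (hs2.mul_right _)]
  have hb : ∀ d : ℕ, |mu d * ((n / d ^ 2 : ℕ) : ℝ) - mu d * (1 / (d : ℝ) ^ 2) * n| ≤
      if d = 0 then 0 else if d ≤ D then 1 else n * ((d : ℝ) ^ 2)⁻¹ := by
    intro d
    have e : mu d * ((n / d ^ 2 : ℕ) : ℝ) - mu d * (1 / (d : ℝ) ^ 2) * n =
        mu d * (((n / d ^ 2 : ℕ) : ℝ) - (n : ℝ) / (d : ℝ) ^ 2) := by ring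
    rw [e, abs_mul]
    by_cases hd0 : d = 0
    · rw [if_pos hd0, hd0, mu_zero]
      simp
    rw [if_neg hd0]
    have hm := abs_mu_le d
    have h2 : |((n / d ^ 2 : ℕ) : ℝ) - (n : ℝ) / (d : ℝ) ^ 2| = (n : ℝ) / (d : ℝ) ^ 2 - ((n / d ^ 2 : ℕ) : ℝ) := by
      rw [abs_sub_comm, abs_of_nonneg]
      linarith [hle d]
    rw [h2]
    have h3 : 0 ≤ (n : ℝ) / (d : ℝ) ^ 2 - ((n / d ^ 2 : ℕ) : ℝ) := by linarith [hle d]
    have h4 : |mu d| * ((n : ℝ) / (d : ℝ) ^ 2 - ((n / d ^ 2 : ℕ) : ℝ)) ≤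
        1 * ((n : ℝ) / (d : ℝ) ^ 2 - ((n / d ^ 2 : ℕ) : ℝ)) := mul_le_mul_of_nonneg_right hm h3
    rw [one_mul] at h4
    refine h4.trans ?_
    split_ifs with h5
    · have hd2 : 0 < d ^ 2 := by positivity
      have h6 : (n : ℝ) / (d : ℝ) ^ 2 < ((n / d ^ 2 : ℕ) : ℝ) + 1 := by
        rw [div_lt_iff₀ (by positivity)]
        have h7 := Nat.lt_div_mul_add (a := n) hd2
        have h8 : n < (n / d ^ 2 + 1) * d ^ 2 := by nlinarith
        exact_mod_cast h8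
      linarith
    · have h6 : (0 : ℝ) ≤ ((n / d ^ 2 : ℕ) : ℝ) := Nat.cast_nonneg _
      have h7 : (n : ℝ) / (d : ℝ) ^ 2 = n * ((d : ℝ) ^ 2)⁻¹ := div_eq_mul_inv _ _
      linarith
  have hsab : Summable fun d : ℕ => |mu d * ((n / d ^ 2 : ℕ) : ℝ) - mu d * (1 / (d : ℝ) ^ 2) * n| :=
    (hs1.sub (hs2.mul_right _)).abs
  have hnorm : |∑' d : ℕ, (mu d * ((n / d ^ 2 : ℕ) : ℝ) - mu d * (1 / (d : ℝ) ^ 2) * n)| ≤
      ∑' d : ℕ, |mu d * ((n / d ^ 2 : ℕ) : ℝ) - mu d * (1 / (d : ℝ) ^ 2) * n| := by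
    have := norm_tsum_le_tsum_norm (f := fun d : ℕ => mu d * ((n / d ^ 2 : ℕ) : ℝ) - mu d * (1 / (d : ℝ) ^ 2) * n)
      (by simpa only [Real.norm_eq_abs] using hsab)
    simpa only [Real.norm_eq_abs] using this
  refine hnorm.trans ?_
  apply Real.tsum_le_of_sum_range_le (fun _ => abs_nonneg _)
  intro M
  have hDs : (D : ℝ) ≤ √n := by
    rw [hD]
    exact Real.nat_sqrt_le_real_sqrt
  have hDs2 : √n ≤ (D : ℝ) + 1 := by
    rw [hD]
    exact (Real.real_sqrt_le_nat_sqrt_succ)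
  have hn0 : (0 : ℝ) ≤ √n := Real.sqrt_nonneg _
  have hnn : √(n : ℝ) * √n = n := Real.mul_self_sqrt (Nat.cast_nonneg _)
  calc ∑ d ∈ range M, |mu d * ((n / d ^ 2 : ℕ) : ℝ) - mu d * (1 / (d : ℝ) ^ 2) * n| ≤
      ∑ d ∈ range M, ((if d ∈ Icc 1 D then (1 : ℝ) else 0) + (if d ∈ Ioo D M then n * ((d : ℝ) ^ 2)⁻¹ else 0)) := by
        apply sum_le_sum
        intro d hd
        rw [mem_range] at hd
        refine (hb d).trans ?_
        simp only [mem_Icc, mem_Ioo]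
        have hpos : (0 : ℝ) ≤ n * ((d : ℝ) ^ 2)⁻¹ := by positivity
        by_cases h1 : d = 0
        · rw [if_pos h1]
          split_ifs <;> linarith
        · rw [if_neg h1]
          by_cases h2 : d ≤ D
          · rw [if_pos h2, if_pos ⟨by omega, h2⟩, if_neg (by omega)]
            simp
          · rw [if_neg h2, if_neg (by omega), if_pos ⟨by omega, hd⟩]
            simp
    _ = ∑ d ∈ range M, (if d ∈ Icc 1 D then (1 : ℝ) else 0) +
        ∑ d ∈ range M, (if d ∈ Ioo D M then n * ((d : ℝ) ^ 2)⁻¹ else 0) := sum_add_distrib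
    _ ≤ D + n * (2 / ((D : ℝ) + 1)) := by
        apply add_le_add
        · rw [← sum_filter, sum_const, nsmul_eq_mul, mul_one]
          have : ((range M).filter fun d => d ∈ Icc 1 D).card ≤ D := by
            calc _ ≤ (Icc 1 D).card := card_le_card fun d hd => (mem_filter.1 hd).2
              _ = D := by rw [Nat.card_Icc, Nat.add_sub_cancel]
          exact_mod_cast this
        · rw [← sum_filter, ← mul_sum]
          apply mul_le_mul_of_nonneg_left _ (Nat.cast_nonneg _)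
          calc ∑ d ∈ (range M).filter (fun d => d ∈ Ioo D M), ((d : ℝ) ^ 2)⁻¹ ≤
              ∑ d ∈ Ioo D M, ((d : ℝ) ^ 2)⁻¹ := by
                apply sum_le_sum_of_subset_of_nonneg
                · intro d hd
                  exact (mem_filter.1 hd).2
                · intros; positivity
            _ ≤ 2 / ((D : ℝ) + 1) := sum_Ioo_inv_sq_le D M
    _ ≤ √n + 2 * √n := by
        apply add_le_add hDs
        rw [mul_div_assoc', div_le_iff₀ (by positivity)]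
        nlinarith
    _ = 3 * √n := by ring

/-- squarefree integers in `(A, B]` -/
theorem sqf_real (A B : ℝ) (hA : 0 ≤ A) (hAB : A ≤ B) :
    |∑ m ∈ Ioc ⌊A⌋₊ ⌊B⌋₊, sq m - (B - A) * (6 / Real.pi ^ 2)| ≤ 6 * √B + 2 := by
  have hB : 0 ≤ B := hA.trans hAB
  have hfl : ⌊A⌋₊ ≤ ⌊B⌋₊ := Nat.floor_le_floor hAB
  have h1 : ∑ m ∈ Ioc ⌊A⌋₊ ⌊B⌋₊, sq m = ∑ m ∈ Icc 1 ⌊B⌋₊, sq m - ∑ m ∈ Icc 1 ⌊A⌋₊, sq m := by
    have h2 : Icc 1 ⌊B⌋₊ = Icc 1 ⌊A⌋₊ ∪ Ioc ⌊A⌋₊ ⌊B⌋₊ := by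
      ext m
      simp only [mem_union, mem_Icc, mem_Ioc]
      omega
    rw [h2, sum_union]
    · ring
    · rw [disjoint_left]
      intro m h3 h4
      rw [mem_Icc] at h3
      rw [mem_Ioc] at h4
      omega
  have hb1 := abs_le.1 (sqf_nat ⌊B⌋₊)
  have ha1 := abs_le.1 (sqf_nat ⌊A⌋₊)
  have hbf : (⌊B⌋₊ : ℝ) ≤ B := Nat.floor_le hB
  have haf : (⌊A⌋₊ : ℝ) ≤ A := Nat.floor_le hA
  have hbf2 : B < (⌊B⌋₊ : ℝ) + 1 := Nat.lt_floor_add_one B
  have haf2 : A < (⌊A⌋₊ : ℝ) + 1 := Nat.lt_floor_add_one A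
  have s1 : √(⌊B⌋₊ : ℝ) ≤ √B := Real.sqrt_le_sqrt hbf
  have s2 : √(⌊A⌋₊ : ℝ) ≤ √B := Real.sqrt_le_sqrt (haf.trans hAB)
  have hc0 : 0 < 6 / Real.pi ^ 2 := by positivity
  have hc1 : 6 / Real.pi ^ 2 ≤ 1 := by
    rw [div_le_one (by positivity)]
    nlinarith [Real.pi_gt_three]
  obtain ⟨c, hc⟩ : ∃ c, c = 6 / Real.pi ^ 2 := ⟨_, rfl⟩
  rw [← hc] at hc0 hc1 hb1 ha1 ⊢
  rw [h1, abs_le]
  constructor
  · nlinarith
  · nlinarith

end Pool.Agent.H93GC
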