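import Mathlib
import Pool.Agent.H93GC.Sqf

/-!
# Sums over windows of length `h` and their mean squares (helper93)
-/

set_option autoImplicit false

namespace Pool.Agent.H93GC

open MeasureTheory Finset

/-- the sum of `f` over the integers `n < N` of the open window of length `h` around `x` -/
noncomputable def S (f : ℕ → ℂ) (N : ℕ) (h x : ℝ) : ℂ :=
  ∑ n ∈ range N, if |(n : ℝ) - x| < h / 2 then f n else 0

/-- the sum of `f` over the integers `n < N` with `a < n - x < b` -/
noncomputable def F (f : ℕ → ℂ) (N : ℕ) (a b x : ℝ) : ℂ :=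
  ∑ n ∈ range N, if a < (n : ℝ) - x ∧ (n : ℝ) - x < b then f n else 0

/-- the mean square -/
noncomputable def W (f : ℕ → ℂ) (N : ℕ) (A B h : ℝ) : ℝ := ∫ x in A..B, ‖S f N h x‖ ^ 2

/-- the indicator function of the window -/
noncomputable def ind (h : ℝ) (n : ℕ) (x : ℝ) : ℝ := if |(n : ℝ) - x| < h / 2 then 1 else 0

/-- the weights -/
noncomputable def w (h A B : ℝ) (n m : ℕ) : ℝ := ∫ x in A..B, ind h n x * ind h m x

/-- the coefficients -/
noncomputable def cf (f : ℕ → ℂ) (n m : ℕ) : ℝ := (f n * (starRingEnd ℂ) (f m)).re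

lemma F_eq_S (f : ℕ → ℂ) (N : ℕ) (a b x : ℝ) : F f N a b x = S f N (b - a) (x + (a + b) / 2) := by
  unfold F S
  apply sum_congr rfl
  intro n _
  have h : (a < (n : ℝ) - x ∧ (n : ℝ) - x < b) ↔ |(n : ℝ) - (x + (a + b) / 2)| < (b - a) / 2 := by
    rw [abs_lt]
    constructor
    · rintro ⟨h1, h2⟩
      constructor <;> linarith
    · rintro ⟨h1, h2⟩
      constructor <;> linarith
  simp only [h]

lemma S_eq_F (f : ℕ → ℂ) (N : ℕ) (h x : ℝ) : S f N h x = F f N (-(h / 2)) (h / 2) x := by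
  rw [F_eq_S]
  congr 1 <;> ring

lemma F_add (f : ℕ → ℂ) (N : ℕ) {a b c x : ℝ} (hab : a ≤ b) (hbc : b ≤ c)
    (hx : ∀ n < N, (n : ℝ) - x ≠ b) : F f N a c x = F f N a b x + F f N b c x := by
  unfold F
  rw [← sum_add_distrib]
  apply sum_congr rfl
  intro n hn
  rw [mem_range] at hn
  have h1 := hx n hn
  rcases lt_or_gt_of_ne h1 with h2 | h2
  · rw [if_neg (show ¬ (b < (n : ℝ) - x ∧ (n : ℝ) - x < c) from fun h => by linarith [h.1]), add_zero]
    by_cases h3 : a < (n : ℝ) - x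
    · rw [if_pos ⟨h3, by linarith⟩, if_pos ⟨h3, h2⟩]
    · rw [if_neg (fun h => h3 h.1), if_neg (fun h => h3 h.1)]
  · rw [if_neg (show ¬ (a < (n : ℝ) - x ∧ (n : ℝ) - x < b) from fun h => by linarith [h.2]), zero_add]
    by_cases h3 : (n : ℝ) - x < c
    · rw [if_pos ⟨by linarith, h3⟩, if_pos ⟨h2, h3⟩]
    · rw [if_neg (fun h => h3 h.2), if_neg (fun h => h3 h.2)]

lemma ae_ne (N : ℕ) (b : ℝ) : ∀ᵐ x : ℝ, ∀ n < N, (n : ℝ) - x ≠ b := by
  have h : (Set.range fun n : Fin N => ((n : ℕ) : ℝ) - b).Countable := Set.countable_range _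
  filter_upwards [h.ae_notMem volume] with x hx n hn h2
  exact hx ⟨⟨n, hn⟩, by simp only; linarith⟩

lemma F_add_ae (f : ℕ → ℂ) (N : ℕ) {a b c : ℝ} (hab : a ≤ b) (hbc : b ≤ c) :
    ∀ᵐ x : ℝ, F f N a c x = F f N a b x + F f N b c x := by
  filter_upwards [ae_ne N b] with x hx
  exact F_add f N hab hbc hx

lemma S_meas (f : ℕ → ℂ) (N : ℕ) (h : ℝ) : Measurable (S f N h) := by
  unfold S
  apply Finset.measurable_sum
  intro n _
  apply Measurable.ite _ measurable_const measurable_const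
  apply measurableSet_lt _ measurable_const
  fun_prop

lemma F_meas (f : ℕ → ℂ) (N : ℕ) (a b : ℝ) : Measurable (F f N a b) := by
  have : F f N a b = fun x => S f N (b - a) (x + (a + b) / 2) := funext fun x => F_eq_S f N a b x
  rw [this]
  exact (S_meas f N (b - a)).comp (measurable_id.add_const _)

lemma S_bound (f : ℕ → ℂ) (N : ℕ) (h x : ℝ) : ‖S f N h x‖ ≤ ∑ n ∈ range N, ‖f n‖ := by
  unfold S
  refine (norm_sum_le _ _).trans (sum_le_sum fun n _ => ?_)
  split_ifs
  · exact le_rfl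
  · rw [norm_zero]; exact norm_nonneg _

lemma S_int (f : ℕ → ℂ) (N : ℕ) (h A B : ℝ) :
    IntervalIntegrable (fun x => ‖S f N h x‖ ^ 2) volume A B := by
  rw [intervalIntegrable_iff]
  refine Measure.integrableOn_of_bounded (M := (∑ n ∈ range N, ‖f n‖) ^ 2) measure_Ioc_lt_top.ne
    ((S_meas f N h).norm.pow_const 2).aestronglyMeasurable ?_
  refine Filter.Eventually.of_forall fun x => ?_
  rw [Real.norm_of_nonneg (by positivity)]
  exact pow_le_pow_left₀ (norm_nonneg _) (S_bound f N h x) 2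

lemma F_int (f : ℕ → ℂ) (N : ℕ) (a b A B : ℝ) :
    IntervalIntegrable (fun x => ‖F f N a b x‖ ^ 2) volume A B := by
  rw [intervalIntegrable_iff]
  refine Measure.integrableOn_of_bounded (M := (∑ n ∈ range N, ‖f n‖) ^ 2) measure_Ioc_lt_top.ne
    ((F_meas f N a b).norm.pow_const 2).aestronglyMeasurable ?_
  refine Filter.Eventually.of_forall fun x => ?_
  rw [Real.norm_of_nonneg (by positivity), F_eq_S]
  exact pow_le_pow_left₀ (norm_nonneg _) (S_bound f N _ _) 2

/-- shift of the windows -/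
lemma int_F (f : ℕ → ℂ) (N : ℕ) (a b A B : ℝ) :
    ∫ x in A..B, ‖F f N a b x‖ ^ 2 = W f N (A + (a + b) / 2) (B + (a + b) / 2) (b - a) := by
  unfold W
  rw [← intervalIntegral.integral_comp_add_right (fun x => ‖S f N (b - a) x‖ ^ 2)]
  apply intervalIntegral.integral_congr
  intro x _
  simp only [F_eq_S]

lemma W_nonneg (f : ℕ → ℂ) (N : ℕ) {A B : ℝ} (hAB : A ≤ B) (h : ℝ) : 0 ≤ W f N A B h :=
  intervalIntegral.integral_nonneg hAB fun x _ => by positivity

lemma W_add (f : ℕ → ℂ) (N : ℕ) (A B C h : ℝ) : W f N A B h + W f N B C h = W f N A C h :=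
  intervalIntegral.integral_add_adjacent_intervals (S_int f N h A B) (S_int f N h B C)

lemma ind_meas (h : ℝ) (n : ℕ) : Measurable (ind h n) := by
  unfold ind
  apply Measurable.ite _ measurable_const measurable_const
  apply measurableSet_lt _ measurable_const
  fun_prop

lemma ind_nonneg (h : ℝ) (n : ℕ) (x : ℝ) : 0 ≤ ind h n x := by unfold ind; split_ifs <;> norm_num

lemma ind_le (h : ℝ) (n : ℕ) (x : ℝ) : ind h n x ≤ 1 := by unfold ind; split_ifs <;> norm_num

lemma ind_mul_self (h : ℝ) (n : ℕ) (x : ℝ) : ind h n x * ind h n x = ind h n x := by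
  unfold ind; split_ifs <;> norm_num

lemma ind_int (h : ℝ) (n : ℕ) (A B : ℝ) : IntervalIntegrable (ind h n) volume A B := by
  rw [intervalIntegrable_iff]
  refine Measure.integrableOn_of_bounded (M := 1) measure_Ioc_lt_top.ne
    (ind_meas h n).aestronglyMeasurable ?_
  refine Filter.Eventually.of_forall fun x => ?_
  rw [Real.norm_of_nonneg (ind_nonneg h n x)]
  exact ind_le h n x

lemma ind_int2 (h : ℝ) (n m : ℕ) (A B : ℝ) :
    IntervalIntegrable (fun x => ind h n x * ind h m x) volume A B := by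
  rw [intervalIntegrable_iff]
  refine Measure.integrableOn_of_bounded (M := 1) measure_Ioc_lt_top.ne
    ((ind_meas h n).mul (ind_meas h m)).aestronglyMeasurable ?_
  refine Filter.Eventually.of_forall fun x => ?_
  rw [Real.norm_of_nonneg (mul_nonneg (ind_nonneg h n x) (ind_nonneg h m x))]
  exact mul_le_one₀ (ind_le h n x) (ind_nonneg h m x) (ind_le h m x)

lemma norm_sq_S (f : ℕ → ℂ) (N : ℕ) (h x : ℝ) : ‖S f N h x‖ ^ 2 =
    ∑ n ∈ range N, ∑ m ∈ range N, cf f n m * (ind h n x * ind h m x) := by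
  have h1 : S f N h x = ∑ n ∈ range N, f n * (ind h n x : ℂ) := by
    unfold S
    apply sum_congr rfl
    intro n _
    unfold ind
    split_ifs <;> simp
  have h2 : ((‖S f N h x‖ ^ 2 : ℝ) : ℂ) = S f N h x * (starRingEnd ℂ) (S f N h x) := by
    rw [Complex.mul_conj, Complex.normSq_eq_norm_sq]
  have h3 : ‖S f N h x‖ ^ 2 = (S f N h x * (starRingEnd ℂ) (S f N h x)).re := by
    rw [← h2, Complex.ofReal_re]
  rw [h3, h1, map_sum, sum_mul_sum, Complex.re_sum]
  apply sum_congr rfl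
  intro n _
  rw [Complex.re_sum]
  apply sum_congr rfl
  intro m _
  rw [map_mul, Complex.conj_ofReal]
  unfold cf
  have : f n * (ind h n x : ℂ) * ((starRingEnd ℂ) (f m) * (ind h m x : ℂ)) =
      f n * (starRingEnd ℂ) (f m) * (((ind h n x * ind h m x : ℝ)) : ℂ) := by
    push_cast
    ring
  rw [this, Complex.re_mul_ofReal]

lemma W_eq (f : ℕ → ℂ) (N : ℕ) (A B h : ℝ) : W f N A B h =
    ∑ n ∈ range N, ∑ m ∈ range N, cf f n m * w h A B n m := by
  unfold W w
  simp only [norm_sq_S]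
  rw [intervalIntegral.integral_finsetSum]
  · apply sum_congr rfl
    intro n _
    rw [intervalIntegral.integral_finsetSum]
    · apply sum_congr rfl
      intro m _
      rw [intervalIntegral.integral_const_mul]
    · intro m _
      exact (ind_int2 h n m A B).const_mul _
  · intro n _
    have h1 := IntervalIntegrable.sum (μ := volume) (a := A) (b := B) (range N)
      (f := fun m x => cf f n m * (ind h n x * ind h m x))
      fun m _ => (ind_int2 h n m A B).const_mul _
    have e : (fun x => ∑ m ∈ range N, cf f n m * (ind h n x * ind h m x)) =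
        ∑ m ∈ range N, fun x => cf f n m * (ind h n x * ind h m x) := by
      funext x
      rw [Finset.sum_apply]
    rw [e]
    exact h1

lemma w_nonneg {h A B : ℝ} (hAB : A ≤ B) (n m : ℕ) : 0 ≤ w h A B n m :=
  intervalIntegral.integral_nonneg hAB fun x _ => mul_nonneg (ind_nonneg h n x) (ind_nonneg h m x)

lemma ind_eq (h : ℝ) (n : ℕ) (x : ℝ) :
    ind h n x = (Set.Ioo ((n : ℝ) - h / 2) ((n : ℝ) + h / 2)).indicator (fun _ => (1 : ℝ)) x := by
  unfold ind
  by_cases h1 : |(n : ℝ) - x| < h / 2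
  · rw [if_pos h1, Set.indicator_of_mem]
    rw [abs_lt] at h1
    constructor <;> linarith [h1.1, h1.2]
  · rw [if_neg h1, Set.indicator_of_notMem]
    intro h2
    apply h1
    rw [abs_lt]
    constructor <;> linarith [h2.1, h2.2]

lemma int_ind (h : ℝ) {A B : ℝ} (hAB : A ≤ B) (n : ℕ) : ∫ x in A..B, ind h n x =
    volume.real (Set.Ioc A B ∩ Set.Ioo ((n : ℝ) - h / 2) ((n : ℝ) + h / 2)) := by
  simp only [ind_eq]
  rw [intervalIntegral.integral_of_le hAB, setIntegral_indicator measurableSet_Ioo]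
  simp

lemma w_self (h A B : ℝ) (n : ℕ) : w h A B n n = ∫ x in A..B, ind h n x := by
  unfold w
  simp only [ind_mul_self]

lemma w_le {h A B : ℝ} (hh : 0 ≤ h) (hAB : A ≤ B) (n m : ℕ) : w h A B n m ≤ h := by
  calc w h A B n m ≤ ∫ x in A..B, ind h n x := by
        apply intervalIntegral.integral_mono_on hAB (ind_int2 h n m A B) (ind_int h n A B)
        intro x _
        have := mul_le_mul_of_nonneg_left (ind_le h m x) (ind_nonneg h n x)
        rwa [mul_one] at this
    _ = volume.real (Set.Ioc A B ∩ Set.Ioo ((n : ℝ) - h / 2) ((n : ℝ) + h / 2)) := int_ind h hAB n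
    _ ≤ volume.real (Set.Ioo ((n : ℝ) - h / 2) ((n : ℝ) + h / 2)) :=
        measureReal_mono Set.inter_subset_right measure_Ioo_lt_top.ne
    _ = h := by
        rw [Real.volume_real_Ioo_of_le (by linarith)]
        ring

lemma w_full {h A B : ℝ} (hh : 0 ≤ h) (n : ℕ) (h1 : A ≤ n - h / 2) (h2 : (n : ℝ) + h / 2 ≤ B) :
    w h A B n n = h := by
  rw [w_self, int_ind h (by linarith) n]
  have : Set.Ioc A B ∩ Set.Ioo ((n : ℝ) - h / 2) ((n : ℝ) + h / 2) =
      Set.Ioo ((n : ℝ) - h / 2) ((n : ℝ) + h / 2) := by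
    apply Set.inter_eq_right.2
    intro x hx
    exact ⟨by linarith [hx.1], by linarith [hx.2]⟩
  rw [this, Real.volume_real_Ioo_of_le (by linarith)]
  ring

lemma w_zero {h A B : ℝ} {n m : ℕ} (h1 : h ≤ |(n : ℝ) - m|) : w h A B n m = 0 := by
  unfold w
  have : ∀ x : ℝ, ind h n x * ind h m x = 0 := by
    intro x
    unfold ind
    by_cases h2 : |(n : ℝ) - x| < h / 2
    · by_cases h3 : |(m : ℝ) - x| < h / 2
      · exfalso
        have h4 : |(n : ℝ) - m| ≤ |(n : ℝ) - x| + |(m : ℝ) - x| := by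
          have := abs_sub_le (n : ℝ) x m
          rwa [abs_sub_comm x (m : ℝ)] at this
        linarith
      · rw [if_neg h3, mul_zero]
    · rw [if_neg h2, zero_mul]
  simp only [this]
  exact intervalIntegral.integral_zero

lemma ind_out {h A B : ℝ} {n : ℕ} (h1 : (n : ℝ) + h / 2 ≤ A ∨ B + h / 2 ≤ n) {x : ℝ}
    (hx : x ∈ Set.Icc A B) : ind h n x = 0 := by
  unfold ind
  rw [if_neg]
  rw [abs_lt]
  rintro ⟨h2, h3⟩
  rcases h1 with h1 | h1
  · linarith [hx.1]
  · linarith [hx.2]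

lemma w_out {h A B : ℝ} (hAB : A ≤ B) {n : ℕ} (m : ℕ) (h1 : (n : ℝ) + h / 2 ≤ A ∨ B + h / 2 ≤ n) :
    w h A B n m = 0 := by
  unfold w
  rw [intervalIntegral.integral_congr (g := fun _ => (0 : ℝ))]
  · exact intervalIntegral.integral_zero
  · intro x hx
    rw [Set.uIcc_of_le hAB] at hx
    simp only [ind_out h1 hx, zero_mul]

lemma w_comm (h A B : ℝ) (n m : ℕ) : w h A B n m = w h A B m n := by
  unfold w
  simp only [mul_comm]

lemma card_near (A h : ℝ) (hh : 0 ≤ h) (N : ℕ) :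
    (((range N).filter fun n : ℕ => |(n : ℝ) - A| ≤ h / 2).card : ℝ) ≤ h + 1 := by
  classical
  by_cases hA : A + h / 2 < 0
  · have : ((range N).filter fun n : ℕ => |(n : ℝ) - A| ≤ h / 2) = ∅ := by
      rw [filter_eq_empty_iff]
      intro n _ h1
      rw [abs_le] at h1
      have : (0 : ℝ) ≤ n := Nat.cast_nonneg _
      linarith [h1.2]
    rw [this, card_empty]
    push_cast
    linarith
  push Not at hA
  have hsub : ((range N).filter fun n : ℕ => |(n : ℝ) - A| ≤ h / 2) ⊆
      Icc ⌈A - h / 2⌉₊ ⌊A + h / 2⌋₊ := by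
    intro n hn
    rw [mem_filter, abs_le] at hn
    rw [mem_Icc]
    constructor
    · apply Nat.ceil_le.2
      linarith [hn.2.1]
    · apply Nat.le_floor
      linarith [hn.2.2]
  have h1 := card_le_card hsub
  rw [Nat.card_Icc] at h1
  have h2 : (⌊A + h / 2⌋₊ : ℝ) ≤ A + h / 2 := Nat.floor_le hA
  have h3 : A - h / 2 ≤ (⌈A - h / 2⌉₊ : ℝ) := Nat.le_ceil _
  rcases Nat.lt_or_ge (⌊A + h / 2⌋₊ + 1) ⌈A - h / 2⌉₊ with h4 | h4
  · have h5 : ((range N).filter fun n : ℕ => |(n : ℝ) - A| ≤ h / 2).card = 0 := by omega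
    rw [h5]
    push_cast
    linarith
  · have h5 : (((range N).filter fun n : ℕ => |(n : ℝ) - A| ≤ h / 2).card : ℝ) ≤
        ((⌊A + h / 2⌋₊ + 1 - ⌈A - h / 2⌉₊ : ℕ) : ℝ) := by exact_mod_cast h1
    rw [Nat.cast_sub h4] at h5
    push_cast at h5
    linarith

/-- **The diagonal.** -/
theorem diag {h A B : ℝ} (hh : 0 ≤ h) (hA : 0 ≤ A) (hAB : A ≤ B) (N : ℕ) (hN : B + 1 ≤ N) :
    |∑ n ∈ range N, sq n * w h A B n n - (B - A) * h * (6 / Real.pi ^ 2)| ≤
      h * (6 * √B + 2 * h + 4) := by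
  classical
  have hB : 0 ≤ B := hA.trans hAB
  have h1 : ∑ m ∈ Ioc ⌊A⌋₊ ⌊B⌋₊, sq m = ∑ n ∈ range N, sq n * (if A < n ∧ (n : ℝ) ≤ B then 1 else 0) := by
    simp only [mul_ite, mul_one, mul_zero]
    rw [← sum_filter]
    apply sum_congr _ fun _ _ => rfl
    ext n
    rw [mem_Ioc, mem_filter, mem_range, Nat.floor_lt hA, Nat.le_floor_iff hB]
    constructor
    · rintro ⟨h2, h3⟩
      refine ⟨?_, h2, h3⟩
      have : (n : ℝ) < N := by linarith
      exact_mod_cast this
    · rintro ⟨-, h2, h3⟩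
      exact ⟨h2, h3⟩
  have h2 : |∑ n ∈ range N, sq n * w h A B n n - h * ∑ m ∈ Ioc ⌊A⌋₊ ⌊B⌋₊, sq m| ≤ h * (2 * (h + 1)) := by
    rw [h1, mul_sum, ← sum_sub_distrib]
    refine (abs_sum_le_sum_abs _ _).trans ?_
    calc ∑ n ∈ range N, |sq n * w h A B n n - h * (sq n * (if A < n ∧ (n : ℝ) ≤ B then 1 else 0))| ≤
        ∑ n ∈ range N, ((if |(n : ℝ) - A| ≤ h / 2 then h else 0) + (if |(n : ℝ) - B| ≤ h / 2 then h else 0)) := by
          apply sum_le_sum
          intro n _
          have e : sq n * w h A B n n - h * (sq n * (if A < n ∧ (n : ℝ) ≤ B then 1 else 0)) =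
              sq n * (w h A B n n - h * (if A < n ∧ (n : ℝ) ≤ B then 1 else 0)) := by ring
          rw [e, abs_mul, abs_of_nonneg (sq_nonneg n)]
          have hw0 := w_nonneg (h := h) hAB n n
          have hw1 := w_le hh hAB n n
          have h3 : |w h A B n n - h * (if A < n ∧ (n : ℝ) ≤ B then 1 else 0)| ≤ h := by
            split_ifs
            · rw [abs_le]; constructor <;> linarith
            · rw [abs_le]; constructor <;> linarith
          have h4 : sq n * |w h A B n n - h * (if A < n ∧ (n : ℝ) ≤ B then 1 else 0)| ≤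
              |w h A B n n - h * (if A < n ∧ (n : ℝ) ≤ B then 1 else 0)| := by
            have := mul_le_mul_of_nonneg_right (sq_le n) (abs_nonneg (w h A B n n - h * (if A < n ∧ (n : ℝ) ≤ B then 1 else 0)))
            rwa [one_mul] at this
          refine h4.trans ?_
          by_cases ha : |(n : ℝ) - A| ≤ h / 2
          · rw [if_pos ha]
            split_ifs at h3 ⊢ <;> linarith
          by_cases hb : |(n : ℝ) - B| ≤ h / 2
          · rw [if_pos hb, if_neg ha]
            linarith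
          rw [if_neg ha, if_neg hb, add_zero]
          rw [abs_le, not_and_or, not_le, not_le] at ha hb
          rcases ha with ha | ha
          · rw [w_out hAB n (Or.inl (by linarith)), if_neg (fun h => by linarith [h.1])]
            simp
          rcases hb with hb | hb
          · rw [w_full hh n (by linarith) (by linarith), if_pos ⟨by linarith, by linarith⟩]
            simp
          · rw [w_out hAB n (Or.inr (by linarith)), if_neg (fun h => by linarith [h.2])]
            simp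
      _ = h * ((range N).filter fun n : ℕ => |(n : ℝ) - A| ≤ h / 2).card +
          h * ((range N).filter fun n : ℕ => |(n : ℝ) - B| ≤ h / 2).card := by
          rw [sum_add_distrib, ← sum_filter, ← sum_filter, sum_const, sum_const]
          simp only [nsmul_eq_mul]
          ring
      _ ≤ h * (h + 1) + h * (h + 1) := by
          apply add_le_add
          · exact mul_le_mul_of_nonneg_left (card_near A h hh N) hh
          · exact mul_le_mul_of_nonneg_left (card_near B h hh N) hh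
      _ = h * (2 * (h + 1)) := by ring
  have h3 := sqf_real A B hA hAB
  have h4 : |h * ∑ m ∈ Ioc ⌊A⌋₊ ⌊B⌋₊, sq m - (B - A) * h * (6 / Real.pi ^ 2)| ≤ h * (6 * √B + 2) := by
    have : h * ∑ m ∈ Ioc ⌊A⌋₊ ⌊B⌋₊, sq m - (B - A) * h * (6 / Real.pi ^ 2) =
        h * (∑ m ∈ Ioc ⌊A⌋₊ ⌊B⌋₊, sq m - (B - A) * (6 / Real.pi ^ 2)) := by ring
    rw [this, abs_mul, abs_of_nonneg hh]
    exact mul_le_mul_of_nonneg_left h3 hh
  have h5 := abs_add_le (∑ n ∈ range N, sq n * w h A B n n - h * ∑ m ∈ Ioc ⌊A⌋₊ ⌊B⌋₊, sq m)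
    (h * ∑ m ∈ Ioc ⌊A⌋₊ ⌊B⌋₊, sq m - (B - A) * h * (6 / Real.pi ^ 2))
  have e : (∑ n ∈ range N, sq n * w h A B n n - h * ∑ m ∈ Ioc ⌊A⌋₊ ⌊B⌋₊, sq m) +
      (h * ∑ m ∈ Ioc ⌊A⌋₊ ⌊B⌋₊, sq m - (B - A) * h * (6 / Real.pi ^ 2)) =
      ∑ n ∈ range N, sq n * w h A B n n - (B - A) * h * (6 / Real.pi ^ 2) := by ring
  rw [e] at h5
  calc _ ≤ _ := h5
    _ ≤ h * (2 * (h + 1)) + h * (6 * √B + 2) := add_le_add h2 h4
    _ = h * (6 * √B + 2 * h + 4) := by ring

end Pool.Agent.H93GC
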