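import Mathlib
import Pool.Agent.H93GC.Win

/-!
# From a grid of lengths to all lengths (helper93)
-/

set_option autoImplicit false

namespace Pool.Agent.H93GC

open MeasureTheory Finset

/-- the constant `1 / ζ(2)` -/
noncomputable def cc : ℝ := 6 / Real.pi ^ 2

lemma cc_pos : 0 < cc := by unfold cc; positivity

lemma cc_le : cc ≤ 1 := by
  unfold cc
  rw [div_le_one (by positivity)]
  nlinarith [Real.pi_gt_three]

/-- the asymptotic formula on the grid `L` of lengths, for all right end points `B` -/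
def Grid (f : ℕ → ℂ) (N : ℕ) (L : Set ℝ) (κ X : ℝ) : Prop :=
  ∀ h ∈ L, ∀ B : ℝ, X / 2 ≤ B → B ≤ 8 * X →
    |W f N (X / 2) B h - (B - X / 2) * h * cc| ≤ κ * h * X

lemma grid_AB {f : ℕ → ℂ} {N : ℕ} {L : Set ℝ} {κ X : ℝ} (hG : Grid f N L κ X) {h A B : ℝ}
    (hL : h ∈ L) (hA : X / 2 ≤ A) (hAB : A ≤ B) (hB : B ≤ 8 * X) :
    |W f N A B h - (B - A) * h * cc| ≤ 2 * κ * h * X := by
  have h1 := hG h hL A hA (hAB.trans hB)
  have h2 := hG h hL B (hA.trans hAB) hB
  have h3 := W_add f N (X / 2) A B h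
  rw [abs_le] at h1 h2 ⊢
  constructor <;> linarith

lemma grid_le {f : ℕ → ℂ} {N : ℕ} {L : Set ℝ} {κ X : ℝ} (hG : Grid f N L κ X) (hκ : κ ≤ 1)
    (hX : 0 ≤ X) {h A B : ℝ} (hh : 0 ≤ h)
    (hL : h ∈ L) (hA : X / 2 ≤ A) (hAB : A ≤ B) (hB : B ≤ 8 * X) :
    W f N A B h ≤ 10 * h * X := by
  have h1 := abs_le.1 (grid_AB hG hL hA hAB hB)
  have h2 : (B - A) * h * cc ≤ 8 * X * h := by
    have h3 : (B - A) * h ≤ 8 * X * h := mul_le_mul_of_nonneg_right (by linarith) hh
    have h4 : 0 ≤ (B - A) * h := mul_nonneg (by linarith) hh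
    calc (B - A) * h * cc ≤ (B - A) * h * 1 := mul_le_mul_of_nonneg_left cc_le h4
      _ ≤ 8 * X * h := by rw [mul_one]; exact h3
  have h5 : 2 * κ * h * X ≤ 2 * 1 * h * X := by
    apply mul_le_mul_of_nonneg_right _ hX
    apply mul_le_mul_of_nonneg_right _ hh
    linarith
  linarith [h1.2]

lemma sq_norm_add (z y : ℂ) {t : ℝ} (ht : 0 < t) :
    ‖z + y‖ ^ 2 ≤ (1 + t) * ‖z‖ ^ 2 + (1 + 1 / t) * ‖y‖ ^ 2 := by
  have h1 : ‖z + y‖ ≤ ‖z‖ + ‖y‖ := norm_add_le z y
  have h2 : ‖z + y‖ ^ 2 ≤ (‖z‖ + ‖y‖) ^ 2 := pow_le_pow_left₀ (norm_nonneg _) h1 2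
  have h3 : 2 * (‖z‖ * ‖y‖) ≤ t * ‖z‖ ^ 2 + 1 / t * ‖y‖ ^ 2 := by
    have h4 : 0 ≤ (t * ‖z‖ - ‖y‖) ^ 2 / t := by positivity
    have h5 : (t * ‖z‖ - ‖y‖) ^ 2 / t = t * ‖z‖ ^ 2 + 1 / t * ‖y‖ ^ 2 - 2 * (‖z‖ * ‖y‖) := by
      field_simp
      ring
    linarith
  nlinarith

/-- triangle inequality for the mean squares -/
lemma int_add {f : ℕ → ℂ} {N : ℕ} {a b c A B t : ℝ} (hab : a ≤ b) (hbc : b ≤ c) (hAB : A ≤ B)
    (ht : 0 < t) : ∫ x in A..B, ‖F f N a c x‖ ^ 2 ≤
      (1 + t) * (∫ x in A..B, ‖F f N a b x‖ ^ 2) + (1 + 1 / t) * (∫ x in A..B, ‖F f N b c x‖ ^ 2) := by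
  rw [← intervalIntegral.integral_const_mul, ← intervalIntegral.integral_const_mul,
    ← intervalIntegral.integral_add ((F_int f N a b A B).const_mul _) ((F_int f N b c A B).const_mul _)]
  apply intervalIntegral.integral_mono_ae hAB (F_int f N a c A B)
    (((F_int f N a b A B).const_mul _).add ((F_int f N b c A B).const_mul _))
  filter_upwards [F_add_ae f N hab hbc] with x hx
  rw [hx]
  exact sq_norm_add _ _ ht

/-- short windows contain at most one integer -/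
lemma short {f : ℕ → ℂ} (hf : ∀ n, ‖f n‖ ≤ 1) {N : ℕ} {h x : ℝ} (hh : h ≤ 1) :
    ‖S f N h x‖ ^ 2 ≤ ∑ n ∈ range N, ind h n x := by
  classical
  by_cases h1 : ∃ n ∈ range N, |(n : ℝ) - x| < h / 2
  · obtain ⟨n, hn, h2⟩ := h1
    have h3 : S f N h x = f n := by
      unfold S
      rw [sum_eq_single_of_mem n hn]
      · rw [if_pos h2]
      · intro m _ hmn
        rw [if_neg]
        intro h4
        apply hmn
        have h5 : |(m : ℝ) - n| < 1 := by
          have := abs_sub_le (m : ℝ) x n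
          rw [abs_sub_comm x (n : ℝ)] at this
          linarith
        have h6 : |((m : ℤ) - n : ℤ)| < 1 := by exact_mod_cast h5
        have h7 := Int.abs_lt_one_iff.1 h6
        omega
    rw [h3]
    calc ‖f n‖ ^ 2 ≤ 1 := by
          have := hf n
          have := norm_nonneg (f n)
          nlinarith
      _ = ind h n x := by unfold ind; rw [if_pos h2]
      _ ≤ ∑ n ∈ range N, ind h n x := single_le_sum (fun m _ => ind_nonneg h m x) hn
  · push Not at h1
    have h3 : S f N h x = 0 := by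
      unfold S
      apply sum_eq_zero
      intro n hn
      rw [if_neg (not_lt.2 (h1 n hn))]
    rw [h3, norm_zero]
    calc (0 : ℝ) ^ 2 = 0 := by norm_num
      _ ≤ _ := sum_nonneg fun m _ => ind_nonneg h m x

lemma W_short {f : ℕ → ℂ} (hf : ∀ n, ‖f n‖ ≤ 1) {N : ℕ} {h A B : ℝ} (h0 : 0 ≤ h) (hh : h ≤ 1)
    (hAB : A ≤ B) : W f N A B h ≤ h * (B - A + h + 1) := by
  classical
  unfold W
  calc ∫ x in A..B, ‖S f N h x‖ ^ 2 ≤ ∫ x in A..B, ∑ n ∈ range N, ind h n x := by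
        apply intervalIntegral.integral_mono_on hAB (S_int f N h A B)
        · have h1 := IntervalIntegrable.sum (μ := volume) (a := A) (b := B) (range N)
            (f := fun n x => ind h n x) fun n _ => ind_int h n A B
          have e : (fun x => ∑ n ∈ range N, ind h n x) = ∑ n ∈ range N, fun x => ind h n x := by
            funext x
            rw [Finset.sum_apply]
          rw [e]
          exact h1
        · intro x _
          exact short hf hh
    _ = ∑ n ∈ range N, ∫ x in A..B, ind h n x :=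
        intervalIntegral.integral_finsetSum fun n _ => ind_int h n A B
    _ ≤ ∑ n ∈ range N, (if |(n : ℝ) - (A + B) / 2| ≤ (B - A + h) / 2 then h else 0) := by
        apply sum_le_sum
        intro n _
        rw [← w_self]
        split_ifs with h1
        · exact w_le h0 hAB n n
        · rw [abs_le, not_and_or, not_le, not_le] at h1
          apply le_of_eq
          apply w_out hAB n
          rcases h1 with h1 | h1
          · left; linarith
          · right; linarith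
    _ = ((range N).filter fun n : ℕ => |(n : ℝ) - (A + B) / 2| ≤ (B - A + h) / 2).card * h := by
        rw [← sum_filter, sum_const, nsmul_eq_mul]
    _ ≤ (B - A + h + 1) * h := by
        apply mul_le_mul_of_nonneg_right _ h0
        exact card_near ((A + B) / 2) (B - A + h) (by linarith) N
    _ = h * (B - A + h + 1) := mul_comm _ _

/-- windows of all lengths below a power of two -/
lemma all_short {f : ℕ → ℂ} (hf : ∀ n, ‖f n‖ ≤ 1) {N : ℕ} {L : Set ℝ} {κ X Hm : ℝ}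
    (hG : Grid f N L κ X) (hκ : κ ≤ 1) (hX : 1 ≤ X)
    (hL : ∀ l : ℕ, (2 : ℝ) ^ l ≤ Hm → (2 : ℝ) ^ l ∈ L) (l : ℕ) :
    ∀ a b : ℝ, -(X / 4) ≤ a → a ≤ b → b ≤ X / 4 → b - a < 2 ^ l → b - a ≤ Hm →
      ∫ x in X..4 * X, ‖F f N a b x‖ ^ 2 ≤ 60 * 2 ^ l * X := by
  induction l with
  | zero =>
    intro a b h1 h2 h3 h4 _
    rw [int_F]
    rw [pow_zero] at h4 ⊢
    refine (W_short hf (by linarith) (by linarith) (by linarith)).trans ?_
    have h5 : 4 * X + (a + b) / 2 - (X + (a + b) / 2) + (b - a) + 1 ≤ 5 * X := by linarith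
    calc (b - a) * (4 * X + (a + b) / 2 - (X + (a + b) / 2) + (b - a) + 1) ≤ 1 * (5 * X) :=
          mul_le_mul h4.le h5 (by linarith) (by norm_num)
      _ ≤ 60 * 1 * X := by linarith
  | succ l ih =>
    intro a b h1 h2 h3 h4 h6
    have h2l : (0 : ℝ) < 2 ^ l := by positivity
    rw [pow_succ] at h4 ⊢
    rcases lt_or_ge (b - a) (2 ^ l) with h7 | h7
    · refine (ih a b h1 h2 h3 h7 h6).trans ?_
      have : 0 ≤ (2 : ℝ) ^ l * X := by positivity
      nlinarith
    · have h8 := int_add (f := f) (N := N) (a := a) (b := a + 2 ^ l) (c := b) (A := X) (B := 4 * X)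
        (t := 2) (by linarith) (by linarith) (by linarith) (by norm_num)
      have h9 : ∫ x in X..4 * X, ‖F f N a (a + 2 ^ l) x‖ ^ 2 ≤ 10 * 2 ^ l * X := by
        rw [int_F]
        have e : a + 2 ^ l - a = (2 : ℝ) ^ l := by ring
        rw [e]
        exact grid_le hG hκ (by linarith) h2l.le (hL l (h7.trans h6)) (by linarith) (by linarith)
          (by linarith)
      have h10 := ih (a + 2 ^ l) b (by linarith) (by linarith) h3 (by linarith) (by linarith)
      have hX0 : 0 ≤ (2 : ℝ) ^ l * X := by positivity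
      nlinarith

lemma exists_pow {v : ℝ} (hv : 1 ≤ v) : ∃ l : ℕ, v < 2 ^ l ∧ (2 : ℝ) ^ l ≤ 2 * v := by
  obtain ⟨n, hn⟩ := pow_unbounded_of_one_lt v (one_lt_two (α := ℝ))
  classical
  have hex : ∃ n : ℕ, v < 2 ^ n := ⟨n, hn⟩
  obtain ⟨l, hl⟩ : ∃ l, l = Nat.find hex := ⟨_, rfl⟩
  have h1 : v < 2 ^ l := by rw [hl]; exact Nat.find_spec hex
  refine ⟨l, h1, ?_⟩
  rcases Nat.eq_zero_or_pos l with h2 | h2
  · rw [h2, pow_zero] at h1
    linarith
  · have h3 : ¬ v < 2 ^ (l - 1) := Nat.find_min hex (by omega)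
    have h4 : (2 : ℝ) ^ l = 2 * 2 ^ (l - 1) := by
      rw [← pow_succ']
      congr 1
      omega
    rw [h4]
    linarith

/-- windows of all lengths -/
lemma all_le {f : ℕ → ℂ} (hf : ∀ n, ‖f n‖ ≤ 1) {N : ℕ} {L : Set ℝ} {κ X Hm : ℝ}
    (hG : Grid f N L κ X) (hκ : κ ≤ 1) (hX : 1 ≤ X)
    (hL : ∀ l : ℕ, (2 : ℝ) ^ l ≤ Hm → (2 : ℝ) ^ l ∈ L) {a b : ℝ} (h1 : -(X / 4) ≤ a) (h2 : a ≤ b)
    (h3 : b ≤ X / 4) (h4 : b - a ≤ Hm) :
    ∫ x in X..4 * X, ‖F f N a b x‖ ^ 2 ≤ 120 * (b - a) * X := by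
  rcases lt_or_ge (b - a) 1 with h5 | h5
  · rw [int_F]
    refine (W_short hf (by linarith) (by linarith) (by linarith)).trans ?_
    have h6 : 4 * X + (a + b) / 2 - (X + (a + b) / 2) + (b - a) + 1 ≤ 5 * X := by linarith
    calc (b - a) * (4 * X + (a + b) / 2 - (X + (a + b) / 2) + (b - a) + 1) ≤ (b - a) * (5 * X) :=
          mul_le_mul_of_nonneg_left h6 (by linarith)
      _ ≤ 120 * (b - a) * X := by
          have : 0 ≤ (b - a) * X := mul_nonneg (by linarith) (by linarith)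
          nlinarith
  · obtain ⟨l, h6, h7⟩ := exists_pow h5
    refine (all_short hf hG hκ hX hL l a b h1 h2 h3 h6 h4).trans ?_
    have : 0 ≤ (2 * (b - a) - 2 ^ l) * X := mul_nonneg (by linarith) (by linarith)
    nlinarith

lemma W_sub_le {f : ℕ → ℂ} {N : ℕ} {a b : ℝ} {X X' : ℝ} (hX : 0 ≤ X) (h1 : X ≤ X')
    (h2 : X' ≤ 2 * X) : ∫ x in X'..2 * X', ‖F f N a b x‖ ^ 2 ≤ ∫ x in X..4 * X, ‖F f N a b x‖ ^ 2 :=
  intervalIntegral.integral_mono_interval h1 (by linarith) (by linarith)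
    (Filter.Eventually.of_forall fun x => by positivity) (F_int f N a b X (4 * X))

/-- **From the grid to all lengths.** -/
theorem grid_all {f : ℕ → ℂ} (hf : ∀ n, ‖f n‖ ≤ 1) {N : ℕ} {L : Set ℝ} {κ X Hm δ : ℝ}
    (hG : Grid f N L κ X) (hκ0 : 0 ≤ κ) (hκ : κ ≤ 1) (hX : 1 ≤ X) (hHm : Hm ≤ X / 4) (hδ : 0 < δ)
    (hδ1 : δ ≤ 1)
    (hL : ∀ l : ℕ, (2 : ℝ) ^ l ≤ Hm → (2 : ℝ) ^ l ∈ L)
    {H X' : ℝ} (hH : H ≤ Hm) {h₀ : ℝ} (hh₀ : h₀ ∈ L) (h00 : 0 < h₀) (h01 : h₀ ≤ H)
    (h02 : H ≤ (1 + δ ^ 2) * h₀) (hX1 : X ≤ X') (hX2 : X' ≤ 2 * X) :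
    |W f N X' (2 * X') H - X' * H * cc| ≤ 1000 * (κ + δ) * H * X := by
  have hH0 : 0 < H := h00.trans_le h01
  obtain ⟨v, hv⟩ : ∃ v, v = (H - h₀) / 2 := ⟨_, rfl⟩
  have hv0 : 0 ≤ v := by rw [hv]; linarith
  have hv1 : 2 * v ≤ δ ^ 2 * H := by
    rw [hv]
    have : δ ^ 2 * h₀ ≤ δ ^ 2 * H := mul_le_mul_of_nonneg_left h01 (by positivity)
    linarith
  have hX0 : 0 < X := by linarith
  -- the mean squares over `[X', 2 X']`
  obtain ⟨w0, hw0⟩ : ∃ w0, w0 = W f N X' (2 * X') h₀ := ⟨_, rfl⟩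
  obtain ⟨w1, hw1⟩ : ∃ w1, w1 = W f N X' (2 * X') H := ⟨_, rfl⟩
  have e0 : w0 = ∫ x in X'..2 * X', ‖F f N (-(h₀ / 2)) (h₀ / 2) x‖ ^ 2 := by
    rw [hw0]
    unfold W
    simp only [S_eq_F]
  have e1 : w1 = ∫ x in X'..2 * X', ‖F f N (-(H / 2)) (H / 2) x‖ ^ 2 := by
    rw [hw1]
    unfold W
    simp only [S_eq_F]
  -- the remainder
  obtain ⟨R, hR⟩ : ∃ R : ℝ → ℂ, R = fun x => F f N (-(H / 2)) (-(h₀ / 2)) x + F f N (h₀ / 2) (H / 2) x :=
    ⟨_, rfl⟩
  have hRm : Measurable R := by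
    rw [hR]
    exact (F_meas f N _ _).add (F_meas f N _ _)
  have hRi : IntervalIntegrable (fun x => ‖R x‖ ^ 2) volume X' (2 * X') := by
    rw [intervalIntegrable_iff]
    refine Measure.integrableOn_of_bounded (M := (2 * ∑ n ∈ range N, ‖f n‖) ^ 2)
      measure_Ioc_lt_top.ne (hRm.norm.pow_const 2).aestronglyMeasurable ?_
    refine Filter.Eventually.of_forall fun x => ?_
    rw [Real.norm_of_nonneg (by positivity), hR]
    simp only [F_eq_S]
    refine pow_le_pow_left₀ (norm_nonneg _) ?_ 2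
    refine (norm_add_le _ _).trans ?_
    have h1 := S_bound f N (-(h₀ / 2) - -(H / 2)) (x + (-(H / 2) + -(h₀ / 2)) / 2)
    have h2 := S_bound f N (H / 2 - h₀ / 2) (x + (h₀ / 2 + H / 2) / 2)
    linarith
  have hRle : ∫ x in X'..2 * X', ‖R x‖ ^ 2 ≤ 240 * δ ^ 2 * H * X := by
    have h1 : ∫ x in X'..2 * X', ‖R x‖ ^ 2 ≤
        2 * (∫ x in X'..2 * X', ‖F f N (-(H / 2)) (-(h₀ / 2)) x‖ ^ 2) +
        2 * (∫ x in X'..2 * X', ‖F f N (h₀ / 2) (H / 2) x‖ ^ 2) := by
      rw [← intervalIntegral.integral_const_mul, ← intervalIntegral.integral_const_mul,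
        ← intervalIntegral.integral_add ((F_int f N _ _ _ _).const_mul _) ((F_int f N _ _ _ _).const_mul _)]
      apply intervalIntegral.integral_mono_on (by linarith) hRi
        (((F_int f N _ _ _ _).const_mul _).add ((F_int f N _ _ _ _).const_mul _))
      intro x _
      rw [hR]
      have := sq_norm_add (F f N (-(H / 2)) (-(h₀ / 2)) x) (F f N (h₀ / 2) (H / 2) x)
        (t := 1) one_pos
      norm_num at this ⊢
      exact this
    have h2 := all_le hf hG hκ hX hL (a := -(H / 2)) (b := -(h₀ / 2)) (by linarith) (by linarith)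
      (by linarith) (by linarith)
    have h3 := all_le hf hG hκ hX hL (a := h₀ / 2) (b := H / 2) (by linarith) (by linarith)
      (by linarith) (by linarith)
    have h4 := W_sub_le (f := f) (N := N) (a := -(H / 2)) (b := -(h₀ / 2)) hX0.le hX1 hX2
    have h5 := W_sub_le (f := f) (N := N) (a := h₀ / 2) (b := H / 2) hX0.le hX1 hX2
    have e2 : -(h₀ / 2) - -(H / 2) = v := by rw [hv]; ring
    have e3 : H / 2 - h₀ / 2 = v := by rw [hv]; ring
    rw [e2] at h2
    rw [e3] at h3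
    have h6 : v * X ≤ δ ^ 2 * H * X / 2 := by
      have := mul_le_mul_of_nonneg_right hv1 hX0.le
      linarith
    linarith
  have hae : ∀ᵐ x : ℝ, F f N (-(H / 2)) (H / 2) x = F f N (-(h₀ / 2)) (h₀ / 2) x + R x := by
    filter_upwards [F_add_ae f N (a := -(H / 2)) (b := -(h₀ / 2)) (c := H / 2) (by linarith) (by linarith),
      F_add_ae f N (a := -(h₀ / 2)) (b := h₀ / 2) (c := H / 2) (by linarith) (by linarith)] with x h1 h2
    rw [h1, h2, hR]
    ring
  have hup : w1 ≤ (1 + δ) * w0 + (1 + 1 / δ) * ∫ x in X'..2 * X', ‖R x‖ ^ 2 := by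
    rw [e0, e1, ← intervalIntegral.integral_const_mul, ← intervalIntegral.integral_const_mul,
      ← intervalIntegral.integral_add ((F_int f N _ _ _ _).const_mul _) (hRi.const_mul _)]
    apply intervalIntegral.integral_mono_ae (by linarith) (F_int f N _ _ _ _)
      (((F_int f N _ _ _ _).const_mul _).add (hRi.const_mul _))
    filter_upwards [hae] with x hx
    rw [hx]
    exact sq_norm_add _ _ hδ
  have hlo : w0 ≤ (1 + δ) * w1 + (1 + 1 / δ) * ∫ x in X'..2 * X', ‖R x‖ ^ 2 := by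
    rw [e0, e1, ← intervalIntegral.integral_const_mul, ← intervalIntegral.integral_const_mul,
      ← intervalIntegral.integral_add ((F_int f N _ _ _ _).const_mul _) (hRi.const_mul _)]
    apply intervalIntegral.integral_mono_ae (by linarith) (F_int f N _ _ _ _)
      (((F_int f N _ _ _ _).const_mul _).add (hRi.const_mul _))
    filter_upwards [hae] with x hx
    have e : F f N (-(h₀ / 2)) (h₀ / 2) x = F f N (-(H / 2)) (H / 2) x + (-R x) := by
      rw [hx]; ring
    rw [e]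
    have := sq_norm_add (F f N (-(H / 2)) (H / 2) x) (-R x) hδ
    rwa [norm_neg] at this
  have hHX : 0 < H * X := mul_pos hH0 hX0
  have hRr : (1 + 1 / δ) * ∫ x in X'..2 * X', ‖R x‖ ^ 2 ≤ 480 * δ * (H * X) := by
    have h1 : (1 + 1 / δ) ≤ 2 / δ := by
      have h2 : 1 ≤ 1 / δ := by rw [le_div_iff₀ hδ]; linarith
      have h3 : 2 / δ = 1 / δ + 1 / δ := by ring
      linarith
    have h0 : 0 ≤ ∫ x in X'..2 * X', ‖R x‖ ^ 2 :=
      intervalIntegral.integral_nonneg (by linarith) fun x _ => by positivity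
    calc (1 + 1 / δ) * ∫ x in X'..2 * X', ‖R x‖ ^ 2 ≤ 2 / δ * (240 * δ ^ 2 * H * X) :=
          mul_le_mul h1 hRle h0 (by positivity)
      _ = 480 * δ * (H * X) := by field_simp; ring
  have hg := abs_le.1 (grid_AB hG hh₀ (A := X') (B := 2 * X') (by linarith) (by linarith) (by linarith))
  rw [← hw0] at hg
  have hgle := grid_le hG hκ hX0.le h00.le hh₀ (A := X') (B := 2 * X') (by linarith) (by linarith) (by linarith)
  rw [← hw0] at hgle
  have hcc := cc_le
  have hcc0 := cc_pos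
  -- abbreviations
  have hXh : 2 * X' - X' = X' := by ring
  rw [hXh] at hg
  have hk1 : 2 * κ * h₀ * X ≤ 2 * κ * (H * X) := by
    have : h₀ * X ≤ H * X := mul_le_mul_of_nonneg_right h01 hX0.le
    nlinarith
  have hk2 : X' * h₀ * cc ≤ X' * H * cc := by
    apply mul_le_mul_of_nonneg_right _ hcc0.le
    exact mul_le_mul_of_nonneg_left h01 (by linarith)
  have hk3 : X' * H * cc - X' * h₀ * cc ≤ 2 * δ * (H * X) := by
    have h1 : X' * H * cc - X' * h₀ * cc = X' * (H - h₀) * cc := by ring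
    have h2 : H - h₀ ≤ δ * H := by
      have : δ ^ 2 * H ≤ δ * H := by
        apply mul_le_mul_of_nonneg_right _ hH0.le
        nlinarith
      rw [hv] at hv1
      linarith
    rw [h1]
    have h3 : 0 ≤ H - h₀ := by linarith
    calc X' * (H - h₀) * cc ≤ X' * (H - h₀) * 1 :=
          mul_le_mul_of_nonneg_left hcc (mul_nonneg (by linarith) h3)
      _ ≤ (2 * X) * (δ * H) := by
          rw [mul_one]
          exact mul_le_mul hX2 h2 h3 (by linarith)
      _ = 2 * δ * (H * X) := by ring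
  have hw00 : 0 ≤ w0 := by rw [hw0]; exact W_nonneg f N (by linarith) _
  have hw10 : 0 ≤ w1 := by rw [hw1]; exact W_nonneg f N (by linarith) _
  have hgle2 : w0 ≤ 10 * (H * X) := by
    have : h₀ * X ≤ H * X := mul_le_mul_of_nonneg_right h01 hX0.le
    linarith
  have hw1le : w1 ≤ 20 * (H * X) + 480 * (H * X) := by
    have h1 : (1 + δ) * w0 ≤ 2 * (10 * (H * X)) :=
      mul_le_mul (by linarith) hgle2 hw00 (by norm_num)
    have h2 : 480 * δ * (H * X) ≤ 480 * 1 * (H * X) := by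
      apply mul_le_mul_of_nonneg_right _ hHX.le
      linarith
    linarith
  have hδw0 : δ * w0 ≤ δ * (10 * (H * X)) := mul_le_mul_of_nonneg_left hgle2 hδ.le
  have hδw1 : δ * w1 ≤ δ * (500 * (H * X)) := mul_le_mul_of_nonneg_left (by linarith) hδ.le
  have hκX : 0 ≤ κ * (H * X) := mul_nonneg hκ0 hHX.le
  have hδX : 0 ≤ δ * (H * X) := mul_nonneg hδ.le hHX.le
  rw [← hw1, abs_le]
  constructor
  · nlinarith [hg.1]
  · nlinarith [hg.2]

end Pool.Agent.H93GC
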