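import Mathlib
import Pool.Agent.H93GC.Det

/-!
# The finite grid (helper93)
-/

set_option autoImplicit false

namespace Pool.Agent.H93GC

open MeasureTheory Finset

/-- the off-diagonal part of the mean square -/
noncomputable def Off (f : ℕ → ℂ) (N : ℕ) (A B h : ℝ) : ℝ :=
  ∑ n ∈ range N, ∑ m ∈ range N, if n = m then 0 else cf f n m * w h A B n m

/-- the grid of lengths -/
noncomputable def gh (J l i : ℕ) : ℝ := 2 ^ l * (1 + (i : ℝ) / J)

/-- the grid of lengths up to `Hm` -/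
def LL (J : ℕ) (Hm : ℝ) : Set ℝ := {h | ∃ l i : ℕ, i < J ∧ h = gh J l i ∧ h ≤ Hm}

lemma gh_pos (J l i : ℕ) : 0 < gh J l i := by unfold gh; positivity

lemma W_off {f : ℕ → ℂ} (hf : ∀ n, cf f n n = sq n) (N : ℕ) (A B h : ℝ) :
    W f N A B h = ∑ n ∈ range N, sq n * w h A B n n + Off f N A B h := by
  unfold Off
  rw [W_eq, ← sum_add_distrib]
  apply sum_congr rfl
  intro n hn
  have h1 : sq n * w h A B n n = ∑ m ∈ range N, if n = m then cf f n m * w h A B n m else 0 := by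
    rw [sum_ite_eq, if_pos hn, hf]
  rw [h1, ← sum_add_distrib]
  apply sum_congr rfl
  intro m _
  split_ifs <;> simp

lemma W_mono (f : ℕ → ℂ) (N : ℕ) {A B B' : ℝ} (hBB : B ≤ B') (h : ℝ) :
    W f N A B h ≤ W f N A B' h := by
  have h1 := W_add f N A B B' h
  have h2 := W_nonneg f N hBB h
  linarith

/-- **From the finite grid to `Grid`.** -/
theorem grid_of_fin {f : ℕ → ℂ} (hf : ∀ n, cf f n n = sq n) {N J : ℕ} {X Hm κ₀ : ℝ} (hJ : 2 ≤ J)
    (hX : 1 ≤ X) (hN : 9 * X + 1 ≤ N) (hκ₀ : 0 ≤ κ₀)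
    (hO : ∀ l i j : ℕ, i < J → gh J l i ≤ Hm → j ≤ 8 * J →
      |Off f N (X / 2) (X / 2 + j * (X / J)) (gh J l i)| ≤ κ₀ * gh J l i * X) :
    Grid f N (LL J Hm) (κ₀ + 1 / J + (6 * √(9 * X) + 2 * Hm + 4) / X) X := by
  intro h hh B hB1 hB2
  obtain ⟨l, i, hi, hhe, hhm⟩ := hh
  have h0 : 0 < h := by rw [hhe]; exact gh_pos J l i
  have hX0 : 0 < X := by linarith
  have hJ0 : (0 : ℝ) < J := by exact_mod_cast (by omega : 0 < J)
  have hJ2 : (2 : ℝ) ≤ J := by exact_mod_cast hJ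
  -- the value at the grid points
  have hgrid : ∀ j : ℕ, j ≤ 8 * J → X / 2 + j * (X / J) ≤ 9 * X →
      |W f N (X / 2) (X / 2 + j * (X / J)) h - (j * (X / J)) * h * cc| ≤
        κ₀ * h * X + h * (6 * √(9 * X) + 2 * Hm + 4) := by
    intro j hj hjB
    have hjX : 0 ≤ (j : ℝ) * (X / J) := by positivity
    have h1 := hO l i j hi (hhe ▸ hhm) hj
    rw [← hhe] at h1
    have h2 := diag (h := h) (A := X / 2) (B := X / 2 + j * (X / J)) h0.le (by linarith) (by linarith) N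
      (by linarith)
    have h3 : √(X / 2 + j * (X / J)) ≤ √(9 * X) := Real.sqrt_le_sqrt hjB
    have h4 : h * (6 * √(X / 2 + j * (X / J)) + 2 * h + 4) ≤ h * (6 * √(9 * X) + 2 * Hm + 4) := by
      apply mul_le_mul_of_nonneg_left _ h0.le
      linarith
    rw [W_off hf]
    have e : (X / 2 + j * (X / J) - X / 2) * h * (6 / Real.pi ^ 2) = (j * (X / J)) * h * cc := by
      unfold cc
      ring
    rw [e] at h2
    rw [abs_le] at h1 h2 ⊢
    constructor <;> linarith [h1.1, h1.2, h2.1, h2.2]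
  -- the place of `B`
  obtain ⟨j, hj⟩ : ∃ j, j = ⌊(B - X / 2) * J / X⌋₊ := ⟨_, rfl⟩
  have hq0 : 0 ≤ (B - X / 2) * J / X := by
    apply div_nonneg (mul_nonneg (by linarith) hJ0.le) hX0.le
  have hj1 : (j : ℝ) ≤ (B - X / 2) * J / X := by rw [hj]; exact Nat.floor_le hq0
  have hj2 : (B - X / 2) * J / X < j + 1 := by rw [hj]; exact Nat.lt_floor_add_one _
  have hj1' : (j : ℝ) * (X / J) ≤ B - X / 2 := by
    rw [le_div_iff₀ hX0] at hj1
    rw [mul_div_assoc', div_le_iff₀ hJ0]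
    exact hj1
  have hj2' : B - X / 2 < ((j + 1 : ℕ) : ℝ) * (X / J) := by
    rw [div_lt_iff₀ hX0] at hj2
    rw [mul_div_assoc', lt_div_iff₀ hJ0]
    push_cast
    exact hj2
  have hjJ : (j : ℝ) + 1 ≤ 8 * J := by
    have h1 : (B - X / 2) * J / X ≤ 15 / 2 * J := by
      rw [div_le_iff₀ hX0]
      have : (B - X / 2) * J ≤ (15 / 2 * X) * J := mul_le_mul_of_nonneg_right (by linarith) hJ0.le
      linarith
    linarith
  have hjJn : j + 1 ≤ 8 * J := by exact_mod_cast hjJ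
  have hXJ : (((j + 1 : ℕ) : ℝ)) * (X / J) ≤ 15 / 2 * X + X / J := by
    have : (((j + 1 : ℕ) : ℝ)) * (X / J) = j * (X / J) + X / J := by push_cast; ring
    linarith
  have hXJ2 : X / J ≤ X / 2 := by
    apply div_le_div_of_nonneg_left hX0.le (by norm_num) hJ2
  have hg1 := abs_le.1 (hgrid j (by omega) (by linarith))
  have hg2 := abs_le.1 (hgrid (j + 1) hjJn (by linarith))
  have hm1 := W_mono f N (A := X / 2) (B := X / 2 + j * (X / J)) (B' := B) (by linarith) h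
  have hm2 := W_mono f N (A := X / 2) (B := B) (B' := X / 2 + ((j + 1 : ℕ) : ℝ) * (X / J)) (by linarith) h
  have hcc0 := cc_pos
  have hcc1 := cc_le
  have hhc : 0 ≤ h * cc := by positivity
  have hhc1 : h * cc ≤ h := by
    have := mul_le_mul_of_nonneg_left hcc1 h0.le
    rwa [mul_one] at this
  have hd1 : (B - X / 2) * h * cc - j * (X / J) * h * cc ≤ X / J * h := by
    have h1 : B - X / 2 - j * (X / J) ≤ X / J := by
      have : (((j + 1 : ℕ) : ℝ)) * (X / J) = j * (X / J) + X / J := by push_cast; ring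
      linarith
    have h2 : 0 ≤ B - X / 2 - j * (X / J) := by linarith
    calc (B - X / 2) * h * cc - j * (X / J) * h * cc = (B - X / 2 - j * (X / J)) * (h * cc) := by ring
      _ ≤ X / J * h := mul_le_mul h1 hhc1 hhc (by positivity)
  have hd2 : ((j + 1 : ℕ) : ℝ) * (X / J) * h * cc - (B - X / 2) * h * cc ≤ X / J * h := by
    have h1 : ((j + 1 : ℕ) : ℝ) * (X / J) - (B - X / 2) ≤ X / J := by
      have : (((j + 1 : ℕ) : ℝ)) * (X / J) = j * (X / J) + X / J := by push_cast; ring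
      linarith
    have h2 : 0 ≤ ((j + 1 : ℕ) : ℝ) * (X / J) - (B - X / 2) := by linarith
    calc ((j + 1 : ℕ) : ℝ) * (X / J) * h * cc - (B - X / 2) * h * cc =
        (((j + 1 : ℕ) : ℝ) * (X / J) - (B - X / 2)) * (h * cc) := by ring
      _ ≤ X / J * h := mul_le_mul h1 hhc1 hhc (by positivity)
  have efin : (κ₀ + 1 / J + (6 * √(9 * X) + 2 * Hm + 4) / X) * h * X =
      κ₀ * h * X + X / J * h + h * (6 * √(9 * X) + 2 * Hm + 4) := by
    field_simp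
  rw [efin, abs_le]
  constructor
  · linarith [hg1.1]
  · linarith [hg2.2]

lemma LL_pow {J : ℕ} (hJ : 1 ≤ J) {Hm : ℝ} (l : ℕ) (h : (2 : ℝ) ^ l ≤ Hm) : (2 : ℝ) ^ l ∈ LL J Hm :=
  ⟨l, 0, by omega, by unfold gh; simp, h⟩

lemma LL_near {J : ℕ} (hJ : 1 ≤ J) {Hm H : ℝ} (h1 : 1 ≤ H) (h2 : H ≤ Hm) :
    ∃ h₀ ∈ LL J Hm, 0 < h₀ ∧ h₀ ≤ H ∧ H ≤ (1 + 1 / (J : ℝ)) * h₀ := by
  have hJ0 : (0 : ℝ) < J := by exact_mod_cast (by omega : 0 < J)
  obtain ⟨l', hl1, hl2⟩ := exists_pow h1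
  have hl0 : l' ≠ 0 := by
    rintro rfl
    rw [pow_zero] at hl1
    linarith
  obtain ⟨l, rfl⟩ := Nat.exists_eq_succ_of_ne_zero hl0
  rw [Nat.succ_eq_add_one, pow_succ] at hl1 hl2
  have h2l : (0 : ℝ) < 2 ^ l := by positivity
  obtain ⟨i, hi⟩ : ∃ i, i = ⌊(H / 2 ^ l - 1) * J⌋₊ := ⟨_, rfl⟩
  have hq : 1 ≤ H / 2 ^ l := by rw [le_div_iff₀ h2l]; linarith
  have hq2 : H / 2 ^ l < 2 := by rw [div_lt_iff₀ h2l]; linarith
  have hq0 : 0 ≤ (H / 2 ^ l - 1) * J := mul_nonneg (by linarith) hJ0.le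
  have hi1 : (i : ℝ) ≤ (H / 2 ^ l - 1) * J := by rw [hi]; exact Nat.floor_le hq0
  have hi2 : (H / 2 ^ l - 1) * J < i + 1 := by rw [hi]; exact Nat.lt_floor_add_one _
  have hiJ : (i : ℝ) < J := by
    have : (H / 2 ^ l - 1) * J < 1 * J := mul_lt_mul_of_pos_right (by linarith) hJ0
    linarith
  have hi1' : (i : ℝ) / J ≤ H / 2 ^ l - 1 := by rw [div_le_iff₀ hJ0]; exact hi1
  have hi2' : H / 2 ^ l - 1 < (i : ℝ) / J + 1 / J := by
    rw [← add_div, lt_div_iff₀ hJ0]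
    exact hi2
  have hH : 2 ^ l * (H / 2 ^ l) = H := by field_simp
  have hle : gh J l i ≤ H := by
    unfold gh
    calc (2 : ℝ) ^ l * (1 + (i : ℝ) / J) ≤ 2 ^ l * (H / 2 ^ l) :=
          mul_le_mul_of_nonneg_left (by linarith) h2l.le
      _ = H := hH
  refine ⟨gh J l i, ⟨l, i, by exact_mod_cast hiJ, rfl, hle.trans h2⟩, gh_pos J l i, hle, ?_⟩
  unfold gh
  have hiJ0 : 0 ≤ (i : ℝ) / J := by positivity
  calc H = 2 ^ l * (H / 2 ^ l) := hH.symm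
    _ ≤ 2 ^ l * (1 + (i : ℝ) / J + 1 / J) := mul_le_mul_of_nonneg_left (by linarith) h2l.le
    _ ≤ 2 ^ l * ((1 + 1 / (J : ℝ)) * (1 + (i : ℝ) / J)) := by
        apply mul_le_mul_of_nonneg_left _ h2l.le
        have : 0 ≤ 1 / (J : ℝ) * ((i : ℝ) / J) := by positivity
        nlinarith
    _ = (1 + 1 / (J : ℝ)) * (2 ^ l * (1 + (i : ℝ) / J)) := by ring

/-- **The deterministic part.** -/
theorem det {f : ℕ → ℂ} (hf1 : ∀ n, ‖f n‖ ≤ 1) (hf : ∀ n, cf f n n = sq n) {N J : ℕ} {X Hm κ₀ : ℝ}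
    (hJ : 2 ≤ J) (hX : 1 ≤ X) (hN : 9 * X + 1 ≤ N) (hκ₀ : 0 ≤ κ₀) (hHm0 : 0 ≤ Hm) (hHm : Hm ≤ X / 4)
    (hκ : κ₀ + 1 / J + (6 * √(9 * X) + 2 * Hm + 4) / X ≤ 1)
    (hO : ∀ l i j : ℕ, i < J → gh J l i ≤ Hm → j ≤ 8 * J →
      |Off f N (X / 2) (X / 2 + j * (X / J)) (gh J l i)| ≤ κ₀ * gh J l i * X)
    {H X' : ℝ} (hH1 : 1 ≤ H) (hH : H ≤ Hm) (hX1 : X ≤ X') (hX2 : X' ≤ 2 * X) :
    |W f N X' (2 * X') H - X' * H * cc| ≤
      1000 * (κ₀ + 1 / J + (6 * √(9 * X) + 2 * Hm + 4) / X + 1 / √J) * H * X := by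
  have hG := grid_of_fin hf hJ hX hN hκ₀ hO
  obtain ⟨h₀, hL, h00, h01, h02⟩ := LL_near (J := J) (by omega) hH1 hH
  have hJ0 : (0 : ℝ) < J := by exact_mod_cast (by omega : 0 < J)
  have hJ1 : (1 : ℝ) ≤ J := by exact_mod_cast (by omega : 1 ≤ J)
  have hs0 : 0 < √(J : ℝ) := Real.sqrt_pos.2 hJ0
  have hs1 : 1 ≤ √(J : ℝ) := by
    rw [← Real.sqrt_one]
    exact Real.sqrt_le_sqrt hJ1
  have hX0 : 0 < X := by linarith
  refine grid_all hf1 hG (by positivity) hκ hX hHm (δ := 1 / √J) (by positivity) ?_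
    (fun l hl => LL_pow (by omega) l hl) hH hL h00 h01 ?_ hX1 hX2
  · rw [div_le_one hs0]
    exact hs1
  · rw [div_pow, one_pow, Real.sq_sqrt hJ0.le]
    exact h02

end Pool.Agent.H93GC
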