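import Mathlib

/-!
# The parameters (helper93)
-/

set_option autoImplicit false

namespace Pool.Agent.H93GC

open Filter

/-- the number of the grid points in `[1, 2]` -/
noncomputable def JJ (ε X : ℝ) : ℕ := ⌈X ^ (ε / 8)⌉₊

lemma JJ_ge {ε X : ℝ} : X ^ (ε / 8) ≤ JJ ε X := Nat.le_ceil _

lemma JJ_le {ε X : ℝ} (hε : 0 < ε) (hX : 1 ≤ X) : (JJ ε X : ℝ) ≤ 2 * X ^ (ε / 8) := by
  have h1 : (JJ ε X : ℝ) < X ^ (ε / 8) + 1 := Nat.ceil_lt_add_one (by positivity)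
  have h2 : 1 ≤ X ^ (ε / 8) := Real.one_le_rpow hX (by positivity)
  linarith

lemma JJ_sq {ε X : ℝ} (hε : 0 < ε) (hX : 1 ≤ X) :
    (JJ ε X : ℝ) * ((8 * JJ ε X + 1 : ℕ) : ℝ) ≤ 36 * X ^ (ε / 4) := by
  have h1 := JJ_le hε hX
  have h2 : 1 ≤ X ^ (ε / 8) := Real.one_le_rpow hX (by positivity)
  have h3 : (1 : ℝ) ≤ JJ ε X := h2.trans JJ_ge
  have h4 : X ^ (ε / 4) = X ^ (ε / 8) * X ^ (ε / 8) := by
    rw [← Real.rpow_add (by linarith)]
    congr 1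
    ring
  push_cast
  rw [h4]
  calc (JJ ε X : ℝ) * (8 * JJ ε X + 1) ≤ (JJ ε X : ℝ) * (9 * JJ ε X) :=
        mul_le_mul_of_nonneg_left (by linarith) (by linarith)
    _ ≤ (2 * X ^ (ε / 8)) * (9 * (2 * X ^ (ε / 8))) :=
        mul_le_mul h1 (by linarith) (by linarith) (by positivity)
    _ = 36 * (X ^ (ε / 8) * X ^ (ε / 8)) := by ring

lemma ev_ge {e : ℝ} (he : 0 < e) (c : ℝ) : ∀ᶠ X : ℝ in atTop, c ≤ X ^ e :=
  (tendsto_rpow_atTop he).eventually_ge_atTop c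

/-- all the conditions on the parameters -/
structure Par (ε X : ℝ) : Prop where
  one : 1 ≤ X
  J2 : 2 ≤ JJ ε X
  Hm : 2 * X ^ (1 - ε) ≤ X / 4
  err : X ^ (-(ε / 8)) + 1 / (JJ ε X : ℝ) + (6 * √(9 * X) + 2 * (2 * X ^ (1 - ε)) + 4) / X ≤
    28 * X ^ (-(ε / 16))
  le : 28 * X ^ (-(ε / 16)) ≤ 1
  sq : 1 / √(JJ ε X : ℝ) ≤ X ^ (-(ε / 16))

theorem par {ε : ℝ} (hε : 0 < ε) (hε1 : ε ≤ 1 / 2) : ∀ᶠ X : ℝ in atTop, Par ε X := by
  filter_upwards [eventually_ge_atTop (1 : ℝ), ev_ge (e := ε / 8) (by positivity) 2,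
    ev_ge (e := ε) hε 8, ev_ge (e := ε / 16) (by positivity) 28] with X h1 h2 h3 h4
  have hX0 : 0 < X := by linarith
  have hmono : ∀ a : ℝ, a ≤ -(ε / 16) → X ^ a ≤ X ^ (-(ε / 16)) := fun a ha =>
    Real.rpow_le_rpow_of_exponent_le h1 ha
  have hJ1 : X ^ (ε / 8) ≤ (JJ ε X : ℝ) := JJ_ge
  have hp8 : 0 < X ^ (ε / 8) := by positivity
  refine ⟨h1, ?_, ?_, ?_, ?_, ?_⟩
  · have : (2 : ℝ) ≤ JJ ε X := h2.trans hJ1
    exact_mod_cast this
  · have e : X = X ^ (1 - ε) * X ^ ε := by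
      rw [← Real.rpow_add hX0]
      simp
    have h5 : 0 < X ^ (1 - ε) := by positivity
    have h6 : X ^ (1 - ε) * 8 ≤ X := by
      calc X ^ (1 - ε) * 8 ≤ X ^ (1 - ε) * X ^ ε := mul_le_mul_of_nonneg_left h3 h5.le
        _ = X := e.symm
    linarith
  · have a1 : X ^ (-(ε / 8)) ≤ X ^ (-(ε / 16)) := hmono _ (by linarith)
    have a2 : 1 / (JJ ε X : ℝ) ≤ X ^ (-(ε / 16)) := by
      calc 1 / (JJ ε X : ℝ) ≤ 1 / X ^ (ε / 8) := one_div_le_one_div_of_le hp8 hJ1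
        _ = X ^ (-(ε / 8)) := by rw [Real.rpow_neg hX0.le, one_div]
        _ ≤ _ := a1
    have a3 : √(9 * X) = 3 * X ^ ((1 : ℝ) / 2) := by
      rw [Real.sqrt_mul (by norm_num), ← Real.sqrt_eq_rpow]
      congr 1
      rw [show (9 : ℝ) = 3 ^ 2 by norm_num, Real.sqrt_sq (by norm_num)]
    have a4 : X ^ ((1 : ℝ) / 2) / X = X ^ (-(1 : ℝ) / 2) := by
      nth_rewrite 2 [← Real.rpow_one X]
      rw [← Real.rpow_sub hX0]
      norm_num
    have a5 : X ^ (1 - ε) / X = X ^ (-ε) := by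
      nth_rewrite 2 [← Real.rpow_one X]
      rw [← Real.rpow_sub hX0]
      congr 1
      ring
    have a6 : 1 / X = X ^ (-1 : ℝ) := by
      rw [Real.rpow_neg_one, one_div]
    have e : (6 * √(9 * X) + 2 * (2 * X ^ (1 - ε)) + 4) / X =
        18 * (X ^ ((1 : ℝ) / 2) / X) + 4 * (X ^ (1 - ε) / X) + 4 * (1 / X) := by
      rw [a3]
      ring
    rw [e, a4, a5, a6]
    have b1 := hmono (-(1 : ℝ) / 2) (by linarith)
    have b2 := hmono (-ε) (by linarith)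
    have b3 := hmono (-1) (by linarith)
    linarith
  · rw [Real.rpow_neg hX0.le, ← div_eq_mul_inv, div_le_one (by positivity)]
    exact h4
  · have e : X ^ (-(ε / 16)) = 1 / √(X ^ (ε / 8)) := by
      rw [Real.rpow_neg hX0.le, one_div, Real.sqrt_eq_rpow, ← Real.rpow_mul hX0.le]
      congr 2
      ring
    rw [e]
    apply one_div_le_one_div_of_le
    · exact Real.sqrt_pos.2 hp8
    · exact Real.sqrt_le_sqrt hJ1

end Pool.Agent.H93GC
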