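import Mathlib
import Pool.Agent.H93GC.Grid

/-!
# One scale: from second moments of the off-diagonal parts to all lengths (helper93)
-/

set_option autoImplicit false

namespace Pool.Agent.H93GC

open MeasureTheory Finset

variable {Ω : Type*} [MeasurableSpace Ω]

lemma cf_meas {f : Ω → ℕ → ℂ} (hm : ∀ n, Measurable fun ω => f ω n) (n m : ℕ) :
    Measurable fun ω => cf (f ω) n m := by
  unfold cf
  exact Complex.measurable_re.comp ((hm n).mul (Complex.continuous_conj.measurable.comp (hm m)))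

lemma cf_bound {f : ℕ → ℂ} (hf1 : ∀ n, ‖f n‖ ≤ 1) (n m : ℕ) : |cf f n m| ≤ 1 := by
  unfold cf
  refine (Complex.abs_re_le_norm _).trans ?_
  rw [norm_mul, Complex.norm_conj]
  exact mul_le_one₀ (hf1 n) (norm_nonneg _) (hf1 m)

lemma Off_meas {f : Ω → ℕ → ℂ} (hm : ∀ n, Measurable fun ω => f ω n) (N : ℕ) (A B h : ℝ) :
    Measurable fun ω => Off (f ω) N A B h := by
  unfold Off
  apply Finset.measurable_sum
  intro n _
  apply Finset.measurable_sum
  intro m _
  split_ifs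
  · exact measurable_const
  · exact (cf_meas hm n m).mul_const _

lemma Off_bound {f : ℕ → ℂ} (hf1 : ∀ n, ‖f n‖ ≤ 1) (N : ℕ) {A B h : ℝ} (hh : 0 ≤ h) (hAB : A ≤ B) :
    |Off f N A B h| ≤ N * (N * h) := by
  unfold Off
  refine (abs_sum_le_sum_abs _ _).trans ?_
  have h1 : ∀ n ∈ range N, |∑ m ∈ range N, if n = m then (0 : ℝ) else cf f n m * w h A B n m| ≤ N * h := by
    intro n _
    refine (abs_sum_le_sum_abs _ _).trans ?_
    have h2 : ∀ m ∈ range N, |if n = m then (0 : ℝ) else cf f n m * w h A B n m| ≤ h := by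
      intro m _
      split_ifs
      · rw [abs_zero]; exact hh
      · rw [abs_mul, abs_of_nonneg (w_nonneg hAB n m)]
        have h3 := mul_le_mul (cf_bound hf1 n m) (w_le hh hAB n m) (w_nonneg hAB n m) zero_le_one
        rwa [one_mul] at h3
    have h3 := sum_le_sum h2
    rwa [sum_const, card_range, nsmul_eq_mul] at h3
  have h3 := sum_le_sum h1
  rwa [sum_const, card_range, nsmul_eq_mul] at h3

lemma Off_int {P : Measure Ω} [IsFiniteMeasure P] {f : Ω → ℕ → ℂ} (hf1 : ∀ ω n, ‖f ω n‖ ≤ 1)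
    (hm : ∀ n, Measurable fun ω => f ω n) (N : ℕ) {A B h : ℝ} (hh : 0 ≤ h) (hAB : A ≤ B) :
    Integrable (fun ω => Off (f ω) N A B h ^ 2) P := by
  refine Integrable.of_bound ((Off_meas hm N A B h).pow_const 2).aestronglyMeasurable
    ((N * (N * h)) ^ 2) (Filter.Eventually.of_forall fun ω => ?_)
  rw [Real.norm_of_nonneg (by positivity), ← sq_abs]
  exact pow_le_pow_left₀ (abs_nonneg _) (Off_bound (hf1 ω) N hh hAB) 2

/-- Chebyshev -/
lemma cheb {P : Measure Ω} [IsFiniteMeasure P] {f : Ω → ℕ → ℂ} (hf1 : ∀ ω n, ‖f ω n‖ ≤ 1)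
    (hm : ∀ n, Measurable fun ω => f ω n) (N : ℕ) {A B h : ℝ} (hh : 0 ≤ h) (hAB : A ≤ B) {t V : ℝ}
    (ht : 0 < t) (hV : ∫ ω, Off (f ω) N A B h ^ 2 ∂P ≤ V) :
    P.real {ω | t < |Off (f ω) N A B h|} ≤ V / t ^ 2 := by
  have h1 := mul_meas_ge_le_integral_of_nonneg (μ := P) (f := fun ω => Off (f ω) N A B h ^ 2)
    (Filter.Eventually.of_forall fun ω => by positivity) (Off_int hf1 hm N hh hAB) (t ^ 2)
  have h2 : P.real {ω | t < |Off (f ω) N A B h|} ≤ P.real {ω | t ^ 2 ≤ Off (f ω) N A B h ^ 2} := by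
    apply measureReal_mono
    · intro ω hω
      have h3 : t < |Off (f ω) N A B h| := hω
      show t ^ 2 ≤ Off (f ω) N A B h ^ 2
      rw [← sq_abs (Off (f ω) N A B h)]
      exact pow_le_pow_left₀ ht.le h3.le 2
    · exact measure_ne_top P _
  rw [le_div_iff₀ (by positivity), mul_comm]
  exact (mul_le_mul_of_nonneg_left h2 (by positivity)).trans (h1.trans hV)

/-- **One scale.** -/
theorem one_scale {P : Measure Ω} [IsFiniteMeasure P] {f : Ω → ℕ → ℂ} (hf1 : ∀ ω n, ‖f ω n‖ ≤ 1)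
    (hf : ∀ ω n, cf (f ω) n n = sq n) (hm : ∀ n, Measurable fun ω => f ω n)
    {N J L₀ : ℕ} {X Hm κ₀ K : ℝ} (hJ : 2 ≤ J) (hX : 1 ≤ X) (hN : 9 * X + 1 ≤ N) (hκ₀ : 0 < κ₀)
    (hHm0 : 0 ≤ Hm) (hHm : Hm ≤ X / 4) (hL₀ : Hm < 2 ^ L₀)
    (hκ : κ₀ + 1 / J + (6 * √(9 * X) + 2 * Hm + 4) / X ≤ 1) (hK : 0 ≤ K)
    (hE : ∀ l i j : ℕ, i < J → gh J l i ≤ Hm → j ≤ 8 * J →
      ∫ ω, Off (f ω) N (X / 2) (X / 2 + j * (X / J)) (gh J l i) ^ 2 ∂P ≤ K * gh J l i ^ 3) :
    ∃ E : Set Ω, MeasurableSet E ∧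
      P.real E ≤ L₀ * (J * ((8 * J + 1 : ℕ) * (K * Hm / (κ₀ * X) ^ 2))) ∧
      ∀ ω ∉ E, ∀ H X' : ℝ, 1 ≤ H → H ≤ Hm → X ≤ X' → X' ≤ 2 * X →
      |W (f ω) N X' (2 * X') H - X' * H * cc| ≤
        1000 * (κ₀ + 1 / J + (6 * √(9 * X) + 2 * Hm + 4) / X + 1 / √J) * H * X := by
  classical
  have hX0 : 0 < X := by linarith
  have hJ0 : (0 : ℝ) < J := by exact_mod_cast (by omega : 0 < J)
  obtain ⟨Bd, hBd⟩ : ∃ Bd : ℕ → ℕ → ℕ → Set Ω, Bd = fun (l i j : ℕ) => if gh J l i ≤ Hm then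
      {ω | κ₀ * gh J l i * X < |Off (f ω) N (X / 2) (X / 2 + (j : ℝ) * (X / J)) (gh J l i)|} else ∅ :=
    ⟨_, rfl⟩
  have hBm : ∀ l i j, MeasurableSet (Bd l i j) := by
    intro l i j
    rw [hBd]
    dsimp only
    split_ifs
    · exact measurableSet_lt measurable_const (Off_meas hm _ _ _ _).abs
    · exact MeasurableSet.empty
  have hBP : ∀ l i j, i < J → j ≤ 8 * J → P.real (Bd l i j) ≤ K * Hm / (κ₀ * X) ^ 2 := by
    intro l i j hi hj
    rw [hBd]
    dsimp only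
    split_ifs with h1
    · have hg := gh_pos J l i
      have h2 := cheb (P := P) hf1 hm N (A := X / 2) (B := X / 2 + j * (X / J)) hg.le
        (by
          have : 0 ≤ (j : ℝ) * (X / J) := by positivity
          linarith) (t := κ₀ * gh J l i * X) (by positivity) (hE l i j hi h1 hj)
      refine h2.trans ?_
      have e : K * gh J l i ^ 3 / (κ₀ * gh J l i * X) ^ 2 = K * gh J l i / (κ₀ * X) ^ 2 := by
        field_simp
      rw [e]
      apply div_le_div_of_nonneg_right _ (by positivity)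
      exact mul_le_mul_of_nonneg_left h1 hK
    · rw [measureReal_empty]
      positivity
  refine ⟨⋃ l ∈ range L₀, ⋃ i ∈ range J, ⋃ j ∈ range (8 * J + 1), Bd l i j, ?_, ?_, ?_⟩
  · refine Finset.measurableSet_biUnion _ fun l _ => Finset.measurableSet_biUnion _ fun i _ =>
      Finset.measurableSet_biUnion _ fun j _ => hBm l i j
  · refine (measureReal_biUnion_finset_le _ _).trans ?_
    have h1 : ∀ l ∈ range L₀, P.real (⋃ i ∈ range J, ⋃ j ∈ range (8 * J + 1), Bd l i j) ≤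
        (J : ℝ) * ((8 * J + 1 : ℕ) * (K * Hm / (κ₀ * X) ^ 2)) := by
      intro l _
      refine (measureReal_biUnion_finset_le _ _).trans ?_
      have h2 : ∀ i ∈ range J, P.real (⋃ j ∈ range (8 * J + 1), Bd l i j) ≤
          (8 * J + 1 : ℕ) * (K * Hm / (κ₀ * X) ^ 2) := by
        intro i hi
        refine (measureReal_biUnion_finset_le _ _).trans ?_
        have h3 : ∀ j ∈ range (8 * J + 1), P.real (Bd l i j) ≤ K * Hm / (κ₀ * X) ^ 2 := by
          intro j hj
          rw [mem_range] at hi hj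
          exact hBP l i j hi (by omega)
        have h4 := sum_le_sum h3
        rwa [sum_const, card_range, nsmul_eq_mul] at h4
      have h4 := sum_le_sum h2
      rwa [sum_const, card_range, nsmul_eq_mul] at h4
    have h4 := sum_le_sum h1
    rwa [sum_const, card_range, nsmul_eq_mul] at h4
  · intro ω hω H X' hH1 hH hX1 hX2
    refine det (hf1 ω) (hf ω) hJ hX hN hκ₀.le hHm0 hHm hκ ?_ hH1 hH hX1 hX2
    intro l i j hi hg hj
    by_contra hcon
    push Not at hcon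
    apply hω
    have hl : l < L₀ := by
      by_contra hl
      push Not at hl
      have h1 : (2 : ℝ) ^ L₀ ≤ 2 ^ l := pow_le_pow_right₀ (by norm_num) hl
      have h2 : (2 : ℝ) ^ l ≤ gh J l i := by
        unfold gh
        have : 0 ≤ (i : ℝ) / J := by positivity
        have h3 : (0 : ℝ) < 2 ^ l := by positivity
        nlinarith
      linarith
    simp only [Set.mem_iUnion, mem_range]
    refine ⟨l, hl, i, hi, j, by omega, ?_⟩
    rw [hBd]
    dsimp only
    rw [if_pos hg]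
    exact hcon

end Pool.Agent.H93GC
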