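import Mathlib
import Pool.Agent.H93GC.Prob
import Pool.Agent.H93GC.Cnt

/-!
# The second moment for Rademacher random multiplicative functions (helper93)
-/

set_option autoImplicit false

namespace Pool.Agent.H93GC

open MeasureTheory Finset ProbabilityTheory

variable {Ω : Type*} [MeasurableSpace Ω]

/-- independent random signs -/
structure Rad (P : Measure Ω) (ξ : ℕ → Ω → ℝ) : Prop where
  meas : ∀ n, Measurable (ξ n)
  indep : iIndepFun ξ P
  val : ∀ n ω, ξ n ω = 1 ∨ ξ n ω = -1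
  mean : ∀ n, ∫ ω, ξ n ω ∂P = 0

/-- products of the signs -/
def chi (ξ : ℕ → Ω → ℝ) (T : Finset ℕ) (ω : Ω) : ℝ := ∏ p ∈ T, ξ p ω

/-- the random multiplicative function -/
noncomputable def ff (ξ : ℕ → Ω → ℝ) (ω : Ω) (n : ℕ) : ℝ :=
  if Squarefree n then ∏ p ∈ n.primeFactors, ξ p ω else 0

section rad

variable {P : Measure Ω} {ξ : ℕ → Ω → ℝ}

lemma chi_val (h : Rad P ξ) (T : Finset ℕ) (ω : Ω) : chi ξ T ω = 1 ∨ chi ξ T ω = -1 := by
  classical
  unfold chi
  induction T using Finset.induction_on with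
  | empty => left; simp
  | insert a T ha ih =>
    rw [prod_insert ha]
    rcases h.val a ω with h1 | h1 <;> rcases ih with h2 | h2 <;> rw [h1, h2] <;> norm_num

lemma chi_meas (h : Rad P ξ) (T : Finset ℕ) : Measurable (chi ξ T) := by
  have e : chi ξ T = fun ω => ∏ p ∈ T, ξ p ω := rfl
  rw [e]
  exact Finset.measurable_fun_prod T fun p _ => h.meas p

lemma chi_mul (h : Rad P ξ) (S T : Finset ℕ) (ω : Ω) :
    chi ξ S ω * chi ξ T ω = chi ξ (symmDiff S T) ω := by
  classical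
  have h1 : chi ξ S ω = chi ξ (S \ T) ω * chi ξ (S ∩ T) ω := by
    unfold chi
    rw [← prod_sdiff (inter_subset_left : S ∩ T ⊆ S), sdiff_inter_self_left]
  have h2 : chi ξ T ω = chi ξ (T \ S) ω * chi ξ (S ∩ T) ω := by
    unfold chi
    rw [← prod_sdiff (inter_subset_right : S ∩ T ⊆ T), sdiff_inter_self_right]
  have h3 : chi ξ (symmDiff S T) ω = chi ξ (S \ T) ω * chi ξ (T \ S) ω := by
    unfold chi
    rw [← prod_union]
    · rfl
    · rw [disjoint_left]
      intro a ha hb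
      rw [mem_sdiff] at ha hb
      exact ha.2 hb.1
  have h4 : chi ξ (S ∩ T) ω * chi ξ (S ∩ T) ω = 1 := by
    rcases chi_val h (S ∩ T) ω with h5 | h5 <;> rw [h5] <;> norm_num
  rw [h1, h2, h3]
  calc chi ξ (S \ T) ω * chi ξ (S ∩ T) ω * (chi ξ (T \ S) ω * chi ξ (S ∩ T) ω) =
      chi ξ (S \ T) ω * chi ξ (T \ S) ω * (chi ξ (S ∩ T) ω * chi ξ (S ∩ T) ω) := by ring
    _ = _ := by rw [h4, mul_one]

lemma chi_integrable [IsFiniteMeasure P] (h : Rad P ξ) (T : Finset ℕ) : Integrable (chi ξ T) P := by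
  refine Integrable.of_bound (chi_meas h T).aestronglyMeasurable 1
    (Filter.Eventually.of_forall fun ω => ?_)
  rcases chi_val h T ω with h1 | h1 <;> rw [h1] <;> norm_num

lemma chi_int (h : Rad P ξ) {T : Finset ℕ} (hT : T.Nonempty) : ∫ ω, chi ξ T ω ∂P = 0 := by
  have h1 : iIndepFun (fun i : T => ξ i) P := h.indep.precomp Subtype.val_injective
  have h2 := h1.integral_fun_prod_eq_prod_integral fun i => (h.meas i).aestronglyMeasurable
  have e : ∀ ω, chi ξ T ω = ∏ i : T, ξ i ω := by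
    intro ω
    unfold chi
    rw [← prod_coe_sort]
  simp only [e]
  rw [h2]
  obtain ⟨p, hp⟩ := hT
  apply prod_eq_zero (mem_univ (⟨p, hp⟩ : T))
  exact h.mean p

lemma ff_eq (ω : Ω) {n : ℕ} (hn : Squarefree n) : ff ξ ω n = chi ξ n.primeFactors ω := by
  unfold ff chi
  rw [if_pos hn]

lemma ff_bound (h : Rad P ξ) (ω : Ω) (n : ℕ) : |ff ξ ω n| ≤ 1 := by
  by_cases hn : Squarefree n
  · rw [ff_eq ω hn]
    rcases chi_val h n.primeFactors ω with h1 | h1 <;> rw [h1] <;> norm_num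
  · unfold ff
    rw [if_neg hn]
    norm_num

lemma ff_sq (h : Rad P ξ) (ω : Ω) (n : ℕ) : ff ξ ω n * ff ξ ω n = sq n := by
  unfold sq
  by_cases hn : Squarefree n
  · rw [ff_eq ω hn, if_pos hn]
    rcases chi_val h n.primeFactors ω with h1 | h1 <;> rw [h1] <;> norm_num
  · unfold ff
    rw [if_neg hn, if_neg hn, mul_zero]

lemma ff_meas (h : Rad P ξ) (n : ℕ) : Measurable fun ω => ff ξ ω n := by
  unfold ff
  split_ifs
  · exact Finset.measurable_fun_prod _ fun p _ => h.meas p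
  · exact measurable_const

/-- the complex valued version -/
noncomputable def fc (ξ : ℕ → Ω → ℝ) (ω : Ω) (n : ℕ) : ℂ := (ff ξ ω n : ℂ)

lemma cf_fc (ω : Ω) (n m : ℕ) : cf (fc ξ ω) n m = ff ξ ω n * ff ξ ω m := by
  unfold cf fc
  rw [Complex.conj_ofReal, ← Complex.ofReal_mul, Complex.ofReal_re]

lemma Off_fc (ω : Ω) {N N₀ N₁ D : ℕ} {A B h : ℝ} (hAB : A ≤ B)
    (hA : (N₀ : ℝ) + h / 2 ≤ A) (hB : B + h / 2 ≤ N₁) (hD : h ≤ D) (hN : N₁ < N) :
    Off (fc ξ ω) N A B h = ∑ z ∈ PP N₀ N₁ D, ff ξ ω z.1 * ff ξ ω z.2 * w h A B z.1 z.2 := by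
  classical
  unfold Off
  rw [← sum_product' (range N) (range N)
    (fun n m => if n = m then (0 : ℝ) else cf (fc ξ ω) n m * w h A B n m)]
  have hsub : PP N₀ N₁ D ⊆ range N ×ˢ range N := by
    intro z hz
    rw [mem_PP] at hz
    rw [mem_product, mem_range, mem_range]
    omega
  rw [← sum_subset hsub]
  · apply sum_congr rfl
    intro z hz
    rw [mem_PP] at hz
    rw [if_neg hz.2.1, cf_fc]
  · intro z _ hz
    split_ifs with h1
    · rfl
    rw [cf_fc]
    by_cases h2 : Squarefree z.1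
    swap
    · unfold ff
      rw [if_neg h2, zero_mul, zero_mul]
    by_cases h3 : Squarefree z.2
    swap
    · unfold ff
      rw [if_neg h3, mul_zero, zero_mul]
    have h4 : w h A B z.1 z.2 = 0 := by
      by_cases ha : (N₀ ≤ z.1 ∧ z.1 ≤ N₁)
      swap
      · apply w_out hAB
        rw [not_and_or, not_le, not_le] at ha
        rcases ha with ha | ha
        · left
          have : (z.1 : ℝ) ≤ N₀ := by exact_mod_cast ha.le
          linarith
        · right
          have : (N₁ : ℝ) ≤ z.1 := by exact_mod_cast ha.le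
          linarith
      by_cases hb : (N₀ ≤ z.2 ∧ z.2 ≤ N₁)
      swap
      · rw [w_comm]
        apply w_out hAB
        rw [not_and_or, not_le, not_le] at hb
        rcases hb with hb | hb
        · left
          have : (z.2 : ℝ) ≤ N₀ := by exact_mod_cast hb.le
          linarith
        · right
          have : (N₁ : ℝ) ≤ z.2 := by exact_mod_cast hb.le
          linarith
      apply w_zero
      by_contra hcon
      push Not at hcon
      apply hz
      rw [mem_PP]
      refine ⟨⟨ha, hb⟩, h1, h2, h3, ?_, ?_⟩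
      · by_contra h5
        push Not at h5
        have h6 : (z.2 : ℝ) + D ≤ z.1 := by exact_mod_cast h5.le
        have h7 := (abs_lt.1 hcon).2
        linarith
      · by_contra h5
        push Not at h5
        have h6 : (z.1 : ℝ) + D ≤ z.2 := by exact_mod_cast h5.le
        have h7 := (abs_lt.1 hcon).1
        linarith
    rw [h4, mul_zero]

lemma four [IsProbabilityMeasure P] (h : Rad P ξ) {N₀ N₁ D : ℕ} {z z' : ℕ × ℕ} (hz : z ∈ PP N₀ N₁ D)
    (hz' : z' ∈ PP N₀ N₁ D) :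
    ∫ ω, (ff ξ ω z.1 * ff ξ ω z.2) * (ff ξ ω z'.1 * ff ξ ω z'.2) ∂P ≤
      if sk z.1 z.2 = sk z'.1 z'.2 then 1 else 0 := by
  classical
  rw [mem_PP] at hz hz'
  have e : ∀ ω, (ff ξ ω z.1 * ff ξ ω z.2) * (ff ξ ω z'.1 * ff ξ ω z'.2) =
      chi ξ (symmDiff (symmDiff z.1.primeFactors z.2.primeFactors)
        (symmDiff z'.1.primeFactors z'.2.primeFactors)) ω := by
    intro ω
    rw [ff_eq ω hz.2.2.1, ff_eq ω hz.2.2.2.1, ff_eq ω hz'.2.2.1, ff_eq ω hz'.2.2.2.1, chi_mul h,
      chi_mul h, chi_mul h]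
  simp only [e]
  split_ifs with h1
  · calc ∫ ω, chi ξ (symmDiff (symmDiff z.1.primeFactors z.2.primeFactors)
          (symmDiff z'.1.primeFactors z'.2.primeFactors)) ω ∂P ≤ ∫ _ω, (1 : ℝ) ∂P := by
          apply integral_mono (chi_integrable h _) (integrable_const 1)
          intro ω
          rcases chi_val h (symmDiff (symmDiff z.1.primeFactors z.2.primeFactors)
            (symmDiff z'.1.primeFactors z'.2.primeFactors)) ω with h3 | h3 <;>
            simp only [h3] <;> norm_num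
      _ = 1 := by simp
  · rw [chi_int h]
    rw [nonempty_iff_ne_empty]
    intro h2
    apply h1
    have h3 := symmDiff_eq_bot.1 h2
    unfold sk
    rw [h3]

/-- **The second moment.** -/
theorem second [IsProbabilityMeasure P] (hr : Rad P ξ) {N N₀ N₁ D : ℕ} {A B h : ℝ} (hh : 0 ≤ h)
    (hAB : A ≤ B) (hA : (N₀ : ℝ) + h / 2 ≤ A) (hB : B + h / 2 ≤ N₁) (hD : h ≤ D) (hN : N₁ < N) :
    ∫ ω, Off (fc ξ ω) N A B h ^ 2 ∂P ≤ h ^ 2 *
      (((PP N₀ N₁ D ×ˢ PP N₀ N₁ D).filter fun w => sk w.1.1 w.1.2 = sk w.2.1 w.2.2).card : ℝ) := by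
  classical
  have e1 : ∀ ω, Off (fc ξ ω) N A B h ^ 2 = ∑ z ∈ PP N₀ N₁ D, ∑ z' ∈ PP N₀ N₁ D,
      (w h A B z.1 z.2 * w h A B z'.1 z'.2) *
        ((ff ξ ω z.1 * ff ξ ω z.2) * (ff ξ ω z'.1 * ff ξ ω z'.2)) := by
    intro ω
    rw [Off_fc ω hAB hA hB hD hN, pow_two, sum_mul_sum]
    apply sum_congr rfl
    intro z _
    apply sum_congr rfl
    intro z' _
    ring
  have hint : ∀ z z' : ℕ × ℕ, Integrable (fun ω => (w h A B z.1 z.2 * w h A B z'.1 z'.2) *
        ((ff ξ ω z.1 * ff ξ ω z.2) * (ff ξ ω z'.1 * ff ξ ω z'.2))) P := by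
    intro z z'
    apply Integrable.const_mul
    refine Integrable.of_bound (((ff_meas hr z.1).mul (ff_meas hr z.2)).mul
      ((ff_meas hr z'.1).mul (ff_meas hr z'.2))).aestronglyMeasurable 1
      (Filter.Eventually.of_forall fun ω => ?_)
    rw [Real.norm_eq_abs, abs_mul, abs_mul, abs_mul]
    have a1 := mul_le_one₀ (ff_bound hr ω z.1) (abs_nonneg _) (ff_bound hr ω z.2)
    have a2 := mul_le_one₀ (ff_bound hr ω z'.1) (abs_nonneg _) (ff_bound hr ω z'.2)
    exact mul_le_one₀ a1 (by positivity) a2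
  simp only [e1]
  rw [integral_finsetSum _ fun z _ => integrable_finsetSum _ fun z' _ => hint z z']
  calc ∑ z ∈ PP N₀ N₁ D, ∫ ω, ∑ z' ∈ PP N₀ N₁ D, (w h A B z.1 z.2 * w h A B z'.1 z'.2) *
        ((ff ξ ω z.1 * ff ξ ω z.2) * (ff ξ ω z'.1 * ff ξ ω z'.2)) ∂P ≤
      ∑ z ∈ PP N₀ N₁ D, ∑ z' ∈ PP N₀ N₁ D, h ^ 2 * (if sk z.1 z.2 = sk z'.1 z'.2 then 1 else 0) := by
        apply sum_le_sum
        intro z hz
        rw [integral_finsetSum _ fun z' _ => hint z z']
        apply sum_le_sum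
        intro z' hz'
        rw [integral_const_mul]
        have h0 : 0 ≤ w h A B z.1 z.2 * w h A B z'.1 z'.2 :=
          mul_nonneg (w_nonneg hAB _ _) (w_nonneg hAB _ _)
        have h1 : w h A B z.1 z.2 * w h A B z'.1 z'.2 ≤ h ^ 2 := by
          rw [pow_two]
          exact mul_le_mul (w_le hh hAB _ _) (w_le hh hAB _ _) (w_nonneg hAB _ _) hh
        have h2 := four hr hz hz'
        have h3 : (0 : ℝ) ≤ if sk z.1 z.2 = sk z'.1 z'.2 then 1 else 0 := by split_ifs <;> norm_num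
        exact (mul_le_mul_of_nonneg_left h2 h0).trans (mul_le_mul_of_nonneg_right h1 h3)
    _ = _ := by
        rw [card_filter, Nat.cast_sum, sum_product, mul_sum]
        apply sum_congr rfl
        intro z _
        rw [mul_sum]
        apply sum_congr rfl
        intro z' _
        push_cast
        rfl

end rad

end Pool.Agent.H93GC
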