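import Mathlib
import Pool.Agent.H93GC.Prob
import Pool.Agent.H93GC.Cnt

/-!
# The second moment for the twists by `n ^ (i t)` (helper93)
-/

set_option autoImplicit false

namespace Pool.Agent.H93GC

open MeasureTheory Finset

/-- the off-diagonal part as a sum over pairs -/
lemma Off_gen {f : ℕ → ℂ} (hf : ∀ n, ¬ Squarefree n → f n = 0) {N N₀ N₁ D : ℕ} {A B h : ℝ}
    (hAB : A ≤ B) (hA : (N₀ : ℝ) + h / 2 ≤ A) (hB : B + h / 2 ≤ N₁) (hD : h ≤ D) (hN : N₁ < N) :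
    Off f N A B h = ∑ z ∈ PP N₀ N₁ D, cf f z.1 z.2 * w h A B z.1 z.2 := by
  classical
  unfold Off
  rw [← sum_product' (range N) (range N)
    (fun n m => if n = m then (0 : ℝ) else cf f n m * w h A B n m)]
  have hsub : PP N₀ N₁ D ⊆ range N ×ˢ range N := by
    intro z hz
    rw [mem_PP] at hz
    rw [mem_product, mem_range, mem_range]
    omega
  rw [← sum_subset hsub]
  · apply sum_congr rfl
    intro z hz
    rw [mem_PP] at hz
    rw [if_neg hz.2.1]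
  · intro z _ hz
    split_ifs with h1
    · rfl
    by_cases h2 : Squarefree z.1
    swap
    · unfold cf
      rw [hf z.1 h2, zero_mul, Complex.zero_re, zero_mul]
    by_cases h3 : Squarefree z.2
    swap
    · unfold cf
      rw [hf z.2 h3, map_zero, mul_zero, Complex.zero_re, zero_mul]
    have h4 : w h A B z.1 z.2 = 0 := by
      by_cases ha : (N₀ ≤ z.1 ∧ z.1 ≤ N₁)
      swap
      · apply w_out hAB
        rw [not_and_or, not_le, not_le] at ha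
        rcases ha with ha | ha
        · left
          have : (z.1 : ℝ) ≤ N₀ := by exact_mod_cast ha.le
          linarith
        · right
          have : (N₁ : ℝ) ≤ z.1 := by exact_mod_cast ha.le
          linarith
      by_cases hb : (N₀ ≤ z.2 ∧ z.2 ≤ N₁)
      swap
      · rw [w_comm]
        apply w_out hAB
        rw [not_and_or, not_le, not_le] at hb
        rcases hb with hb | hb
        · left
          have : (z.2 : ℝ) ≤ N₀ := by exact_mod_cast hb.le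
          linarith
        · right
          have : (N₁ : ℝ) ≤ z.2 := by exact_mod_cast hb.le
          linarith
      apply w_zero
      by_contra hcon
      push Not at hcon
      apply hz
      rw [mem_PP]
      refine ⟨⟨ha, hb⟩, h1, h2, h3, ?_, ?_⟩
      · by_contra h5
        push Not at h5
        have h6 : (z.2 : ℝ) + D ≤ z.1 := by exact_mod_cast h5.le
        have h7 := (abs_lt.1 hcon).2
        linarith
      · by_contra h5
        push Not at h5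
        have h6 : (z.1 : ℝ) + D ≤ z.2 := by exact_mod_cast h5.le
        have h7 := (abs_lt.1 hcon).1
        linarith
    rw [h4, mul_zero]

/-- the determinant of two pairs -/
def dt (w : (ℕ × ℕ) × (ℕ × ℕ)) : ℤ := (w.1.1 : ℤ) * w.2.2 - (w.1.2 : ℤ) * w.2.1

lemma dt_le {N₁ D : ℕ} {w : (ℕ × ℕ) × (ℕ × ℕ)} (h1 : w.1 ∈ PP 1 N₁ D) (h2 : w.2 ∈ PP 1 N₁ D) :
    |dt w| ≤ (N₁ : ℤ) ^ 2 := by
  rw [mem_PP] at h1 h2
  have a1 : (0 : ℤ) ≤ w.1.1 ∧ (w.1.1 : ℤ) ≤ N₁ := ⟨by positivity, by exact_mod_cast h1.1.1.2⟩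
  have a2 : (0 : ℤ) ≤ w.1.2 ∧ (w.1.2 : ℤ) ≤ N₁ := ⟨by positivity, by exact_mod_cast h1.1.2.2⟩
  have a3 : (0 : ℤ) ≤ w.2.1 ∧ (w.2.1 : ℤ) ≤ N₁ := ⟨by positivity, by exact_mod_cast h2.1.1.2⟩
  have a4 : (0 : ℤ) ≤ w.2.2 ∧ (w.2.2 : ℤ) ≤ N₁ := ⟨by positivity, by exact_mod_cast h2.1.2.2⟩
  have b1 : (w.1.1 : ℤ) * w.2.2 ≤ N₁ * N₁ := mul_le_mul a1.2 a4.2 a4.1 (by positivity)
  have b2 : (w.1.2 : ℤ) * w.2.1 ≤ N₁ * N₁ := mul_le_mul a2.2 a3.2 a3.1 (by positivity)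
  have b3 : 0 ≤ (w.1.1 : ℤ) * w.2.2 := mul_nonneg a1.1 a4.1
  have b4 : 0 ≤ (w.1.2 : ℤ) * w.2.1 := mul_nonneg a2.1 a3.1
  unfold dt
  rw [abs_le, pow_two]
  constructor <;> linarith

/-- pairs of pairs with a given determinant -/
theorem card_dt (ε : ℝ) (hε : 0 < ε) : ∃ C : ℝ, 0 < C ∧ ∀ (N₁ D : ℕ) (k : ℤ), 1 ≤ N₁ → 1 ≤ D → D ≤ N₁ →
    |k| ≤ (N₁ : ℤ) ^ 2 →
    (((PP 1 N₁ D ×ˢ PP 1 N₁ D).filter fun w => dt w = k).card : ℝ) ≤ C * (N₁ : ℝ) ^ (1 + ε) * D := by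
  classical
  obtain ⟨C, hC, hd⟩ := Pool.Agent.H510R2.divisor_bound (ε / 2) (by positivity)
  refine ⟨3 * (C * 2 ^ (ε / 2)), by positivity, fun N₁ D k hN1 hD1 hDN hk => ?_⟩
  have hN0 : (0 : ℝ) < N₁ := by exact_mod_cast hN1
  -- the injection
  have hinj : ((PP 1 N₁ D ×ˢ PP 1 N₁ D).filter fun w => dt w = k).card ≤
      ∑ u ∈ Icc 1 N₁ ×ˢ Icc (-(D : ℤ)) D, ((u.1 : ℤ) * u.2 - k).natAbs.divisors.card := by
    rw [← card_sigma]
    apply card_le_card_of_injOn (fun w => (⟨(w.1.1, (w.2.2 : ℤ) - w.2.1), w.2.1⟩ :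
      (_ : ℕ × ℤ) × ℕ))
    · intro w hw
      rw [mem_coe, mem_filter, mem_product] at hw
      obtain ⟨⟨h1, h2⟩, h3⟩ := hw
      rw [mem_PP] at h1 h2
      rw [mem_coe, mem_sigma, mem_product, mem_Icc, mem_Icc, Nat.mem_divisors]
      unfold dt at h3
      have e : (w.1.1 : ℤ) * ((w.2.2 : ℤ) - w.2.1) - k = ((w.1.2 : ℤ) - w.1.1) * w.2.1 := by
        rw [← h3]
        ring
      dsimp only
      refine ⟨⟨⟨by omega, by omega⟩, by omega, by omega⟩, ?_, ?_⟩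
      · rw [e, Int.natAbs_mul, Int.natAbs_natCast]
        exact dvd_mul_left _ _
      · rw [e, Int.natAbs_ne_zero]
        apply mul_ne_zero
        · have := h1.2.1
          omega
        · have := h2.1.1.1
          omega
    · intro w hw w' hw' h
      rw [mem_coe, mem_filter, mem_product] at hw hw'
      obtain ⟨⟨h1, h2⟩, h3⟩ := hw
      obtain ⟨⟨h1', h2'⟩, h3'⟩ := hw'
      rw [mem_PP] at h1 h2 h1' h2'
      simp only [Sigma.mk.injEq, Prod.mk.injEq, heq_eq_eq] at h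
      obtain ⟨⟨a1, a2⟩, a3⟩ := h
      have a4 : w.2.2 = w'.2.2 := by
        rw [a3] at a2
        omega
      unfold dt at h3 h3'
      rw [a1, a3, a4] at h3
      have h5 : (w.1.2 : ℤ) * w'.2.1 = (w'.1.2 : ℤ) * w'.2.1 := by linarith
      have h6 : (w'.2.1 : ℤ) ≠ 0 := by
        have := h2'.1.1.1
        omega
      have h7 : (w.1.2 : ℤ) = w'.1.2 := mul_right_cancel₀ h6 h5
      have h8 : w.1.2 = w'.1.2 := by exact_mod_cast h7
      exact Prod.ext (Prod.ext a1 h8) (Prod.ext a3 a4)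
  have h2 : ∀ u ∈ Icc 1 N₁ ×ˢ Icc (-(D : ℤ)) D, (((u.1 : ℤ) * u.2 - k).natAbs.divisors.card : ℝ) ≤
      C * 2 ^ (ε / 2) * (N₁ : ℝ) ^ ε := by
    intro u hu
    rw [mem_product, mem_Icc, mem_Icc] at hu
    have hle : ((u.1 : ℤ) * u.2 - k).natAbs ≤ 2 * N₁ ^ 2 := by
      have b1 : |(u.1 : ℤ) * u.2| ≤ (N₁ : ℤ) * N₁ := by
        rw [abs_mul]
        apply mul_le_mul
        · rw [abs_of_nonneg (by positivity)]
          exact_mod_cast hu.1.2
        · rw [abs_le]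
          constructor <;> omega
        · positivity
        · positivity
      have b2 : |(u.1 : ℤ) * u.2 - k| ≤ 2 * (N₁ : ℤ) ^ 2 := by
        have := abs_sub (( u.1 : ℤ) * u.2) k
        nlinarith
      rw [Int.abs_eq_natAbs] at b2
      exact_mod_cast b2
    rcases Nat.eq_zero_or_pos ((u.1 : ℤ) * u.2 - k).natAbs with h0 | h0
    · rw [h0, Nat.divisors_zero, card_empty]
      push_cast
      positivity
    · refine (hd _ h0).trans ?_
      rw [mul_assoc]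
      apply mul_le_mul_of_nonneg_left _ hC.le
      have b3 : (((( u.1 : ℤ) * u.2 - k).natAbs : ℕ) : ℝ) ≤ 2 * (N₁ : ℝ) ^ 2 := by exact_mod_cast hle
      calc ((((u.1 : ℤ) * u.2 - k).natAbs : ℕ) : ℝ) ^ (ε / 2) ≤ (2 * (N₁ : ℝ) ^ 2) ^ (ε / 2) :=
            Real.rpow_le_rpow (by positivity) b3 (by positivity)
        _ = 2 ^ (ε / 2) * (N₁ : ℝ) ^ ε := by
            rw [Real.mul_rpow (by norm_num) (by positivity), ← Real.rpow_natCast, ← Real.rpow_mul hN0.le]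
            congr 2
            push_cast
            ring
  have hinj' : (((PP 1 N₁ D ×ˢ PP 1 N₁ D).filter fun w => dt w = k).card : ℝ) ≤
      ∑ u ∈ Icc 1 N₁ ×ˢ Icc (-(D : ℤ)) D, (((u.1 : ℤ) * u.2 - k).natAbs.divisors.card : ℝ) := by
    exact_mod_cast hinj
  refine hinj'.trans ((sum_le_sum h2).trans ?_)
  rw [sum_const, card_product, Nat.card_Icc, Int.card_Icc, nsmul_eq_mul]
  have e1 : ((D : ℤ) + 1 - -(D : ℤ)).toNat = 2 * D + 1 := by omega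
  rw [e1]
  have e2 : (N₁ : ℝ) ^ (1 + ε) = N₁ * (N₁ : ℝ) ^ ε := by
    rw [Real.rpow_add hN0, Real.rpow_one]
  rw [e2]
  have hD1' : (1 : ℝ) ≤ D := by exact_mod_cast hD1
  have e3 : N₁ + 1 - 1 = N₁ := by omega
  rw [e3]
  push_cast
  calc (N₁ : ℝ) * (2 * (D : ℝ) + 1) * (C * 2 ^ (ε / 2) * (N₁ : ℝ) ^ ε) ≤
      (N₁ : ℝ) * (3 * (D : ℝ)) * (C * 2 ^ (ε / 2) * (N₁ : ℝ) ^ ε) := by
        apply mul_le_mul_of_nonneg_right _ (by positivity)
        apply mul_le_mul_of_nonneg_left _ hN0.le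
        linarith
    _ = _ := by ring

lemma union_le {g : ℤ → ℝ} (hg : ∀ k, 0 ≤ g k) (A B : Finset ℤ) :
    ∑ k ∈ A ∪ B, g k ≤ ∑ k ∈ A, g k + ∑ k ∈ B, g k := by
  classical
  have h1 := sum_union_inter (s₁ := A) (s₂ := B) (f := g)
  have h2 : 0 ≤ ∑ k ∈ A ∩ B, g k := sum_nonneg fun k _ => hg k
  linarith

/-- the sum over all pairs of pairs -/
theorem sum_dt (ε : ℝ) (hε : 0 < ε) : ∃ C : ℝ, 0 < C ∧ ∀ (N₁ D : ℕ) (T : ℝ), 1 ≤ N₁ → 1 ≤ D → D ≤ N₁ →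
    0 ≤ T →
    ∑ w ∈ PP 1 N₁ D ×ˢ PP 1 N₁ D, (if dt w = 0 then T else (N₁ : ℝ) ^ 2 / |(dt w : ℝ)|) ≤
      C * (N₁ : ℝ) ^ (1 + ε) * D * (T + (N₁ : ℝ) ^ 2) := by
  classical
  obtain ⟨C, hC, hc⟩ := card_dt (ε / 2) (by positivity)
  refine ⟨C * (2 * (1 + 2 / (ε / 2)) + 1), by positivity, fun N₁ D T hN1 hD1 hDN hT => ?_⟩
  have hN0 : (0 : ℝ) < N₁ := by exact_mod_cast hN1
  have hN1' : (1 : ℝ) ≤ N₁ := by exact_mod_cast hN1
  obtain ⟨K, hK⟩ : ∃ K : ℕ, K = N₁ ^ 2 := ⟨_, rfl⟩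
  have hmap : ∀ w ∈ PP 1 N₁ D ×ˢ PP 1 N₁ D, dt w ∈ Icc (-(K : ℤ)) K := by
    intro w hw
    rw [mem_product] at hw
    rw [mem_Icc, ← abs_le, hK]
    push_cast
    exact dt_le hw.1 hw.2
  rw [← sum_fiberwise_of_maps_to hmap]
  have h1 : ∀ k ∈ Icc (-(K : ℤ)) K, ∑ w ∈ (PP 1 N₁ D ×ˢ PP 1 N₁ D).filter (fun w => dt w = k),
      (if dt w = 0 then T else (N₁ : ℝ) ^ 2 / |(dt w : ℝ)|) ≤
      C * (N₁ : ℝ) ^ (1 + ε / 2) * D * (if k = 0 then T else (N₁ : ℝ) ^ 2 / |(k : ℝ)|) := by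
    intro k hk
    have e1 : ∀ w ∈ (PP 1 N₁ D ×ˢ PP 1 N₁ D).filter (fun w => dt w = k),
        (if dt w = 0 then T else (N₁ : ℝ) ^ 2 / |(dt w : ℝ)|) =
        (if k = 0 then T else (N₁ : ℝ) ^ 2 / |(k : ℝ)|) := by
      intro w hw
      rw [mem_filter] at hw
      rw [hw.2]
    rw [sum_congr rfl e1, sum_const, nsmul_eq_mul]
    apply mul_le_mul_of_nonneg_right
    · apply hc N₁ D k hN1 hD1 hDN
      rw [mem_Icc, ← abs_le, hK] at hk
      push_cast at hk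
      exact hk
    · split_ifs
      · exact hT
      · positivity
  refine (sum_le_sum h1).trans ?_
  rw [← mul_sum]
  have h2 : ∑ k ∈ Icc (-(K : ℤ)) K, (if k = 0 then T else (N₁ : ℝ) ^ 2 / |(k : ℝ)|) ≤
      T + 2 * ((N₁ : ℝ) ^ 2 * (1 + Real.log K)) := by
    have e2 : Icc (-(K : ℤ)) K = {0} ∪ ((Icc 1 K).image (fun n : ℕ => (n : ℤ)) ∪
        (Icc 1 K).image (fun n : ℕ => -(n : ℤ))) := by
      ext k
      simp only [mem_Icc, mem_union, mem_singleton, mem_image]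
      constructor
      · rintro ⟨a1, a2⟩
        rcases lt_trichotomy k 0 with h | h | h
        · right; right
          exact ⟨k.natAbs, by omega, by omega⟩
        · left; exact h
        · right; left
          exact ⟨k.natAbs, by omega, by omega⟩
      · rintro (h | ⟨n, hn, h⟩ | ⟨n, hn, h⟩) <;> omega
    have h3 : ∑ n ∈ Icc 1 K, (N₁ : ℝ) ^ 2 / (n : ℝ) ≤ (N₁ : ℝ) ^ 2 * (1 + Real.log K) := by
      have h4 : ∑ n ∈ Icc 1 K, (N₁ : ℝ) ^ 2 / (n : ℝ) = (N₁ : ℝ) ^ 2 * ((harmonic K : ℚ) : ℝ) := by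
        rw [harmonic_eq_sum_Icc, Rat.cast_sum, mul_sum]
        apply sum_congr rfl
        intro n _
        push_cast
        rw [div_eq_mul_inv]
      rw [h4]
      exact mul_le_mul_of_nonneg_left (harmonic_le_one_add_log K) (by positivity)
    have hnn : ∀ k : ℤ, 0 ≤ (if k = 0 then T else (N₁ : ℝ) ^ 2 / |(k : ℝ)|) := by
      intro k
      split_ifs
      · exact hT
      · positivity
    have h4 : ∑ k ∈ (Icc 1 K).image (fun n : ℕ => (n : ℤ)),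
        (if k = 0 then T else (N₁ : ℝ) ^ 2 / |(k : ℝ)|) = ∑ n ∈ Icc 1 K, (N₁ : ℝ) ^ 2 / (n : ℝ) := by
      rw [sum_image (fun a _ b _ h => by exact_mod_cast h)]
      apply sum_congr rfl
      intro n hn
      rw [mem_Icc] at hn
      rw [if_neg (by omega)]
      push_cast
      rw [abs_of_nonneg (Nat.cast_nonneg n)]
    have h5 : ∑ k ∈ (Icc 1 K).image (fun n : ℕ => -(n : ℤ)),
        (if k = 0 then T else (N₁ : ℝ) ^ 2 / |(k : ℝ)|) = ∑ n ∈ Icc 1 K, (N₁ : ℝ) ^ 2 / (n : ℝ) := by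
      rw [sum_image (fun a _ b _ h => by
        have h' : -(a : ℤ) = -(b : ℤ) := h
        omega)]
      apply sum_congr rfl
      intro n hn
      rw [mem_Icc] at hn
      rw [if_neg (by omega)]
      push_cast
      rw [abs_neg, abs_of_nonneg (Nat.cast_nonneg n)]
    rw [e2]
    refine (union_le hnn _ _).trans ?_
    have h6 := union_le hnn ((Icc 1 K).image (fun n : ℕ => (n : ℤ)))
      ((Icc 1 K).image (fun n : ℕ => -(n : ℤ)))
    rw [h4, h5] at h6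
    rw [sum_singleton, if_pos rfl]
    linarith
  have hlog : Real.log K ≤ 2 / (ε / 2) * (N₁ : ℝ) ^ (ε / 2) := by
    rw [hK]
    push_cast
    rw [Real.log_pow]
    have := Real.log_le_rpow_div hN0.le (half_pos hε)
    push_cast
    calc 2 * Real.log N₁ ≤ 2 * ((N₁ : ℝ) ^ (ε / 2) / (ε / 2)) := by linarith
      _ = _ := by ring
  have hone : 1 ≤ (N₁ : ℝ) ^ (ε / 2) := Real.one_le_rpow hN1' (by positivity)
  have h5 : T + 2 * ((N₁ : ℝ) ^ 2 * (1 + Real.log K)) ≤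
      (2 * (1 + 2 / (ε / 2)) + 1) * (N₁ : ℝ) ^ (ε / 2) * (T + (N₁ : ℝ) ^ 2) := by
    obtain ⟨a, ha⟩ : ∃ a : ℝ, a = (N₁ : ℝ) ^ (ε / 2) := ⟨_, rfl⟩
    obtain ⟨b, hb⟩ : ∃ b : ℝ, b = 2 / (ε / 2) := ⟨_, rfl⟩
    obtain ⟨s, hs⟩ : ∃ s : ℝ, s = (N₁ : ℝ) ^ 2 := ⟨_, rfl⟩
    rw [← ha] at hlog hone ⊢
    rw [← hb] at hlog ⊢
    rw [← hs]
    have hb0 : 0 < b := by rw [hb]; positivity
    have hs0 : 0 < s := by rw [hs]; positivity
    have h6 : s * (1 + Real.log K) ≤ s * ((1 + b) * a) := by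
      apply mul_le_mul_of_nonneg_left _ hs0.le
      nlinarith
    have h7 : T ≤ (2 * (1 + b) + 1) * a * T := by
      have : 1 ≤ (2 * (1 + b) + 1) * a := by nlinarith
      nlinarith
    have h8 : 2 * (s * ((1 + b) * a)) ≤ (2 * (1 + b) + 1) * a * s := by
      nlinarith [mul_pos hs0 (by linarith : 0 < a)]
    nlinarith
  have e3 : (N₁ : ℝ) ^ (1 + ε) = (N₁ : ℝ) ^ (1 + ε / 2) * (N₁ : ℝ) ^ (ε / 2) := by
    rw [← Real.rpow_add hN0]
    congr 1
    ring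
  calc C * (N₁ : ℝ) ^ (1 + ε / 2) * D *
        ∑ k ∈ Icc (-(K : ℤ)) K, (if k = 0 then T else (N₁ : ℝ) ^ 2 / |(k : ℝ)|) ≤
      C * (N₁ : ℝ) ^ (1 + ε / 2) * D *
        ((2 * (1 + 2 / (ε / 2)) + 1) * (N₁ : ℝ) ^ (ε / 2) * (T + (N₁ : ℝ) ^ 2)) :=
        mul_le_mul_of_nonneg_left (h2.trans h5) (by positivity)
    _ = _ := by
        rw [e3]
        ring

end Pool.Agent.H93GC
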