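import Mathlib
import Pool.Agent.H93GC.Tw
import Pool.Agent.H93GC.Par

/-!
# The second moment for the twists by `n ^ (i t)`, II (helper93)
-/

set_option autoImplicit false

namespace Pool.Agent.H93GC

open MeasureTheory Finset

/-- the Möbius function -/
noncomputable def mo (n : ℕ) : ℝ := ((ArithmeticFunction.moebius n : ℤ) : ℝ)

/-- the twist -/
noncomputable def tw (g : ℕ → ℂ) (t : ℝ) (n : ℕ) : ℂ :=
  (mo n : ℂ) * g n * Complex.exp (((t * Real.log n : ℝ) : ℂ) * Complex.I)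

lemma mo_abs (n : ℕ) : |mo n| ≤ 1 := by
  unfold mo
  have h := ArithmeticFunction.abs_moebius_le_one (n := n)
  exact_mod_cast h

lemma mo_sq (n : ℕ) : mo n * mo n = sq n := by
  unfold mo sq
  split_ifs with h
  · have h1 := (ArithmeticFunction.moebius_sq_eq_one_of_squarefree h)
    rw [← pow_two]
    exact_mod_cast h1
  · rw [ArithmeticFunction.moebius_eq_zero_of_not_squarefree h]
    simp

variable {g : ℕ → ℂ}

lemma tw_zero (t : ℝ) {n : ℕ} (h : ¬ Squarefree n) : tw g t n = 0 := by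
  unfold tw mo
  rw [ArithmeticFunction.moebius_eq_zero_of_not_squarefree h]
  simp

lemma tw_norm (hg : ∀ n, ‖g n‖ = 1) (t : ℝ) (n : ℕ) : ‖tw g t n‖ ≤ 1 := by
  unfold tw
  rw [norm_mul, norm_mul, hg n, Complex.norm_exp_ofReal_mul_I, mul_one, mul_one, Complex.norm_real]
  exact mo_abs n

/-- the coefficients of the products -/
noncomputable def be (g : ℕ → ℂ) (n m : ℕ) : ℂ := ((mo n * mo m : ℝ) : ℂ) * (g n * (starRingEnd ℂ) (g m))

lemma be_norm (hg : ∀ n, ‖g n‖ = 1) (n m : ℕ) : ‖be g n m‖ ≤ 1 := by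
  unfold be
  rw [norm_mul, norm_mul, Complex.norm_conj, hg, hg, mul_one, mul_one, Complex.norm_real,
    Real.norm_eq_abs, abs_mul]
  exact mul_le_one₀ (mo_abs n) (abs_nonneg _) (mo_abs m)

/-- the real part of `γ e ^ (i t c)` -/
noncomputable def rc (γ : ℂ) (c t : ℝ) : ℝ := γ.re * Real.cos (t * c) - γ.im * Real.sin (t * c)

lemma rc_eq (γ : ℂ) (c t : ℝ) : (γ * Complex.exp (((t * c : ℝ) : ℂ) * Complex.I)).re = rc γ c t := by
  rw [Complex.mul_re, Complex.exp_ofReal_mul_I_re, Complex.exp_ofReal_mul_I_im]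
  rfl

lemma rc_mul (γ γ' : ℂ) (c c' t : ℝ) : rc γ c t * rc γ' c' t =
    1 / 2 * rc (γ * (starRingEnd ℂ) γ') (c - c') t + 1 / 2 * rc (γ * γ') (c + c') t := by
  unfold rc
  rw [mul_sub t c c', mul_add t c c', Real.cos_sub, Real.cos_add, Real.sin_sub, Real.sin_add,
    Complex.mul_re, Complex.mul_re, Complex.mul_im, Complex.mul_im, Complex.conj_re, Complex.conj_im]
  ring

lemma cf_tw (t : ℝ) (n m : ℕ) : cf (tw g t) n m = rc (be g n m) (Real.log n - Real.log m) t := by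
  unfold cf tw
  rw [map_mul, map_mul, Complex.conj_ofReal, ← Complex.exp_conj, map_mul, Complex.conj_ofReal,
    Complex.conj_I, ← rc_eq]
  congr 1
  have h : Complex.exp (((t * (Real.log n - Real.log m) : ℝ) : ℂ) * Complex.I) =
      Complex.exp (((t * Real.log n : ℝ) : ℂ) * Complex.I) *
      Complex.exp (((t * Real.log m : ℝ) : ℂ) * -Complex.I) := by
    rw [← Complex.exp_add]
    congr 1
    push_cast
    ring
  rw [h]
  unfold be
  push_cast
  ring

lemma cf_tw_self (hg : ∀ n, ‖g n‖ = 1) (t : ℝ) (n : ℕ) : cf (tw g t) n n = sq n := by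
  rw [cf_tw, sub_self]
  unfold rc be
  rw [mul_zero, Real.cos_zero, Real.sin_zero, Complex.mul_conj, Complex.normSq_eq_norm_sq, hg,
    ← Complex.ofReal_mul, Complex.ofReal_re, mo_sq]
  ring

lemma tw_meas (n : ℕ) : Measurable fun t : ℝ => tw g t n := by
  unfold tw
  fun_prop

/-- the integral of `rc` -/
lemma int_rc {T : ℝ} (hT : 0 ≤ T) {γ : ℂ} (hγ : ‖γ‖ ≤ 1) (c : ℝ) : |∫ t in (0 : ℝ)..T, rc γ c t| ≤ 3 * T := by
  have h := intervalIntegral.norm_integral_le_of_norm_le_const (a := (0 : ℝ)) (b := T) (C := 1)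
    (f := fun t => rc γ c t) (fun t _ => by
      rw [← rc_eq]
      refine (Complex.abs_re_le_norm _).trans ?_
      rw [norm_mul, Complex.norm_exp_ofReal_mul_I, mul_one]
      exact hγ)
  rw [Real.norm_eq_abs, sub_zero, one_mul, abs_of_nonneg hT] at h
  linarith

lemma int_rc2 {T : ℝ} {γ : ℂ} (hγ : ‖γ‖ ≤ 1) {c : ℝ} (hc : c ≠ 0) :
    |∫ t in (0 : ℝ)..T, rc γ c t| ≤ 3 * (1 / |c|) := by
  have h1 : ∫ t in (0 : ℝ)..T, Real.cos (t * c) = c⁻¹ * Real.sin (T * c) := by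
    have h1 := intervalIntegral.integral_comp_mul_right (a := 0) (b := T) Real.cos hc
    rw [h1, zero_mul, integral_cos, Real.sin_zero, sub_zero, smul_eq_mul]
  have h2 : ∫ t in (0 : ℝ)..T, Real.sin (t * c) = c⁻¹ * (1 - Real.cos (T * c)) := by
    have h1 := intervalIntegral.integral_comp_mul_right (a := 0) (b := T) Real.sin hc
    rw [h1, zero_mul, integral_sin, Real.cos_zero, smul_eq_mul]
  have h3 : ∫ t in (0 : ℝ)..T, rc γ c t =
      γ.re * (c⁻¹ * Real.sin (T * c)) - γ.im * (c⁻¹ * (1 - Real.cos (T * c))) := by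
    unfold rc
    rw [intervalIntegral.integral_sub, intervalIntegral.integral_const_mul,
      intervalIntegral.integral_const_mul, h1, h2]
    · apply Continuous.intervalIntegrable
      fun_prop
    · apply Continuous.intervalIntegrable
      fun_prop
  have hr : |γ.re| ≤ 1 := (Complex.abs_re_le_norm _).trans hγ
  have hi : |γ.im| ≤ 1 := (Complex.abs_im_le_norm _).trans hγ
  have hs := Real.abs_sin_le_one (T * c)
  have hco : |1 - Real.cos (T * c)| ≤ 2 := by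
    rw [abs_le]
    constructor <;> linarith [Real.cos_le_one (T * c), Real.neg_one_le_cos (T * c)]
  have hc0 : 0 < |c|⁻¹ := inv_pos.2 (abs_pos.2 hc)
  rw [h3, one_div]
  refine (abs_sub _ _).trans ?_
  rw [abs_mul, abs_mul, abs_mul, abs_mul, abs_inv]
  have a1 : |γ.re| * (|c|⁻¹ * |Real.sin (T * c)|) ≤ 1 * (|c|⁻¹ * 1) := by
    apply mul_le_mul hr _ (by positivity) zero_le_one
    exact mul_le_mul_of_nonneg_left hs hc0.le
  have a2 : |γ.im| * (|c|⁻¹ * |1 - Real.cos (T * c)|) ≤ 1 * (|c|⁻¹ * 2) := by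
    apply mul_le_mul hi _ (by positivity) zero_le_one
    exact mul_le_mul_of_nonneg_left hco hc0.le
  linarith

lemma log_sub_aux {u v M : ℕ} (hv : 1 ≤ v) (huv : v < u) (hM : u ≤ M) :
    ((u : ℝ) - v) / M ≤ Real.log u - Real.log v := by
  have hv0 : (0 : ℝ) < v := by exact_mod_cast hv
  have hu0 : (0 : ℝ) < u := by exact_mod_cast (by omega : 0 < u)
  have huM : (u : ℝ) ≤ M := by exact_mod_cast hM
  have hlt : (v : ℝ) < u := by exact_mod_cast huv
  rw [← Real.log_div hu0.ne' hv0.ne']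
  have h := Real.one_sub_inv_le_log_of_pos (x := (u : ℝ) / v) (by positivity)
  refine le_trans ?_ h
  have e : 1 - ((u : ℝ) / v)⁻¹ = ((u : ℝ) - v) / u := by
    field_simp
  rw [e]
  exact div_le_div_of_nonneg_left (by linarith) hu0 huM

lemma log_sub_ge {u v M : ℕ} (hu : 1 ≤ u) (hv : 1 ≤ v) (huv : u ≠ v) (hM : u ≤ M) (hM' : v ≤ M) :
    |(u : ℝ) - v| / M ≤ |Real.log u - Real.log v| := by
  rcases lt_or_gt_of_ne huv with h | h
  · have h1 := log_sub_aux hu h hM'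
    have h2 : (u : ℝ) < v := by exact_mod_cast h
    rw [abs_sub_comm, abs_of_pos (by linarith), abs_sub_comm]
    exact h1.trans (le_abs_self _)
  · have h1 := log_sub_aux hv h hM
    have h2 : (v : ℝ) < u := by exact_mod_cast h
    rw [abs_of_pos (by linarith)]
    exact h1.trans (le_abs_self _)

/-- the bound for the integral -/
noncomputable def gb (N₁ : ℕ) (T : ℝ) (w : (ℕ × ℕ) × (ℕ × ℕ)) : ℝ :=
  if dt w = 0 then T else (N₁ : ℝ) ^ 2 / |(dt w : ℝ)|

lemma int_le {N₁ D : ℕ} {T : ℝ} (hT : 0 ≤ T) {γ : ℂ} (hγ : ‖γ‖ ≤ 1) {w : (ℕ × ℕ) × (ℕ × ℕ)}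
    (h1 : w.1 ∈ PP 1 N₁ D)
    (h2 : w.2 ∈ PP 1 N₁ D) : |∫ t in (0 : ℝ)..T, rc γ ((Real.log w.1.1 - Real.log w.1.2) -
      (Real.log w.2.1 - Real.log w.2.2)) t| ≤ 3 * gb N₁ T w := by
  unfold gb
  split_ifs with h0
  · exact int_rc hT hγ _
  · rw [mem_PP] at h1 h2
    have a1 : (w.1.1 : ℝ) ≠ 0 := by exact_mod_cast (by omega : w.1.1 ≠ 0)
    have a2 : (w.1.2 : ℝ) ≠ 0 := by exact_mod_cast (by omega : w.1.2 ≠ 0)
    have a3 : (w.2.1 : ℝ) ≠ 0 := by exact_mod_cast (by omega : w.2.1 ≠ 0)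
    have a4 : (w.2.2 : ℝ) ≠ 0 := by exact_mod_cast (by omega : w.2.2 ≠ 0)
    have e : (Real.log w.1.1 - Real.log w.1.2) - (Real.log w.2.1 - Real.log w.2.2) =
        Real.log ((w.1.1 * w.2.2 : ℕ) : ℝ) - Real.log ((w.1.2 * w.2.1 : ℕ) : ℝ) := by
      push_cast
      rw [Real.log_mul a1 a4, Real.log_mul a2 a3]
      ring
    have hne : w.1.1 * w.2.2 ≠ w.1.2 * w.2.1 := by
      intro h
      apply h0
      unfold dt
      have : (w.1.1 : ℤ) * w.2.2 = (w.1.2 : ℤ) * w.2.1 := by exact_mod_cast h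
      linarith
    have hl := log_sub_ge (M := N₁ ^ 2) (Nat.mul_pos (by omega : 0 < w.1.1) (by omega : 0 < w.2.2))
      (Nat.mul_pos (by omega : 0 < w.1.2) (by omega : 0 < w.2.1)) hne
      (by rw [pow_two]; exact Nat.mul_le_mul h1.1.1.2 h2.1.2.2)
      (by rw [pow_two]; exact Nat.mul_le_mul h1.1.2.2 h2.1.1.2)
    rw [e]
    have hdt : ((dt w : ℤ) : ℝ) = ((w.1.1 * w.2.2 : ℕ) : ℝ) - ((w.1.2 * w.2.1 : ℕ) : ℝ) := by
      unfold dt
      push_cast
      ring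
    rw [← hdt] at hl
    have hd0 : 0 < |((dt w : ℤ) : ℝ)| := by
      rw [abs_pos]
      exact_mod_cast h0
    have hN0 : 0 < ((N₁ ^ 2 : ℕ) : ℝ) := by
      have : 0 < N₁ := by omega
      positivity
    have hpos : 0 < |Real.log ((w.1.1 * w.2.2 : ℕ) : ℝ) - Real.log ((w.1.2 * w.2.1 : ℕ) : ℝ)| :=
      lt_of_lt_of_le (by positivity) hl
    refine (int_rc2 hγ (abs_pos.1 hpos)).trans ?_
    apply mul_le_mul_of_nonneg_left _ (by norm_num)
    rw [div_le_div_iff₀ hpos hd0, one_mul]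
    rw [div_le_iff₀ hN0] at hl
    push_cast at hl ⊢
    linarith

lemma swap_mem {N₀ N₁ D : ℕ} {z : ℕ × ℕ} (h : z ∈ PP N₀ N₁ D) : z.swap ∈ PP N₀ N₁ D := by
  rw [mem_PP] at h ⊢
  simp only [Prod.fst_swap, Prod.snd_swap]
  exact ⟨⟨h.1.2, h.1.1⟩, h.2.1.symm, h.2.2.2.1, h.2.2.1, h.2.2.2.2.2, h.2.2.2.2.1⟩

/-- **The second moment.** -/
theorem second_tw (hg : ∀ n, ‖g n‖ = 1) {N N₁ D : ℕ} {A B h T : ℝ} (hh : 0 ≤ h) (hT : 0 ≤ T)
    (hAB : A ≤ B) (hA : ((1 : ℕ) : ℝ) + h / 2 ≤ A) (hB : B + h / 2 ≤ N₁) (hD : h ≤ D) (hN : N₁ < N) :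
    ∫ t in (0 : ℝ)..T, Off (tw g t) N A B h ^ 2 ≤ 3 * (h ^ 2 *
      ∑ w ∈ PP 1 N₁ D ×ˢ PP 1 N₁ D, gb N₁ T w) := by
  classical
  obtain ⟨θ, hθ⟩ : ∃ θ : ℕ × ℕ → ℝ, θ = fun z => Real.log z.1 - Real.log z.2 := ⟨_, rfl⟩
  have e1 : ∀ t : ℝ, Off (tw g t) N A B h ^ 2 = ∑ z ∈ PP 1 N₁ D, ∑ z' ∈ PP 1 N₁ D,
      (w h A B z.1 z.2 * w h A B z'.1 z'.2) *
        (rc (be g z.1 z.2) (θ z) t * rc (be g z'.1 z'.2) (θ z') t) := by
    intro t
    rw [Off_gen (fun n hn => tw_zero t hn) hAB hA hB hD hN, pow_two, sum_mul_sum]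
    apply sum_congr rfl
    intro z _
    apply sum_congr rfl
    intro z' _
    rw [cf_tw, cf_tw, hθ]
    ring
  have hrc : ∀ (γ : ℂ) (c : ℝ), Continuous fun t : ℝ => rc γ c t := by
    intro γ c
    unfold rc
    fun_prop
  have hint : ∀ (C : ℝ) (γ γ' : ℂ) (a b : ℝ), IntervalIntegrable
      (fun t => C * (rc γ a t * rc γ' b t)) volume 0 T := fun C γ γ' a b =>
    (((hrc γ a).mul (hrc γ' b)).const_mul C).intervalIntegrable 0 T
  simp only [e1]
  have e2 : ∫ t in (0 : ℝ)..T, ∑ z ∈ PP 1 N₁ D, ∑ z' ∈ PP 1 N₁ D,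
      (w h A B z.1 z.2 * w h A B z'.1 z'.2) *
        (rc (be g z.1 z.2) (θ z) t * rc (be g z'.1 z'.2) (θ z') t) =
      ∑ z ∈ PP 1 N₁ D, ∑ z' ∈ PP 1 N₁ D,
      (w h A B z.1 z.2 * w h A B z'.1 z'.2) *
        ∫ t in (0 : ℝ)..T, (rc (be g z.1 z.2) (θ z) t * rc (be g z'.1 z'.2) (θ z') t) := by
    rw [intervalIntegral.integral_finsetSum]
    · apply sum_congr rfl
      intro z _
      rw [intervalIntegral.integral_finsetSum]
      · apply sum_congr rfl
        intro z' _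
        rw [intervalIntegral.integral_const_mul]
      · intro z' _
        exact hint _ _ _ _ _
    · intro z _
      apply Continuous.intervalIntegrable
      apply continuous_finsetSum
      intro z' _
      exact ((hrc _ _).mul (hrc _ _)).const_mul _
  rw [e2]
  -- the product of two terms
  have hcc : ∀ (γ γ' : ℂ) (a b : ℝ), |∫ t in (0 : ℝ)..T, rc γ a t * rc γ' b t| ≤
      1 / 2 * |∫ t in (0 : ℝ)..T, rc (γ * (starRingEnd ℂ) γ') (a - b) t| +
      1 / 2 * |∫ t in (0 : ℝ)..T, rc (γ * γ') (a + b) t| := by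
    intro γ γ' a b
    simp only [rc_mul]
    rw [intervalIntegral.integral_add, intervalIntegral.integral_const_mul,
      intervalIntegral.integral_const_mul]
    · refine (abs_add_le _ _).trans ?_
      rw [abs_mul, abs_mul, abs_of_pos (by norm_num : (0 : ℝ) < 1 / 2)]
    · exact ((hrc _ _).const_mul _).intervalIntegrable _ _
    · exact ((hrc _ _).const_mul _).intervalIntegrable _ _
  have hterm : ∀ z ∈ PP 1 N₁ D, ∀ z' ∈ PP 1 N₁ D,
      (w h A B z.1 z.2 * w h A B z'.1 z'.2) *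
        (∫ t in (0 : ℝ)..T, (rc (be g z.1 z.2) (θ z) t * rc (be g z'.1 z'.2) (θ z') t)) ≤
      3 * (h ^ 2 * (1 / 2 * gb N₁ T (z, z') + 1 / 2 * gb N₁ T (z, z'.swap))) := by
    intro z hz z' hz'
    have hw0 : 0 ≤ w h A B z.1 z.2 * w h A B z'.1 z'.2 :=
      mul_nonneg (w_nonneg hAB _ _) (w_nonneg hAB _ _)
    have hw1 : w h A B z.1 z.2 * w h A B z'.1 z'.2 ≤ h ^ 2 := by
      rw [pow_two]
      exact mul_le_mul (w_le hh hAB _ _) (w_le hh hAB _ _) (w_nonneg hAB _ _) hh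
    have hγ1 : ‖be g z.1 z.2 * (starRingEnd ℂ) (be g z'.1 z'.2)‖ ≤ 1 := by
      rw [norm_mul, Complex.norm_conj]
      exact mul_le_one₀ (be_norm hg _ _) (norm_nonneg _) (be_norm hg _ _)
    have hγ2 : ‖be g z.1 z.2 * be g z'.1 z'.2‖ ≤ 1 := by
      rw [norm_mul]
      exact mul_le_one₀ (be_norm hg _ _) (norm_nonneg _) (be_norm hg _ _)
    have h1 := int_le hT hγ1 (w := (z, z')) hz hz'
    have h2 := int_le hT hγ2 (w := (z, z'.swap)) hz (swap_mem hz')
    simp only [Prod.fst_swap, Prod.snd_swap] at h1 h2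
    have e4 : Real.log z.1 - Real.log z.2 - (Real.log z'.2 - Real.log z'.1) = θ z + θ z' := by
      rw [hθ]
      ring
    have e5 : Real.log z.1 - Real.log z.2 - (Real.log z'.1 - Real.log z'.2) = θ z - θ z' := by
      rw [hθ]
    rw [e4] at h2
    rw [e5] at h1
    have h3 := hcc (be g z.1 z.2) (be g z'.1 z'.2) (θ z) (θ z')
    refine (mul_le_mul_of_nonneg_left (le_abs_self _) hw0).trans ?_
    calc (w h A B z.1 z.2 * w h A B z'.1 z'.2) * _ ≤ h ^ 2 * (3 * (1 / 2 * gb N₁ T (z, z') +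
          1 / 2 * gb N₁ T (z, z'.swap))) :=
          mul_le_mul hw1 (by linarith) (abs_nonneg _) (by positivity)
      _ = _ := by ring
  refine (sum_le_sum fun z hz => sum_le_sum fun z' hz' => hterm z hz z' hz').trans (le_of_eq ?_)
  rw [sum_product, mul_sum, mul_sum]
  apply sum_congr rfl
  intro z _
  have e5 : ∑ z' ∈ PP 1 N₁ D, gb N₁ T (z, z'.swap) = ∑ z' ∈ PP 1 N₁ D, gb N₁ T (z, z') := by
    apply sum_nbij' Prod.swap Prod.swap
    · intro a ha
      exact swap_mem ha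
    · intro a ha
      exact swap_mem ha
    · intro a _
      exact Prod.swap_swap a
    · intro a _
      exact Prod.swap_swap a
    · intro a _
      rfl
  rw [← mul_sum, ← mul_sum, sum_add_distrib, ← mul_sum, ← mul_sum, e5]
  ring

end Pool.Agent.H93GC
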