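import Mathlib
import Pool.Agent.H93GC.Tw2

/-!
# Twists by `n ^ (i t)`: the exceptional set (helper93)
-/

set_option autoImplicit false

namespace Pool.Agent.H93GC

open MeasureTheory Finset Filter

lemma pow_log {L : ℕ} {X e : ℝ} (he : 0 < e) (he1 : e ≤ 1 / 2) (hX : 1 ≤ X) (h : (2 : ℝ) ^ L ≤ 2 * X) :
    (L : ℝ) ≤ 64 / e * X ^ (e / 16) := by
  have h1 : (L : ℝ) * Real.log 2 ≤ Real.log (2 * X) := by
    rw [← Real.log_pow]
    exact Real.log_le_log (by positivity) h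
  have h2 : (1 : ℝ) / 2 ≤ Real.log 2 := by linarith [Real.log_two_gt_d9]
  have h3 := Real.log_le_rpow_div (x := 2 * X) (by linarith) (ε := e / 16) (by positivity)
  have h4 : (2 * X) ^ (e / 16) ≤ 2 * X ^ (e / 16) := by
    rw [Real.mul_rpow (by norm_num) (by linarith)]
    apply mul_le_mul_of_nonneg_right _ (by positivity)
    calc (2 : ℝ) ^ (e / 16) ≤ 2 ^ (1 : ℝ) := Real.rpow_le_rpow_of_exponent_le (by norm_num) (by linarith)
      _ = 2 := Real.rpow_one 2
  have h5 : (L : ℝ) * (1 / 2) ≤ (L : ℝ) * Real.log 2 := mul_le_mul_of_nonneg_left h2 (by positivity)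
  have h6 : (2 * X) ^ (e / 16) / (e / 16) ≤ 2 * X ^ (e / 16) / (e / 16) :=
    div_le_div_of_nonneg_right h4 (by positivity)
  have h7 : 2 * X ^ (e / 16) / (e / 16) = 32 / e * X ^ (e / 16) := by
    field_simp
    ring
  have h8 : 64 / e * X ^ (e / 16) = 2 * (32 / e * X ^ (e / 16)) := by ring
  linarith

/-- **The exceptional set.** -/
theorem scale_tw {e : ℝ} (he : 0 < e) (he1 : e ≤ 1 / 2) : ∃ X₁ : ℝ, 1 ≤ X₁ ∧
    ∀ g : ℕ → ℂ, (∀ n, ‖g n‖ = 1) → ∀ X H₀ T : ℝ, X₁ ≤ X → 1 ≤ H₀ → H₀ ≤ X ^ (1 - e) → H₀ * X ^ (1 + e) ≤ T → ∃ (N : ℕ) (E : Set ℝ), 9 * X ≤ N ∧ MeasurableSet E ∧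
      (volume.restrict (Set.Ioc 0 T)).real E ≤ T * X ^ (-(e / 8)) ∧
      ∀ t ∉ E, ∀ H X' : ℝ, 1 ≤ H → H ≤ H₀ → X ≤ X' → X' ≤ 2 * X →
        |W (tw g t) N X' (2 * X') H - X' * H * cc| ≤ H * X * X ^ (-(e / 32)) := by
  obtain ⟨C, hC, hs⟩ := sum_dt (e / 4) (by positivity)
  obtain ⟨Xa, hXa⟩ := eventually_atTop.1 (par he he1)
  obtain ⟨Xb, hXb⟩ := eventually_atTop.1 (ev_ge (e := e / 16) (by positivity)
    (64 / e * (36 * (C * 81 * 6 * 82))))
  obtain ⟨Xc, hXc⟩ := eventually_atTop.1 (ev_ge (e := e / 32) (by positivity) 29000)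
  refine ⟨max 3 (max Xa (max Xb Xc)), le_trans (by norm_num) (le_max_left _ _), ?_⟩
  intro g hgn X H₀ T hX hH1 hHX hHT
  have hX3 : 3 ≤ X := (le_max_left _ _).trans hX
  have hpar := hXa X (((le_max_left _ _).trans (le_max_right _ _)).trans hX)
  have hXb' := hXb X ((((le_max_left _ _).trans (le_max_right _ _)).trans (le_max_right _ _)).trans hX)
  have hXc' := hXc X ((((le_max_right _ _).trans (le_max_right _ _)).trans (le_max_right _ _)).trans hX)
  have hX1 := hpar.one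
  have hX0 : 0 < X := by linarith
  have hT0 : 0 ≤ T := le_trans (by positivity) hHT
  obtain ⟨J, hJ⟩ : ∃ J : ℕ, J = JJ e X := ⟨_, rfl⟩
  have hJ2 : 2 ≤ J := by rw [hJ]; exact hpar.J2
  have hJ0 : (0 : ℝ) < J := by exact_mod_cast (by omega : 0 < J)
  have hH4 : H₀ ≤ X / 4 := by
    have h1 := hpar.Hm
    have h2 : 0 < X ^ (1 - e) := by positivity
    linarith
  obtain ⟨L, hL1, hL2⟩ := exists_pow hH1
  obtain ⟨N, hN⟩ : ∃ N : ℕ, N = ⌈9 * X⌉₊ + 1 := ⟨_, rfl⟩
  have hN1 : 9 * X + 1 ≤ N := by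
    rw [hN]
    push_cast
    linarith [Nat.le_ceil (9 * X)]
  obtain ⟨N₁, hN₁⟩ : ∃ N₁ : ℕ, N₁ = ⌊9 * X⌋₊ := ⟨_, rfl⟩
  have hN₁a : (N₁ : ℝ) ≤ 9 * X := by rw [hN₁]; exact Nat.floor_le (by linarith)
  have hN₁b : 9 * X < (N₁ : ℝ) + 1 := by rw [hN₁]; exact Nat.lt_floor_add_one _
  have hNN : N₁ < N := by
    have : (N₁ : ℝ) < N := by linarith
    exact_mod_cast this
  have hN₁1 : 1 ≤ N₁ := by
    have : (0 : ℝ) < N₁ := by linarith
    exact_mod_cast this
  obtain ⟨K, hK⟩ : ∃ K : ℝ, K = C * 81 * 6 * (X ^ (1 + e / 4) * (T + 81 * X ^ 2)) := ⟨_, rfl⟩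
  have hK0 : 0 ≤ K := by rw [hK]; positivity
  have herr : X ^ (-(e / 8)) + 1 / (J : ℝ) + (6 * √(9 * X) + 2 * H₀ + 4) / X ≤ 28 * X ^ (-(e / 16)) := by
    refine le_trans ?_ hpar.err
    rw [← hJ]
    have h1 : (6 * √(9 * X) + 2 * H₀ + 4) / X ≤ (6 * √(9 * X) + 2 * (2 * X ^ (1 - e)) + 4) / X := by
      apply div_le_div_of_nonneg_right _ hX0.le
      have h2 : 0 < X ^ (1 - e) := by positivity
      linarith
    linarith
  have hE : ∀ l i j : ℕ, i < J → gh J l i ≤ H₀ → j ≤ 8 * J →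
      ∫ t, Off (tw g t) N (X / 2) (X / 2 + j * (X / J)) (gh J l i) ^ 2 ∂(volume.restrict (Set.Ioc 0 T)) ≤
        K * gh J l i ^ 3 := by
    intro l i j _ hg hj
    obtain ⟨h, hh⟩ : ∃ h : ℝ, h = gh J l i := ⟨_, rfl⟩
    rw [← hh] at hg ⊢
    have hh1 : 1 ≤ h := by
      rw [hh]
      unfold gh
      have h1 : (1 : ℝ) ≤ 2 ^ l := one_le_pow₀ (by norm_num)
      have h2 : 0 ≤ (i : ℝ) / J := by positivity
      nlinarith
    obtain ⟨D, hD⟩ : ∃ D : ℕ, D = ⌈h⌉₊ := ⟨_, rfl⟩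
    have hD1 : h ≤ D := by rw [hD]; exact Nat.le_ceil _
    have hD2 : (D : ℝ) < h + 1 := by rw [hD]; exact Nat.ceil_lt_add_one (by linarith)
    have hjX0 : 0 ≤ (j : ℝ) * (X / J) := by positivity
    have hjX : (j : ℝ) * (X / J) ≤ 8 * X := by
      have h1 : (j : ℝ) ≤ 8 * J := by exact_mod_cast hj
      calc (j : ℝ) * (X / J) ≤ (8 * J) * (X / J) := mul_le_mul_of_nonneg_right h1 (by positivity)
        _ = 8 * X := by field_simp
    have h1 := second_tw hgn (N := N) (N₁ := N₁) (D := D) (A := X / 2) (B := X / 2 + j * (X / J)) (h := h)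
      (T := T) (by linarith) hT0 (by linarith) (by push_cast; linarith) (by linarith) hD1 hNN
    rw [intervalIntegral.integral_of_le hT0] at h1
    refine h1.trans ?_
    have h2 := hs N₁ D T hN₁1 (by
      have : (0 : ℝ) < D := by linarith
      exact_mod_cast this) (by
      have : (D : ℝ) ≤ N₁ := by linarith
      exact_mod_cast this) hT0
    have h3 : ((N₁ : ℝ)) ^ (1 + e / 4) ≤ 81 * X ^ (1 + e / 4) := by
      calc ((N₁ : ℝ)) ^ (1 + e / 4) ≤ (9 * X) ^ (1 + e / 4) :=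
            Real.rpow_le_rpow (by positivity) hN₁a (by positivity)
        _ = 9 ^ (1 + e / 4) * X ^ (1 + e / 4) := Real.mul_rpow (by norm_num) hX0.le
        _ ≤ 81 * X ^ (1 + e / 4) := by
            apply mul_le_mul_of_nonneg_right _ (by positivity)
            calc (9 : ℝ) ^ (1 + e / 4) ≤ 9 ^ (2 : ℝ) :=
                  Real.rpow_le_rpow_of_exponent_le (by norm_num) (by linarith)
              _ = 81 := by norm_num
    have h4 : (N₁ : ℝ) ^ 2 ≤ 81 * X ^ 2 := by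
      calc (N₁ : ℝ) ^ 2 ≤ (9 * X) ^ 2 := pow_le_pow_left₀ (by positivity) hN₁a 2
        _ = 81 * X ^ 2 := by ring
    have h5 : ∑ w ∈ PP 1 N₁ D ×ˢ PP 1 N₁ D, gb N₁ T w ≤
        C * (81 * X ^ (1 + e / 4)) * (2 * h) * (T + 81 * X ^ 2) := by
      refine le_trans h2 ?_
      apply mul_le_mul _ (by linarith) (by positivity) (by positivity)
      apply mul_le_mul _ (by linarith) (by positivity) (by positivity)
      exact mul_le_mul_of_nonneg_left h3 hC.le
    calc 3 * (h ^ 2 * ∑ w ∈ PP 1 N₁ D ×ˢ PP 1 N₁ D, gb N₁ T w) ≤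
        3 * (h ^ 2 * (C * (81 * X ^ (1 + e / 4)) * (2 * h) * (T + 81 * X ^ 2))) := by
          apply mul_le_mul_of_nonneg_left _ (by norm_num)
          exact mul_le_mul_of_nonneg_left h5 (by positivity)
      _ = K * h ^ 3 := by rw [hK]; ring
  obtain ⟨E, hE1, hE2, hE3⟩ := one_scale (P := volume.restrict (Set.Ioc 0 T)) (f := tw g)
    (fun t n => tw_norm hgn t n) (fun t n => cf_tw_self hgn t n) tw_meas (N := N) (J := J) (L₀ := L)
    (X := X) (Hm := H₀) (κ₀ := X ^ (-(e / 8))) (K := K) hJ2 hX1 hN1 (by positivity) (by linarith) hH4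
    hL1 (herr.trans hpar.le) hK0 hE
  refine ⟨N, E, by linarith, hE1, hE2.trans ?_, fun t ht H X' h1 h2 h3 h4 => ?_⟩
  · have hJs := JJ_sq he hX1
    rw [← hJ] at hJs
    have hLle := pow_log he he1 hX1 (L := L) (by linarith)
    have e1 : (X ^ (-(e / 8)) * X) ^ 2 = X ^ (2 - e / 4) := by
      nth_rewrite 2 [← Real.rpow_one X]
      rw [← Real.rpow_add hX0, ← Real.rpow_natCast, ← Real.rpow_mul hX0.le]
      congr 1
      push_cast
      ring
    -- `K H₀ X ^ (- 2 + e / 4) ≤ C' T X ^ (- e / 2)`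
    have e2 : K * H₀ / X ^ (2 - e / 4) ≤ C * 81 * 6 * 82 * (T * X ^ (-(e / 2))) := by
      rw [div_le_iff₀ (by positivity), hK]
      have a1 : X ^ (1 + e / 4) * H₀ ≤ X ^ (-(e / 2)) * X ^ (2 - e / 4) := by
        calc X ^ (1 + e / 4) * H₀ ≤ X ^ (1 + e / 4) * X ^ (1 - e) :=
              mul_le_mul_of_nonneg_left hHX (by positivity)
          _ = X ^ (-(e / 2)) * X ^ (2 - e / 4) := by
              rw [← Real.rpow_add hX0, ← Real.rpow_add hX0]
              congr 1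
              ring
      have a2 : X ^ (1 + e / 4) * X ^ 2 * H₀ ≤ T * (X ^ (-(e / 2)) * X ^ (2 - e / 4)) := by
        have e3 : X ^ (1 + e / 4) * X ^ 2 * H₀ =
            (H₀ * X ^ (1 + e)) * (X ^ (-(e / 2)) * X ^ (2 - e / 4)) := by
          have e4 : X ^ (1 + e / 4) * X ^ 2 = X ^ (1 + e) * (X ^ (-(e / 2)) * X ^ (2 - e / 4)) := by
            rw [← Real.rpow_natCast X 2, ← Real.rpow_add hX0, ← Real.rpow_add hX0, ← Real.rpow_add hX0]
            congr 1
            push_cast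
            ring
          rw [e4]
          ring
        rw [e3]
        exact mul_le_mul_of_nonneg_right hHT (by positivity)
      calc C * 81 * 6 * (X ^ (1 + e / 4) * (T + 81 * X ^ 2)) * H₀ =
          C * 81 * 6 * (T * (X ^ (1 + e / 4) * H₀) + 81 * (X ^ (1 + e / 4) * X ^ 2 * H₀)) := by ring
        _ ≤ C * 81 * 6 * (T * (X ^ (-(e / 2)) * X ^ (2 - e / 4)) +
            81 * (T * (X ^ (-(e / 2)) * X ^ (2 - e / 4)))) := by
            apply mul_le_mul_of_nonneg_left _ (by positivity)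
            have := mul_le_mul_of_nonneg_left a1 hT0
            linarith
        _ = _ := by ring
    rw [e1]
    have e5 : X ^ (e / 4) * X ^ (-(e / 2)) = X ^ (-(e / 4)) := by
      rw [← Real.rpow_add hX0]
      congr 1
      ring
    have e6 : X ^ (e / 16) * X ^ (e / 16) = X ^ (e / 8) := by
      rw [← Real.rpow_add hX0]
      congr 1
      ring
    have e7 : X ^ (e / 8) * X ^ (-(e / 4)) = X ^ (-(e / 8)) := by
      rw [← Real.rpow_add hX0]
      congr 1
      ring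
    calc (L : ℝ) * (J * ((8 * J + 1 : ℕ) * (K * H₀ / X ^ (2 - e / 4)))) =
        (L : ℝ) * ((J * ((8 * J + 1 : ℕ) : ℝ)) * (K * H₀ / X ^ (2 - e / 4))) := by ring
      _ ≤ (64 / e * X ^ (e / 16)) * ((36 * X ^ (e / 4)) * (C * 81 * 6 * 82 * (T * X ^ (-(e / 2))))) := by
          apply mul_le_mul hLle _ (by positivity) (by positivity)
          exact mul_le_mul hJs e2 (by positivity) (by positivity)
      _ = X ^ (e / 16) * (64 / e * (36 * (C * 81 * 6 * 82))) * T * (X ^ (e / 4) * X ^ (-(e / 2))) := by ring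
      _ ≤ X ^ (e / 16) * X ^ (e / 16) * T * (X ^ (e / 4) * X ^ (-(e / 2))) := by
          apply mul_le_mul_of_nonneg_right _ (by positivity)
          apply mul_le_mul_of_nonneg_right _ hT0
          exact mul_le_mul_of_nonneg_left hXb' (by positivity)
      _ = T * X ^ (-(e / 8)) := by
          rw [e5, e6, ← e7]
          ring
  · refine (hE3 t ht H X' h1 h2 h3 h4).trans ?_
    have h5 := hpar.sq
    rw [← hJ] at h5
    have h6 : X ^ (-(e / 16)) * 29000 ≤ X ^ (-(e / 32)) := by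
      have h7 : X ^ (-(e / 32)) = X ^ (-(e / 16)) * X ^ (e / 32) := by
        rw [← Real.rpow_add hX0]
        congr 1
        ring
      rw [h7]
      exact mul_le_mul_of_nonneg_left hXc' (by positivity)
    have hHX0 : 0 ≤ H * X := mul_nonneg (by linarith) hX0.le
    calc 1000 * (X ^ (-(e / 8)) + 1 / (J : ℝ) + (6 * √(9 * X) + 2 * H₀ + 4) / X + 1 / √J) * H * X =
        (1000 * (X ^ (-(e / 8)) + 1 / (J : ℝ) + (6 * √(9 * X) + 2 * H₀ + 4) / X + 1 / √J)) * (H * X) := by ring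
      _ ≤ X ^ (-(e / 32)) * (H * X) := mul_le_mul_of_nonneg_right (by linarith) hHX0
      _ = H * X * X ^ (-(e / 32)) := by ring

end Pool.Agent.H93GC
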