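import Mathlib
import Pool.Agent.H93GC.Rmf
import Pool.Agent.H93GC.Par

/-!
# Rademacher random multiplicative functions: almost surely, all lengths (helper93)
-/

set_option autoImplicit false

namespace Pool.Agent.H93GC

open MeasureTheory Finset ProbabilityTheory Filter

variable {Ω : Type*} [MeasurableSpace Ω] {P : Measure Ω} {ξ : ℕ → Ω → ℝ}

lemma gh_ge (J l i : ℕ) : 1 ≤ gh J l i := by
  unfold gh
  have h1 : (1 : ℝ) ≤ 2 ^ l := one_le_pow₀ (by norm_num)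
  have h2 : 0 ≤ (i : ℝ) / J := by positivity
  nlinarith

lemma fc_norm (h : Rad P ξ) (ω : Ω) (n : ℕ) : ‖fc ξ ω n‖ ≤ 1 := by
  unfold fc
  rw [Complex.norm_real, Real.norm_eq_abs]
  exact ff_bound h ω n

lemma fc_meas (h : Rad P ξ) (n : ℕ) : Measurable fun ω => fc ξ ω n :=
  Complex.measurable_ofReal.comp (ff_meas h n)

/-- the second moment at the grid points -/
theorem second_grid {ε : ℝ} (hε : 0 < ε) (hε1 : ε ≤ 1 / 2) : ∃ C : ℝ, 0 < C ∧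
    ∀ {Ω : Type} [MeasurableSpace Ω] {P : Measure Ω} [IsProbabilityMeasure P] {ξ : ℕ → Ω → ℝ},
    Rad P ξ → ∀ k : ℕ, 2 ≤ k → Par ε ((2 : ℝ) ^ k) → ∀ l i j : ℕ, i < JJ ε ((2 : ℝ) ^ k) →
      gh (JJ ε ((2 : ℝ) ^ k)) l i ≤ 2 * ((2 : ℝ) ^ k) ^ (1 - ε) → j ≤ 8 * JJ ε ((2 : ℝ) ^ k) →
      ∫ ω, Off (fc ξ ω) (9 * 2 ^ k + 1) ((2 : ℝ) ^ k / 2)
        ((2 : ℝ) ^ k / 2 + j * ((2 : ℝ) ^ k / JJ ε ((2 : ℝ) ^ k))) (gh (JJ ε ((2 : ℝ) ^ k)) l i) ^ 2 ∂P ≤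
      C * ((2 : ℝ) ^ k) ^ (1 + ε / 4) * gh (JJ ε ((2 : ℝ) ^ k)) l i ^ 3 := by
  obtain ⟨C, hC, hq⟩ := card_quad 36 (ε / 4) (by positivity)
  refine ⟨C * 81 * 2, by positivity, ?_⟩
  intro Ω _ P _ ξ hr k hk hpar l i j _ hg hj
  obtain ⟨X, hX⟩ : ∃ X : ℝ, X = (2 : ℝ) ^ k := ⟨_, rfl⟩
  rw [← hX] at hpar hg hj ⊢
  obtain ⟨J, hJ⟩ : ∃ J : ℕ, J = JJ ε X := ⟨_, rfl⟩
  rw [← hJ] at hg hj ⊢
  have hX1 := hpar.one
  have hX0 : 0 < X := by linarith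
  have hJ2 : 2 ≤ J := by rw [hJ]; exact hpar.J2
  have hJ0 : (0 : ℝ) < J := by exact_mod_cast (by omega : 0 < J)
  obtain ⟨h, hh⟩ : ∃ h : ℝ, h = gh J l i := ⟨_, rfl⟩
  rw [← hh] at hg ⊢
  have hh1 : 1 ≤ h := by rw [hh]; exact gh_ge J l i
  have hhX : h ≤ X / 4 := hg.trans hpar.Hm
  obtain ⟨N₀, hN₀⟩ : ∃ N₀ : ℕ, N₀ = 2 ^ (k - 2) := ⟨_, rfl⟩
  have hN₀X : (N₀ : ℝ) = X / 4 := by
    have h1 : (2 : ℝ) ^ k = 2 ^ (k - 2) * 2 ^ 2 := by
      rw [← pow_add]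
      congr 1
      omega
    rw [hN₀, hX, h1]
    push_cast
    ring
  obtain ⟨D, hD⟩ : ∃ D : ℕ, D = ⌈h⌉₊ := ⟨_, rfl⟩
  have hD1 : h ≤ D := by rw [hD]; exact Nat.le_ceil _
  have hD2 : (D : ℝ) ≤ 2 * h := by
    have : (D : ℝ) < h + 1 := by rw [hD]; exact Nat.ceil_lt_add_one (by linarith)
    linarith
  have hjX0 : 0 ≤ (j : ℝ) * (X / J) := by positivity
  have hjX : (j : ℝ) * (X / J) ≤ 8 * X := by
    have h1 : (j : ℝ) ≤ 8 * J := by exact_mod_cast hj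
    calc (j : ℝ) * (X / J) ≤ (8 * J) * (X / J) := mul_le_mul_of_nonneg_right h1 (by positivity)
      _ = 8 * X := by field_simp
  have h1 := second hr (N := 9 * 2 ^ k + 1) (N₀ := N₀) (N₁ := 9 * 2 ^ k) (D := D) (A := X / 2)
    (B := X / 2 + j * (X / J)) (h := h) (by linarith) (by linarith) (by rw [hN₀X]; linarith)
    (by push_cast; rw [← hX]; linarith) hD1 (by omega)
  refine h1.trans ?_
  have h2 := hq N₀ (9 * 2 ^ k) D (by rw [hN₀]; exact Nat.one_le_two_pow) (by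
    rw [hN₀]
    have : 2 ^ k = 2 ^ (k - 2) * 2 ^ 2 := by
      rw [← pow_add]
      congr 1
      omega
    omega) (by
    have h3 : (D : ℝ) ≤ ((9 * 2 ^ k : ℕ) : ℝ) := by
      push_cast
      rw [← hX]
      linarith
    exact_mod_cast h3)
  have h3 : (((9 * 2 ^ k : ℕ) : ℝ)) ^ (1 + ε / 4) ≤ 81 * X ^ (1 + ε / 4) := by
    push_cast
    rw [← hX, Real.mul_rpow (by norm_num) hX0.le]
    apply mul_le_mul_of_nonneg_right _ (by positivity)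
    calc (9 : ℝ) ^ (1 + ε / 4) ≤ 9 ^ (2 : ℝ) :=
          Real.rpow_le_rpow_of_exponent_le (by norm_num) (by linarith)
      _ = 81 := by norm_num
  calc h ^ 2 * _ ≤ h ^ 2 * (C * (81 * X ^ (1 + ε / 4)) * (2 * h)) := by
        apply mul_le_mul_of_nonneg_left _ (by positivity)
        refine h2.trans ?_
        apply mul_le_mul _ hD2 (by positivity) (by positivity)
        exact mul_le_mul_of_nonneg_left h3 hC.le
    _ = C * 81 * 2 * X ^ (1 + ε / 4) * h ^ 3 := by ring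

/-- the exceptional sets of all scales -/
theorem scales {ε : ℝ} (hε : 0 < ε) (hε1 : ε ≤ 1 / 2) : ∃ (A : ℝ) (k₁ : ℕ), 0 < A ∧
    ∀ {Ω : Type} [MeasurableSpace Ω] {P : Measure Ω} [IsProbabilityMeasure P] {ξ : ℕ → Ω → ℝ},
    Rad P ξ → ∀ k : ℕ, k₁ ≤ k → ∃ E : Set Ω, MeasurableSet E ∧
      P.real E ≤ A * (k + 2) * ((2 : ℝ) ^ (-(ε / 4))) ^ k ∧
      ∀ ω ∉ E, ∀ H X' : ℝ, 1 ≤ H → H ≤ 2 * ((2 : ℝ) ^ k) ^ (1 - ε) → (2 : ℝ) ^ k ≤ X' →
        X' ≤ 2 * (2 : ℝ) ^ k →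
        |W (fc ξ ω) (9 * 2 ^ k + 1) X' (2 * X') H - X' * H * cc| ≤
          29000 * ((2 : ℝ) ^ k) ^ (-(ε / 16)) * H * (2 : ℝ) ^ k := by
  obtain ⟨C, hC, hsec⟩ := second_grid hε hε1
  obtain ⟨X₁, hX₁⟩ := eventually_atTop.1 (par hε hε1)
  obtain ⟨k₀, hk₀⟩ := pow_unbounded_of_one_lt X₁ (one_lt_two (α := ℝ))
  refine ⟨36 * (C * 2), max 2 k₀, by positivity, ?_⟩
  intro Ω _ P _ ξ hr k hk
  have hk2 : 2 ≤ k := (le_max_left _ _).trans hk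
  have hpar : Par ε ((2 : ℝ) ^ k) := hX₁ _ (hk₀.le.trans
    (pow_le_pow_right₀ (by norm_num) ((le_max_right _ _).trans hk)))
  have hs := hsec hr k hk2 hpar
  obtain ⟨X, hX⟩ : ∃ X : ℝ, X = (2 : ℝ) ^ k := ⟨_, rfl⟩
  rw [← hX] at hpar hs ⊢
  have hX1 := hpar.one
  have hX0 : 0 < X := by linarith
  have hJ0 : (0 : ℝ) < JJ ε X := by
    have := hpar.J2
    exact_mod_cast (by omega : 0 < JJ ε X)
  obtain ⟨E, hE1, hE2, hE3⟩ := one_scale (P := P) (f := fc ξ) (fun ω n => fc_norm hr ω n)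
    (fun ω n => by rw [cf_fc, ff_sq hr]) (fc_meas hr) (N := 9 * 2 ^ k + 1) (J := JJ ε X) (L₀ := k + 2)
    (X := X) (Hm := 2 * X ^ (1 - ε)) (κ₀ := X ^ (-(ε / 8))) (K := C * X ^ (1 + ε / 4)) hpar.J2 hX1
    (by push_cast; rw [← hX]) (by positivity) (by positivity) hpar.Hm
    (by
      have h1 : X ^ (1 - ε) ≤ X := by
        calc X ^ (1 - ε) ≤ X ^ (1 : ℝ) := Real.rpow_le_rpow_of_exponent_le hX1 (by linarith)
          _ = X := Real.rpow_one X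
      rw [pow_add, ← hX]
      linarith)
    (hpar.err.trans hpar.le) (by positivity) hs
  refine ⟨E, hE1, hE2.trans ?_, fun ω hω H X' h1 h2 h3 h4 => ?_⟩
  · have e1 : ((2 : ℝ) ^ (-(ε / 4))) ^ k = X ^ (-(ε / 4)) := by
      rw [hX, ← Real.rpow_natCast, ← Real.rpow_mul (by norm_num), ← Real.rpow_natCast,
        ← Real.rpow_mul (by norm_num)]
      congr 1
      ring
    have e2 : C * X ^ (1 + ε / 4) * (2 * X ^ (1 - ε)) / (X ^ (-(ε / 8)) * X) ^ 2 =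
        (C * 2) * X ^ (-(ε / 2)) := by
      have e3 : (X ^ (-(ε / 8)) * X) ^ 2 = X ^ (2 - ε / 4) := by
        nth_rewrite 2 [← Real.rpow_one X]
        rw [← Real.rpow_add hX0, ← Real.rpow_natCast, ← Real.rpow_mul hX0.le]
        congr 1
        push_cast
        ring
      have e4 : X ^ (1 + ε / 4) * X ^ (1 - ε) = X ^ (-(ε / 2)) * X ^ (2 - ε / 4) := by
        rw [← Real.rpow_add hX0, ← Real.rpow_add hX0]
        congr 1
        ring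
      rw [e3, div_eq_iff (by positivity)]
      calc C * X ^ (1 + ε / 4) * (2 * X ^ (1 - ε)) = C * 2 * (X ^ (1 + ε / 4) * X ^ (1 - ε)) := by ring
        _ = _ := by rw [e4]; ring
    rw [e1, e2]
    have h5 := JJ_sq hε hX1
    have e5 : X ^ (-(ε / 4)) = X ^ (ε / 4) * X ^ (-(ε / 2)) := by
      rw [← Real.rpow_add hX0]
      congr 1
      ring
    rw [e5]
    push_cast at h5 ⊢
    calc ((k : ℝ) + 2) * ((JJ ε X : ℝ) * ((8 * (JJ ε X : ℝ) + 1) * (C * 2 * X ^ (-(ε / 2))))) =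
        ((k : ℝ) + 2) * (((JJ ε X : ℝ) * (8 * (JJ ε X : ℝ) + 1)) * (C * 2 * X ^ (-(ε / 2)))) := by ring
      _ ≤ ((k : ℝ) + 2) * ((36 * X ^ (ε / 4)) * (C * 2 * X ^ (-(ε / 2)))) := by
          apply mul_le_mul_of_nonneg_left _ (by positivity)
          exact mul_le_mul_of_nonneg_right h5 (by positivity)
      _ = _ := by ring
  · refine (hE3 ω hω H X' h1 h2 h3 h4).trans ?_
    apply mul_le_mul_of_nonneg_right _ hX0.le
    apply mul_le_mul_of_nonneg_right _ (by linarith)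
    have h5 := hpar.err
    have h6 := hpar.sq
    linarith

end Pool.Agent.H93GC
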